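import Pool.Agent.Lib.MP_8b3902_co.F.Defs
import Pool.Agent.Lib.MP_8b3902_co.Path

set_option autoImplicit false

namespace Pool.Agent.MP_8b3902_co

open Classical

variable {V : Type}

/-- F9. Shortest path between two sets: an induced path from a vertex of `U` to a vertex of `T`
inside `B`, whose vertices other than the first are not in `U` and from the third on have no
neighbour in `U`. (Minimise the length over all starting points; `SeqP`, `seqP_short` and the proof
of `exists_indPath` in Path.lean.) -/
theorem exists_short (G : SimpleGraph V) (B U T : Set V) {u v : V} (hu : u ∈ U) (hv : v ∈ T)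
    (h : Conn G B u v) :
    ∃ (n : ℕ) (f : ℕ → V), f 0 ∈ U ∧ f n ∈ T ∧ (∀ i ≤ n, f i ∈ B) ∧
      (∀ i ≤ n, ∀ j ≤ n, (G.Adj (f i) (f j) ↔ (i + 1 = j ∨ j + 1 = i)) ∧ (f i = f j → i = j)) ∧
      (∀ i ≤ n, 0 < i → f i ∉ U) ∧ (∀ i ≤ n, 1 < i → ∀ w ∈ U, w ∈ B → ¬ G.Adj w (f i)) := by
  have hex : ∃ n, ∃ x ∈ U, ∃ y ∈ T, SeqP G B x y n := by
    obtain ⟨n, hn⟩ := seqP_of_conn h
    exact ⟨n, u, hu, v, hv, hn⟩
  obtain ⟨x, hx, y, hy, f, h0, h1, h2, h3⟩ := Nat.find_spec hex
  have hmin : ∀ m < Nat.find hex, ¬ ∃ x ∈ U, ∃ y ∈ T, SeqP G B x y m := fun m hm =>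
    Nat.find_min hex hm
  generalize Nat.find hex = n at h1 h2 h3 hmin
  have hne : ∀ i j, i < j → j ≤ n → f i ≠ f j := by
    intro i j hij hjn he
    rcases hjn.lt_or_eq with hj | hj
    · have := h2 j hj
      rw [← he, show j + 1 = i + 1 + (j - i) by omega] at this
      exact hmin (n - (j - i)) (by omega)
        ⟨x, hx, y, hy, seqP_short h0 h1 h2 h3 i (j - i) (by omega) this⟩
    · refine hmin i (by omega) ⟨x, hx, y, hy, f, h0, ?_, fun k hk => h2 k (by omega),
        fun k hk => h3 k (by omega)⟩
      rw [he, hj, h1]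
  have hna : ∀ i j, i + 1 < j → j ≤ n → ¬ G.Adj (f i) (f j) := by
    intro i j hij hjn hadj
    rw [show j = i + 1 + (j - i - 1) by omega] at hadj
    exact hmin (n - (j - i - 1)) (by omega)
      ⟨x, hx, y, hy, seqP_short h0 h1 h2 h3 i (j - i - 1) (by omega) hadj⟩
  refine ⟨n, f, h0 ▸ hx, h1 ▸ hy, h3, ?_, ?_, ?_⟩
  · intro i hi j hj
    constructor
    · constructor
      · intro hadj
        by_contra hcon
        push Not at hcon
        rcases lt_trichotomy i j with hlt | heq | hlt
        · exact hna i j (by omega) (by omega) hadj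
        · rw [heq] at hadj
          exact G.irrefl hadj
        · exact hna j i (by omega) (by omega) hadj.symm
      · rintro (he | he)
        · rw [← he]
          exact h2 i (by omega)
        · rw [← he]
          exact (h2 j (by omega)).symm
    · intro he
      by_contra hij
      rcases Nat.lt_or_gt_of_ne hij with hlt | hlt
      · exact hne i j hlt hj he
      · exact hne j i hlt hi he.symm
  · intro i hi hi0 hiU
    refine hmin (n - i) (by omega) ⟨f i, hiU, y, hy, fun k => f (k + i), ?_, ?_, ?_, ?_⟩
    · show f (0 + i) = f i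
      rw [Nat.zero_add]
    · show f (n - i + i) = y
      rw [Nat.sub_add_cancel hi, h1]
    · intro k hk
      have := h2 (k + i) (by omega)
      rwa [show k + i + 1 = k + 1 + i by omega] at this
    · intro k hk
      exact h3 (k + i) (by omega)
  · intro i hi hi1 w hwU hwB hadj
    refine hmin (n - i + 1) (by omega) ⟨w, hwU, y, hy, fun k => if k = 0 then w else f (k + i - 1),
      ?_, ?_, ?_, ?_⟩
    · simp
    · dsimp only
      rw [if_neg (by omega), show n - i + 1 + i - 1 = n by omega, h1]
    · intro k hk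
      dsimp only
      rw [if_neg (by omega : k + 1 ≠ 0)]
      by_cases hk0 : k = 0
      · rw [if_pos hk0, hk0, show 0 + 1 + i - 1 = i by omega]
        exact hadj
      · rw [if_neg hk0]
        have := h2 (k + i - 1) (by omega)
        rwa [show k + i - 1 + 1 = k + 1 + i - 1 by omega] at this
    · intro k hk
      dsimp only
      split_ifs with hk0
      · exact hwB
      · exact h3 _ (by omega)

end Pool.Agent.MP_8b3902_co
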