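import Pool.Agent.Lib.MP_8b3902_co.F.Defs
import Pool.Agent.Lib.MP_8b3902_co.F.Short

set_option autoImplicit false

namespace Pool.Agent.MP_8b3902_co

open Classical

variable {V : Type}

/-- F10. Chain lemma: a chain of connected sets hanging at the connected set `U` contains a leg with
`l` vertices. (`exists_short` from `U` to `Γ (l-1)` inside the union; drop the first vertex.) -/
theorem chain_path (G : SimpleGraph V) (l : ℕ) (hl : 2 ≤ l) (U : Set V) (Γ : ℕ → Set V)
    (hU : Cn G U) (hΓ : ∀ j < l, Cn G (Γ j)) (h0 : Touch G U (Γ 0))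
    (hstep : ∀ j, j + 1 < l → Touch G (Γ j) (Γ (j + 1)))
    (hU' : ∀ j < l, 0 < j → ¬ Touch G U (Γ j))
    (hfar : ∀ i < l, ∀ j < l, i + 1 < j → ¬ Touch G (Γ i) (Γ j)) :
    ∃ y : ℕ → V, (∀ i < l, y i ∉ U ∧ ∃ j < l, y i ∈ Γ j) ∧ (∃ u ∈ U, G.Adj u (y 0)) ∧
      (∀ i < l, 0 < i → ∀ u ∈ U, ¬ G.Adj u (y i)) ∧
      (∀ i < l, ∀ j < l,
        (G.Adj (y i) (y j) ↔ (i + 1 = j ∨ j + 1 = i)) ∧ (y i = y j → i = j)) := by
  obtain ⟨u, hu, v, hv, huv⟩ := h0
  set B : Set V := {x | x ∈ U ∨ ∃ j < l, x ∈ Γ j} with hB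
  have hUB : U ⊆ B := fun x hx => Or.inl hx
  have hΓB : ∀ j < l, Γ j ⊆ B := fun j hj x hx => Or.inr ⟨j, hj, hx⟩
  have hlink : ∀ x y : V, x ∈ B → y ∈ B → (x = y ∨ G.Adj x y) → Conn G B x y := by
    intro x y hx hy h
    rcases h with rfl | h
    · exact conn_refl hx
    · exact conn_adj hx hy h
  have hconn : ∀ j < l, ∀ x ∈ Γ j, Conn G B u x := by
    intro j
    induction j with
    | zero =>
      intro hj x hx
      exact conn_trans (hlink u v (hUB hu) (hΓB 0 hj hv) huv)
        (conn_mono (hΓB 0 hj) (hΓ 0 hj v hv x hx))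
    | succ j ih =>
      intro hj x hx
      obtain ⟨a, ha, b, hb, hab⟩ := hstep j hj
      exact conn_trans (ih (by omega) a ha) (conn_trans
        (hlink a b (hΓB j (by omega) ha) (hΓB (j + 1) hj hb) hab)
        (conn_mono (hΓB (j + 1) hj) (hΓ (j + 1) hj b hb x hx)))
  obtain ⟨a, -, w, hw, -⟩ := hstep (l - 2) (by omega)
  rw [show l - 2 + 1 = l - 1 by omega] at hw
  obtain ⟨n, f, f0, fn, fB, find, fU, fN⟩ := exists_short G B U (Γ (l - 1)) hu hw
    (hconn (l - 1) (by omega) w hw)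
  have hadj : ∀ i < n, G.Adj (f i) (f (i + 1)) := fun i hi =>
    (find i (by omega) (i + 1) (by omega)).1.2 (Or.inl rfl)
  have hidx : ∀ i, 0 < i → i ≤ n → ∀ j < l, f i ∈ Γ j → j + 1 ≤ i := by
    intro i
    induction i with
    | zero =>
      intro h
      omega
    | succ i ih =>
      intro _ hi j hj hfj
      rcases Nat.eq_zero_or_pos i with rfl | hi0
      · by_contra hcon
        exact hU' j hj (by omega) ⟨f 0, f0, f (0 + 1), hfj, Or.inr (hadj 0 (by omega))⟩
      · rcases fB i (by omega) with h | ⟨j', hj', hfj'⟩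
        · exact absurd h (fU i (by omega) hi0)
        · have h1 := ih hi0 (by omega) j' hj' hfj'
          by_contra hcon
          exact hfar j' hj' j hj (by omega) ⟨f i, hfj', f (i + 1), hfj, Or.inr (hadj i (by omega))⟩
  have hn0 : 0 < n := by
    rcases Nat.eq_zero_or_pos n with rfl | h
    · exact absurd ⟨f 0, f0, f 0, fn, Or.inl rfl⟩ (hU' (l - 1) (by omega) (by omega))
    · exact h
  have hln : l ≤ n := by
    have := hidx n hn0 le_rfl (l - 1) (by omega) fn
    omega
  refine ⟨fun i => f (i + 1), ?_, ?_, ?_, ?_⟩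
  · intro i hi
    have h1 := fU (i + 1) (by omega) (by omega)
    refine ⟨h1, ?_⟩
    rcases fB (i + 1) (by omega) with h | h
    · exact absurd h h1
    · exact h
  · exact ⟨f 0, f0, hadj 0 hn0⟩
  · intro i hi hi0 w hw
    exact fN (i + 1) (by omega) (by omega) w hw (hUB hw)
  · intro i hi j hj
    have h1 := find (i + 1) (by omega) (j + 1) (by omega)
    refine ⟨?_, ?_⟩
    · rw [h1.1]
      omega
    · intro h
      have := h1.2 h
      omega

end Pool.Agent.MP_8b3902_co
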