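import Pool.Agent.Lib.MP_8b3902_co.F.Defs

set_option autoImplicit false

namespace Pool.Agent.MP_8b3902_co

open Classical

variable {V : Type}

/-- `x 0, ..., x (t-1)` is an induced path. -/
def TP_Ind (G : SimpleGraph V) (t : ℕ) (x : ℕ → V) : Prop :=
  ∀ i < t, ∀ j < t, (G.Adj (x i) (x j) ↔ (i + 1 = j ∨ j + 1 = i)) ∧ (x i = x j → i = j)

theorem TP_spider_aux (G : SimpleGraph V) (t : ℕ) (c : V) (l : Fin 3 → ℕ → V)
    (hc : ∀ b, ∀ i < t, (G.Adj c (l b i) ↔ i = 0) ∧ c ≠ l b i)
    (hp : ∀ b, TP_Ind G t (l b))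
    (hn : ∀ b b', b ≠ b' → ∀ i < t, ∀ j < t, ¬ G.Adj (l b i) (l b' j) ∧ l b i ≠ l b' j) :
    Nonempty (spider t ↪g G) := by
  refine ⟨⟨⟨fun x => match x with
    | none => c
    | some p => l p.1 p.2.val, ?_⟩, ?_⟩⟩
  · intro x y hxy
    rcases x with _ | ⟨b, i⟩ <;> rcases y with _ | ⟨b', j⟩
    · rfl
    · exact absurd hxy (hc b' j.val j.isLt).2
    · exact absurd hxy.symm (hc b i.val i.isLt).2
    · dsimp only at hxy
      by_cases hb : b = b'
      · subst hb
        have := (hp b i.val i.isLt j.val j.isLt).2 hxy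
        rw [Fin.ext this]
      · exact absurd hxy (hn b b' hb i.val i.isLt j.val j.isLt).2
  · intro x y
    rcases x with _ | ⟨b, i⟩ <;> rcases y with _ | ⟨b', j⟩
    · simp [spider]
    · exact (hc b' j.val j.isLt).1
    · show G.Adj (l b i.val) c ↔ i.val = 0
      rw [G.adj_comm]
      exact (hc b i.val i.isLt).1
    · show G.Adj (l b i.val) (l b' j.val) ↔ b = b' ∧ (i.val + 1 = j.val ∨ j.val + 1 = i.val)
      by_cases hb : b = b'
      · subst hb
        rw [(hp b i.val i.isLt j.val j.isLt).1]
        simp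
      · constructor
        · intro h
          exact absurd h (hn b b' hb i.val i.isLt j.val j.isLt).1
        · intro h
          exact absurd h.1 hb

theorem TP_lspider_aux (G : SimpleGraph V) (t : ℕ) (l : Fin 3 → ℕ → V)
    (hp : ∀ b, TP_Ind G t (l b))
    (hn : ∀ b b', b ≠ b' → ∀ i < t, ∀ j < t,
      (G.Adj (l b i) (l b' j) ↔ i = 0 ∧ j = 0) ∧ l b i ≠ l b' j) :
    Nonempty (lspider t ↪g G) := by
  refine ⟨⟨⟨fun p => l p.1 p.2.val, ?_⟩, ?_⟩⟩
  · rintro ⟨b, i⟩ ⟨b', j⟩ hxy
    dsimp only at hxy
    by_cases hb : b = b'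
    · subst hb
      have := (hp b i.val i.isLt j.val j.isLt).2 hxy
      rw [Fin.ext this]
    · exact absurd hxy (hn b b' hb i.val i.isLt j.val j.isLt).2
  · rintro ⟨b, i⟩ ⟨b', j⟩
    show G.Adj (l b i.val) (l b' j.val) ↔
      (b = b' ∧ (i.val + 1 = j.val ∨ j.val + 1 = i.val)) ∨ (b ≠ b' ∧ i.val = 0 ∧ j.val = 0)
    by_cases hb : b = b'
    · subst hb
      rw [(hp b i.val i.isLt j.val j.isLt).1]
      simp
    · rw [(hn b b' hb i.val i.isLt j.val j.isLt).1]
      constructor
      · intro h
        exact Or.inr ⟨hb, h⟩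
      · rintro (h | h)
        · exact absurd h.1 hb
        · exact h.2

theorem TP_fin3 (P : Fin 3 → Fin 3 → Prop) (hs : ∀ b b', P b b' → P b' b)
    (h01 : P 0 1) (h02 : P 0 2) (h12 : P 1 2) : ∀ b b', b ≠ b' → P b b' := by
  intro b b' hb
  fin_cases b <;> fin_cases b'
  · exact absurd rfl hb
  · exact h01
  · exact h02
  · exact hs _ _ h01
  · exact absurd rfl hb
  · exact h12
  · exact hs _ _ h02
  · exact hs _ _ h12
  · exact absurd rfl hb

theorem TP_spider (G : SimpleGraph V) (t : ℕ) (c : V) (x y z : ℕ → V)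
    (hcx : ∀ i < t, (G.Adj c (x i) ↔ i = 0) ∧ c ≠ x i)
    (hcy : ∀ i < t, (G.Adj c (y i) ↔ i = 0) ∧ c ≠ y i)
    (hcz : ∀ i < t, (G.Adj c (z i) ↔ i = 0) ∧ c ≠ z i)
    (hx : TP_Ind G t x) (hy : TP_Ind G t y) (hz : TP_Ind G t z)
    (hxy : ∀ i < t, ∀ j < t, ¬ G.Adj (x i) (y j) ∧ x i ≠ y j)
    (hxz : ∀ i < t, ∀ j < t, ¬ G.Adj (x i) (z j) ∧ x i ≠ z j)
    (hyz : ∀ i < t, ∀ j < t, ¬ G.Adj (y i) (z j) ∧ y i ≠ z j) :
    Nonempty (spider t ↪g G) := by
  refine TP_spider_aux G t c ![x, y, z] ?_ ?_ ?_
  · intro b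
    fin_cases b
    · exact hcx
    · exact hcy
    · exact hcz
  · intro b
    fin_cases b
    · exact hx
    · exact hy
    · exact hz
  · refine TP_fin3 _ ?_ hxy hxz hyz
    intro b b' h i hi j hj
    exact ⟨fun h' => (h j hj i hi).1 h'.symm, fun h' => (h j hj i hi).2 h'.symm⟩

theorem TP_lspider (G : SimpleGraph V) (t : ℕ) (x y z : ℕ → V)
    (hx : TP_Ind G t x) (hy : TP_Ind G t y) (hz : TP_Ind G t z)
    (hxy : ∀ i < t, ∀ j < t, (G.Adj (x i) (y j) ↔ i = 0 ∧ j = 0) ∧ x i ≠ y j)
    (hxz : ∀ i < t, ∀ j < t, (G.Adj (x i) (z j) ↔ i = 0 ∧ j = 0) ∧ x i ≠ z j)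
    (hyz : ∀ i < t, ∀ j < t, (G.Adj (y i) (z j) ↔ i = 0 ∧ j = 0) ∧ y i ≠ z j) :
    Nonempty (lspider t ↪g G) := by
  refine TP_lspider_aux G t ![x, y, z] ?_ ?_
  · intro b
    fin_cases b
    · exact hx
    · exact hy
    · exact hz
  · refine TP_fin3 _ ?_ hxy hxz hyz
    intro b b' h i hi j hj
    refine ⟨?_, fun h' => (h j hj i hi).2 h'.symm⟩
    rw [G.adj_comm, (h j hj i hi).1, and_comm]

/-- F7. Two induced paths `r 0, ..., r (n-1)` and `z 0, ..., z m`, disjoint, the second one attached
to the first one only through `z 0`, far from the ends of `r`. With `a`, `b` the first and last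
neighbour of `z 0` on `r`: if `a = b` a spider with centre `r a`; if `b = a + 1` an lspider; otherwise
a spider with centre `z 0` and legs `r a, r (a-1), ..`, `r b, r (b+1), ..`, `z 1, z 2, ..`. -/
theorem tripod_of_two_paths (G : SimpleGraph V) (t n m : ℕ) (r z : ℕ → V)
    (hr : ∀ i < n, ∀ j < n, (G.Adj (r i) (r j) ↔ (i + 1 = j ∨ j + 1 = i)) ∧ (r i = r j → i = j))
    (hz : ∀ i ≤ m, ∀ j ≤ m, (G.Adj (z i) (z j) ↔ (i + 1 = j ∨ j + 1 = i)) ∧ (z i = z j → i = j))
    (hdis : ∀ i < n, ∀ j ≤ m, r i ≠ z j)
    (hanti : ∀ i < n, ∀ j ≤ m, 0 < j → ¬ G.Adj (r i) (z j))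
    (hnb : ∃ i < n, G.Adj (r i) (z 0))
    (hmid : ∀ i < n, G.Adj (r i) (z 0) → t ≤ i ∧ i + t < n)
    (hm : t ≤ m) : HasTripod G t := by
  -- first and last neighbours
  set S := (Finset.range n).filter (fun i => G.Adj (r i) (z 0)) with hS
  have hSne : S.Nonempty := by
    obtain ⟨i, hi, hi'⟩ := hnb
    exact ⟨i, by rw [hS, Finset.mem_filter, Finset.mem_range]; exact ⟨hi, hi'⟩⟩
  obtain ⟨a, haS, hamin⟩ : ∃ a ∈ S, ∀ i ∈ S, a ≤ i :=
    ⟨S.min' hSne, Finset.min'_mem _ _, fun i hi => Finset.min'_le _ _ hi⟩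
  obtain ⟨b, hbS, hbmax⟩ : ∃ b ∈ S, ∀ i ∈ S, i ≤ b :=
    ⟨S.max' hSne, Finset.max'_mem _ _, fun i hi => Finset.le_max' _ _ hi⟩
  have hmem : ∀ i, i ∈ S ↔ (i < n ∧ G.Adj (r i) (z 0)) := by
    intro i
    rw [hS, Finset.mem_filter, Finset.mem_range]
  have hab : a ≤ b := hamin b hbS
  obtain ⟨han, haz⟩ := (hmem a).1 haS
  obtain ⟨hbn, hbz⟩ := (hmem b).1 hbS
  obtain ⟨hat, hat'⟩ := hmid a han haz
  obtain ⟨hbt, hbt'⟩ := hmid b hbn hbz
  have hnadj : ∀ i < n, (i < a ∨ b < i) → ∀ j ≤ m, ¬ G.Adj (r i) (z j) := by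
    intro i hi hiab j hj hadj
    rcases Nat.eq_zero_or_pos j with h0 | h0
    · subst h0
      have hiS := (hmem i).2 ⟨hi, hadj⟩
      have h1 := hamin i hiS
      have h2 := hbmax i hiS
      omega
    · exact hanti i hi j hj h0 hadj
  -- induced subpaths of `r`
  have hdown : ∀ e, t ≤ e + 1 → e < n → TP_Ind G t (fun i => r (e - i)) := by
    intro e he hen i hi j hj
    have h := hr (e - i) (by omega) (e - j) (by omega)
    refine ⟨?_, fun h' => ?_⟩
    · rw [h.1]
      constructor
      · rintro (h1 | h1) <;> omega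
      · rintro (h1 | h1) <;> omega
    · have := h.2 h'
      omega
  have hup : ∀ e, e + t ≤ n → TP_Ind G t (fun i => r (e + i)) := by
    intro e he i hi j hj
    have h := hr (e + i) (by omega) (e + j) (by omega)
    refine ⟨?_, fun h' => ?_⟩
    · rw [h.1]
      constructor
      · rintro (h1 | h1) <;> omega
      · rintro (h1 | h1) <;> omega
    · have := h.2 h'
      omega
  have hzz : ∀ e, e + t ≤ m + 1 → TP_Ind G t (fun i => z (e + i)) := by
    intro e he i hi j hj
    have h := hz (e + i) (by omega) (e + j) (by omega)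
    refine ⟨?_, fun h' => ?_⟩
    · rw [h.1]
      constructor
      · rintro (h1 | h1) <;> omega
      · rintro (h1 | h1) <;> omega
    · have := h.2 h'
      omega
  rcases Nat.eq_zero_or_pos t with ht0 | htpos
  · subst ht0
    left
    exact TP_spider G 0 (z 0) z z z (fun i hi => absurd hi (Nat.not_lt_zero i))
      (fun i hi => absurd hi (Nat.not_lt_zero i)) (fun i hi => absurd hi (Nat.not_lt_zero i))
      (fun i hi => absurd hi (Nat.not_lt_zero i)) (fun i hi => absurd hi (Nat.not_lt_zero i))
      (fun i hi => absurd hi (Nat.not_lt_zero i)) (fun i hi => absurd hi (Nat.not_lt_zero i))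
      (fun i hi => absurd hi (Nat.not_lt_zero i)) (fun i hi => absurd hi (Nat.not_lt_zero i))
  rcases Nat.lt_or_ge b (a + 1) with hb1 | hb1
  · -- case a = b
    obtain rfl : a = b := by omega
    left
    refine TP_spider G t (r a) (fun i => r (a - 1 - i)) (fun i => r (a + 1 + i))
      (fun i => z (0 + i)) ?_ ?_ ?_ (hdown (a - 1) (by omega) (by omega)) (hup (a + 1) (by omega))
      (hzz 0 (by omega)) ?_ ?_ ?_
    · intro i hi
      have h := hr a han (a - 1 - i) (by omega)
      refine ⟨?_, fun h' => ?_⟩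
      · rw [h.1]
        constructor
        · rintro (h1 | h1) <;> omega
        · intro h1
          right
          omega
      · have := h.2 h'
        omega
    · intro i hi
      have h := hr a han (a + 1 + i) (by omega)
      refine ⟨?_, fun h' => ?_⟩
      · rw [h.1]
        constructor
        · rintro (h1 | h1) <;> omega
        · intro h1
          left
          omega
      · have := h.2 h'
        omega
    · intro i hi
      refine ⟨?_, ?_⟩
      · rw [Nat.zero_add]
        constructor
        · intro h1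
          by_contra h2
          exact hanti a han i (by omega) (by omega) h1
        · intro h1
          rw [h1]
          exact haz
      · exact hdis a han (0 + i) (by omega)
    · intro i hi j hj
      have h := hr (a - 1 - i) (by omega) (a + 1 + j) (by omega)
      refine ⟨?_, fun h' => ?_⟩
      · rw [h.1]
        omega
      · have := h.2 h'
        omega
    · intro i hi j hj
      exact ⟨hnadj _ (by omega) (by omega) _ (by omega), hdis _ (by omega) _ (by omega)⟩
    · intro i hi j hj
      exact ⟨hnadj _ (by omega) (by omega) _ (by omega), hdis _ (by omega) _ (by omega)⟩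
  · rcases Nat.lt_or_ge b (a + 2) with hb2 | hb2
    · -- case b = a + 1
      obtain rfl : b = a + 1 := by omega
      right
      refine TP_lspider G t (fun i => r (a - i)) (fun i => r (a + 1 + i)) (fun i => z (0 + i))
        (hdown a (by omega) (by omega)) (hup (a + 1) (by omega)) (hzz 0 (by omega)) ?_ ?_ ?_
      · intro i hi j hj
        have h := hr (a - i) (by omega) (a + 1 + j) (by omega)
        refine ⟨?_, fun h' => ?_⟩
        · rw [h.1]
          constructor
          · rintro (h1 | h1) <;> omega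
          · rintro ⟨h1, h2⟩
            left
            omega
        · have := h.2 h'
          omega
      · intro i hi j hj
        refine ⟨?_, hdis _ (by omega) _ (by omega)⟩
        rw [Nat.zero_add]
        constructor
        · intro h1
          by_contra h2
          by_cases hj0 : j = 0
          · exact hnadj (a - i) (by omega) (by omega) j (by omega) h1
          · exact hanti (a - i) (by omega) j (by omega) (by omega) h1
        · rintro ⟨rfl, rfl⟩
          exact haz
      · intro i hi j hj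
        refine ⟨?_, hdis _ (by omega) _ (by omega)⟩
        rw [Nat.zero_add]
        constructor
        · intro h1
          by_contra h2
          by_cases hj0 : j = 0
          · exact hnadj (a + 1 + i) (by omega) (by omega) j (by omega) h1
          · exact hanti (a + 1 + i) (by omega) j (by omega) (by omega) h1
        · rintro ⟨rfl, rfl⟩
          exact hbz
    · -- case b ≥ a + 2
      left
      refine TP_spider G t (z 0) (fun i => r (a - i)) (fun i => r (b + i))
        (fun i => z (1 + i)) ?_ ?_ ?_ (hdown a (by omega) (by omega)) (hup b (by omega))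
        (hzz 1 (by omega)) ?_ ?_ ?_
      · intro i hi
        refine ⟨?_, (hdis _ (by omega) _ (by omega)).symm⟩
        rw [G.adj_comm]
        constructor
        · intro h1
          by_contra h2
          exact hnadj (a - i) (by omega) (by omega) 0 (by omega) h1
        · rintro rfl
          exact haz
      · intro i hi
        refine ⟨?_, (hdis _ (by omega) _ (by omega)).symm⟩
        rw [G.adj_comm]
        constructor
        · intro h1
          by_contra h2
          exact hnadj (b + i) (by omega) (by omega) 0 (by omega) h1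
        · rintro rfl
          exact hbz
      · intro i hi
        have h := hz 0 (by omega) (1 + i) (by omega)
        refine ⟨?_, fun h' => ?_⟩
        · rw [h.1]
          constructor
          · rintro (h1 | h1) <;> omega
          · intro h1
            left
            omega
        · have := h.2 h'
          omega
      · intro i hi j hj
        have h := hr (a - i) (by omega) (b + j) (by omega)
        refine ⟨?_, fun h' => ?_⟩
        · rw [h.1]
          omega
        · have := h.2 h'
          omega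
      · intro i hi j hj
        exact ⟨hanti _ (by omega) _ (by omega) (by omega), hdis _ (by omega) _ (by omega)⟩
      · intro i hi j hj
        exact ⟨hanti _ (by omega) _ (by omega) (by omega), hdis _ (by omega) _ (by omega)⟩

end Pool.Agent.MP_8b3902_co
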