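import Pool.Agent.Lib.MP_8b3902_co.F.Defs
import Pool.Agent.Lib.MP_8b3902_co.F.TwoPaths
import Pool.Agent.Lib.MP_8b3902_co.F.Short
import Pool.Agent.Lib.MP_8b3902_co.Path

set_option autoImplicit false

namespace Pool.Agent.MP_8b3902_co

open Classical

variable {V : Type}

/-- induced path with `n` vertices, given by a function on `ℕ` -/
private def IP (G : SimpleGraph V) (n : ℕ) (r : ℕ → V) : Prop :=
  ∀ i < n, ∀ j < n, (G.Adj (r i) (r j) ↔ (i + 1 = j ∨ j + 1 = i)) ∧ (r i = r j → i = j)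

private theorem IP.glue {G : SimpleGraph V} {m n : ℕ} {a b : ℕ → V} (ha : IP G m a)
    (hb : IP G n b)
    (hab : ∀ i < m, ∀ j < n, (G.Adj (a i) (b j) ↔ (i + 1 = m ∧ j = 0)) ∧ a i ≠ b j) :
    IP G (m + n) (fun i => if i < m then a i else b (i - m)) := by
  intro i hi j hj
  dsimp only
  by_cases him : i < m
  · rw [if_pos him]
    by_cases hjm : j < m
    · rw [if_pos hjm]
      exact ha i him j hjm
    · rw [if_neg hjm]
      obtain ⟨h1, h2⟩ := hab i him (j - m) (by omega)
      refine ⟨?_, fun h => absurd h h2⟩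
      rw [h1]
      omega
  · rw [if_neg him]
    by_cases hjm : j < m
    · rw [if_pos hjm]
      obtain ⟨h1, h2⟩ := hab j hjm (i - m) (by omega)
      refine ⟨?_, fun h => absurd h.symm h2⟩
      rw [G.adj_comm, h1]
      omega
    · rw [if_neg hjm]
      obtain ⟨h1, h2⟩ := hb (i - m) (by omega) (j - m) (by omega)
      refine ⟨?_, fun h => ?_⟩
      · rw [h1]
        omega
      · have := h2 h
        omega

/-- F8. A connected set `U` and three pairwise anticomplete induced paths (legs)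
`y b 0, ..., y b t` outside `U`, attached to `U` exactly at `y b 0`.
Proof: induced path `p` from `y 0 0` to `y 1 0` with interior in `U` (`exists_indPath` in Path.lean,
inside `U ∪ {y 0 0, y 1 0}`), extended at both ends by the legs; then a shortest path from `y 2 0`
inside `U ∪ {y 2 0}` to a vertex with a neighbour on `p`; use `tripod_of_two_paths`. -/
theorem tripod_of_star (G : SimpleGraph V) (t : ℕ) (U : Set V) (hU : Cn G U) (y : Fin 3 → ℕ → V)
    (hyU : ∀ b, ∀ i ≤ t, y b i ∉ U)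
    (h0 : ∀ b, ∃ u ∈ U, G.Adj u (y b 0))
    (h1 : ∀ b, ∀ i ≤ t, 0 < i → ∀ u ∈ U, ¬ G.Adj u (y b i))
    (hy : ∀ b, ∀ i ≤ t, ∀ j ≤ t,
      (G.Adj (y b i) (y b j) ↔ (i + 1 = j ∨ j + 1 = i)) ∧ (y b i = y b j → i = j))
    (hyy : ∀ b b', b ≠ b' → ∀ i ≤ t, ∀ j ≤ t, y b i ≠ y b' j ∧ ¬ G.Adj (y b i) (y b' j)) :
    HasTripod G t := by
  have h01 : (0 : Fin 3) ≠ 1 := by decide
  have h02 : (0 : Fin 3) ≠ 2 := by decide
  have h12 : (1 : Fin 3) ≠ 2 := by decide
  -- the path `P` from `y 0 0` to `y 1 0`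
  obtain ⟨u₀, hu₀, a₀⟩ := h0 0
  obtain ⟨u₁, hu₁, a₁⟩ := h0 1
  obtain ⟨u₂, hu₂, a₂⟩ := h0 2
  set B₁ : Set V := {x | x ∈ U ∨ x = y 0 0 ∨ x = y 1 0} with hB₁
  have hUB₁ : U ⊆ B₁ := fun x hx => Or.inl hx
  have c₁ : Conn G B₁ (y 0 0) (y 1 0) :=
    conn_trans (conn_adj (Or.inr (Or.inl rfl)) (hUB₁ hu₀) a₀.symm)
      (conn_trans (conn_mono hUB₁ (hU u₀ hu₀ u₁ hu₁))
        (conn_adj (hUB₁ hu₁) (Or.inr (Or.inr rfl)) a₁))
  obtain ⟨N, P, P0, PN, PB, Pind, -, -⟩ := exists_short G B₁ {y 0 0} {y 1 0}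
    (Set.mem_singleton _) (Set.mem_singleton _) c₁
  rw [Set.mem_singleton_iff] at P0 PN
  have hN : 2 ≤ N := by
    by_contra hcon
    have hN' : N = 0 ∨ N = 1 := by omega
    rcases hN' with rfl | rfl
    · exact (hyy 0 1 h01 0 (by omega) 0 (by omega)).1 (P0.symm.trans PN)
    · have h2 := (Pind 0 (by omega) 1 le_rfl).1.2 (Or.inl rfl)
      rw [P0, PN] at h2
      exact (hyy 0 1 h01 0 (by omega) 0 (by omega)).2 h2
  have PU : ∀ k, 0 < k → k < N → P k ∈ U := by
    intro k hk0 hkN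
    rcases PB k hkN.le with h | h | h
    · exact h
    · have := (Pind k hkN.le 0 (by omega)).2 (h.trans P0.symm)
      omega
    · have := (Pind k hkN.le N le_rfl).2 (h.trans PN.symm)
      omega
  -- `P k` compared with the vertices of the legs
  have hPleg : ∀ k ≤ N, ∀ b, ∀ i ≤ t, 0 < i → (b = 0 → k ≠ 0) → (b = 1 → k ≠ N) →
      P k ≠ y b i ∧ ¬ G.Adj (P k) (y b i) := by
    intro k hk b i hi hi0 hb0 hb1
    rcases Nat.eq_zero_or_pos k with rfl | hk0
    · rw [P0]
      have hb : (0 : Fin 3) ≠ b := fun h => hb0 h.symm rfl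
      exact hyy 0 b hb 0 (by omega) i hi
    · rcases hk.lt_or_eq with hkN | rfl
      · have h2 := PU k hk0 hkN
        exact ⟨fun h => hyU b i hi (h ▸ h2), h1 b i hi hi0 _ h2⟩
      · rw [PN]
        have hb : (1 : Fin 3) ≠ b := fun h => hb1 h.symm rfl
        exact hyy 1 b hb 0 (by omega) i hi
  have hP20 : ∀ k ≤ N, P k ≠ y 2 0 := by
    intro k hk h
    rcases PB k hk with h2 | h2 | h2
    · exact hyU 2 0 (by omega) (h ▸ h2)
    · exact (hyy 0 2 h02 0 (by omega) 0 (by omega)).1 (h2.symm.trans h)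
    · exact (hyy 1 2 h12 0 (by omega) 0 (by omega)).1 (h2.symm.trans h)
  -- the path `r`
  have ipA : IP G t (fun i => y 0 (t - i)) := by
    intro i hi j hj
    obtain ⟨e1, e2⟩ := hy 0 (t - i) (by omega) (t - j) (by omega)
    dsimp only
    refine ⟨?_, fun h => ?_⟩
    · rw [e1]
      omega
    · have := e2 h
      omega
  have ipP : IP G (N + 1) P := fun i hi j hj => Pind i (by omega) j (by omega)
  have ipC : ∀ b, IP G t (fun i => y b (i + 1)) := by
    intro b i hi j hj
    obtain ⟨e1, e2⟩ := hy b (i + 1) (by omega) (j + 1) (by omega)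
    dsimp only
    refine ⟨?_, fun h => ?_⟩
    · rw [e1]
      omega
    · have := e2 h
      omega
  have ipAP := ipA.glue ipP (by
    intro i hi j hj
    rcases Nat.eq_zero_or_pos j with rfl | hj0
    · rw [P0]
      obtain ⟨e1, e2⟩ := hy 0 (t - i) (by omega) 0 (by omega)
      refine ⟨?_, fun h => ?_⟩
      · rw [e1]
        omega
      · have := e2 h
        omega
    · obtain ⟨e1, e2⟩ := hPleg j (by omega) 0 (t - i) (by omega) (by omega) (fun _ => by omega)
        (fun h => absurd h h01)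
      refine ⟨⟨fun h => absurd h.symm e2, fun h => by omega⟩, fun h => e1 h.symm⟩)
  have ipR := ipAP.glue (ipC 1) (by
    intro i hi j hj
    by_cases hit : i < t
    · rw [if_pos hit]
      obtain ⟨e1, e2⟩ := hyy 0 1 h01 (t - i) (by omega) (j + 1) (by omega)
      exact ⟨⟨fun h => absurd h e2, fun h => by omega⟩, e1⟩
    · rw [if_neg hit]
      by_cases hiN : i - t = N
      · rw [hiN, PN]
        obtain ⟨e1, e2⟩ := hy 1 0 (by omega) (j + 1) (by omega)
        refine ⟨?_, fun h => ?_⟩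
        · rw [e1]
          omega
        · have := e2 h
          omega
      · obtain ⟨e1, e2⟩ := hPleg (i - t) (by omega) 1 (j + 1) (by omega) (by omega)
          (fun h => absurd h h01.symm) (fun _ => hiN)
        exact ⟨⟨fun h => absurd h e2, fun h => by omega⟩, e1⟩)
  -- the path from `P` to `y 2 0`
  set T : Set V := {x | ∃ k ≤ N, G.Adj (P k) x ∨ P k = x} with hT
  set B₂ : Set V := {x | x ∈ U ∨ x = y 2 0} with hB₂
  have hUB₂ : U ⊆ B₂ := fun x hx => Or.inl hx
  have hP1 : P 1 ∈ U := PU 1 (by omega) (by omega)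
  have c₂ : Conn G B₂ (P 1) (y 2 0) :=
    conn_trans (conn_mono hUB₂ (hU _ hP1 u₂ hu₂)) (conn_adj (hUB₂ hu₂) (Or.inr rfl) a₂)
  obtain ⟨q, f, f0, fq, fB, find, fT, -⟩ := exists_short G B₂ T {y 2 0}
    (⟨1, by omega, Or.inr rfl⟩ : P 1 ∈ T) (Set.mem_singleton _) c₂
  rw [Set.mem_singleton_iff] at fq
  have hfU : ∀ i, i < q → f i ∈ U := by
    intro i hi
    rcases fB i hi.le with h | h
    · exact h
    · have := (find i hi.le q le_rfl).2 (h.trans fq.symm)
      omega
  have hf0P : ∀ k ≤ N, P k ≠ f 0 := by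
    intro k hk h
    rcases Nat.eq_zero_or_pos q with rfl | hq
    · exact hP20 k hk (h.trans fq)
    · refine fT 1 hq (by omega) ⟨k, hk, Or.inl ?_⟩
      rw [h]
      exact (find 0 (by omega) 1 hq).1.2 (Or.inl rfl)
  -- `f i` compared with the legs 0 and 1
  have hfleg : ∀ i ≤ q, ∀ b, b ≠ 2 → ∀ j ≤ t, 0 < j → y b j ≠ f i ∧ ¬ G.Adj (y b j) (f i) := by
    intro i hi b hb j hj hj0
    rcases fB i hi with h | h
    · exact ⟨fun h' => hyU b j hj (h' ▸ h), fun h' => h1 b j hj hj0 _ h h'.symm⟩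
    · rw [h]
      exact hyy b 2 hb j hj 0 (by omega)
  have ipF : IP G (q + 1) f := fun i hi j hj => find i (by omega) j (by omega)
  have ipZ := ipF.glue (ipC 2) (by
    intro i hi j hj
    by_cases hiq : i = q
    · rw [hiq, fq]
      obtain ⟨e1, e2⟩ := hy 2 0 (by omega) (j + 1) (by omega)
      refine ⟨?_, fun h => ?_⟩
      · rw [e1]
        omega
      · have := e2 h
        omega
    · have h2 := hfU i (by omega)
      exact ⟨⟨fun h => absurd h (h1 2 (j + 1) (by omega) (by omega) _ h2), fun h => by omega⟩,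
        fun h => hyU 2 (j + 1) (by omega) (h ▸ h2)⟩)
  -- description of the vertices of `r`
  set r : ℕ → V := fun i => if i < t + (N + 1) then
    (fun i => if i < t then y 0 (t - i) else P (i - t)) i else y 1 (i - (t + (N + 1)) + 1) with hr
  set z : ℕ → V := fun i => if i < q + 1 then f i else y 2 (i - (q + 1) + 1) with hz
  have rcase : ∀ i < t + (N + 1) + t, (i < t ∧ ∃ j ≤ t, 0 < j ∧ r i = y 0 j) ∨
      (t ≤ i ∧ i ≤ t + N ∧ ∃ k ≤ N, r i = P k) ∨
      (t + N < i ∧ ∃ j ≤ t, 0 < j ∧ r i = y 1 j) := by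
    intro i hi
    simp only [hr]
    by_cases e1 : i < t
    · left
      refine ⟨e1, t - i, by omega, by omega, ?_⟩
      rw [if_pos (by omega), if_pos e1]
    · by_cases e2 : i < t + (N + 1)
      · right
        left
        refine ⟨by omega, by omega, i - t, by omega, ?_⟩
        rw [if_pos e2, if_neg e1]
      · right
        right
        refine ⟨by omega, i - (t + (N + 1)) + 1, by omega, by omega, ?_⟩
        rw [if_neg e2]
  have zcase : ∀ j ≤ q + t, (j ≤ q ∧ z j = f j) ∨ (q < j ∧ ∃ i ≤ t, 0 < i ∧ z j = y 2 i) := by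
    intro j hj
    simp only [hz]
    by_cases e : j ≤ q
    · left
      exact ⟨e, by rw [if_pos (by omega)]⟩
    · right
      refine ⟨by omega, j - (q + 1) + 1, by omega, by omega, ?_⟩
      rw [if_neg (by omega)]
  have hz0 : z 0 = f 0 := by
    simp only [hz]
    rw [if_pos (by omega)]
  refine tripod_of_two_paths G t (t + (N + 1) + t) (q + t) r z ipR ?_ ?_ ?_ ?_ ?_ (by omega)
  · intro i hi j hj
    exact ipZ i (by omega) j (by omega)
  · intro i hi j hj
    rcases rcase i hi with ⟨-, a, ha, ha0, e⟩ | ⟨-, -, k, hk, e⟩ | ⟨-, a, ha, ha0, e⟩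
    · rw [e]
      rcases zcase j hj with ⟨hjq, e'⟩ | ⟨-, c, hc, hc0, e'⟩
      · rw [e']
        exact (hfleg j hjq 0 h02 a ha ha0).1
      · rw [e']
        exact (hyy 0 2 h02 a ha c hc).1
    · rw [e]
      rcases zcase j hj with ⟨hjq, e'⟩ | ⟨-, c, hc, hc0, e'⟩
      · rw [e']
        rcases Nat.eq_zero_or_pos j with rfl | hj0
        · exact hf0P k hk
        · intro h
          exact fT j hjq hj0 ⟨k, hk, Or.inr h⟩
      · rw [e']
        exact (hPleg k hk 2 c hc hc0 (fun h => absurd h h02.symm) (fun h => absurd h h12.symm)).1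
    · rw [e]
      rcases zcase j hj with ⟨hjq, e'⟩ | ⟨-, c, hc, hc0, e'⟩
      · rw [e']
        exact (hfleg j hjq 1 h12 a ha ha0).1
      · rw [e']
        exact (hyy 1 2 h12 a ha c hc).1
  · intro i hi j hj hj0
    rcases rcase i hi with ⟨-, a, ha, ha0, e⟩ | ⟨-, -, k, hk, e⟩ | ⟨-, a, ha, ha0, e⟩
    · rw [e]
      rcases zcase j hj with ⟨hjq, e'⟩ | ⟨-, c, hc, hc0, e'⟩
      · rw [e']
        exact (hfleg j hjq 0 h02 a ha ha0).2
      · rw [e']
        exact (hyy 0 2 h02 a ha c hc).2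
    · rw [e]
      rcases zcase j hj with ⟨hjq, e'⟩ | ⟨-, c, hc, hc0, e'⟩
      · rw [e']
        intro h
        exact fT j hjq hj0 ⟨k, hk, Or.inl h⟩
      · rw [e']
        exact (hPleg k hk 2 c hc hc0 (fun h => absurd h h02.symm) (fun h => absurd h h12.symm)).2
    · rw [e]
      rcases zcase j hj with ⟨hjq, e'⟩ | ⟨-, c, hc, hc0, e'⟩
      · rw [e']
        exact (hfleg j hjq 1 h12 a ha ha0).2
      · rw [e']
        exact (hyy 1 2 h12 a ha c hc).2
  · obtain ⟨k, hk, h⟩ := f0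
    rcases h with h | h
    · refine ⟨t + k, by omega, ?_⟩
      have e : r (t + k) = P k := by
        simp only [hr]
        rw [if_pos (by omega), if_neg (by omega), show t + k - t = k by omega]
      rw [e, hz0]
      exact h
    · exact absurd h (hf0P k hk)
  · intro i hi h
    rw [hz0] at h
    rcases rcase i hi with ⟨-, a, ha, ha0, e⟩ | ⟨e1, e2, -⟩ | ⟨-, a, ha, ha0, e⟩
    · rw [e] at h
      exact absurd h (hfleg 0 (by omega) 0 h02 a ha ha0).2
    · omega
    · rw [e] at h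
      exact absurd h (hfleg 0 (by omega) 1 h12 a ha ha0).2

end Pool.Agent.MP_8b3902_co
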