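import Pool.Agent.Lib.MP_8b3902_co.F.Defs
import Pool.Agent.Lib.MP_8b3902_co.F.Star
import Pool.Agent.Lib.MP_8b3902_co.F.Chain

set_option autoImplicit false

namespace Pool.Agent.MP_8b3902_co

open Classical

variable {V : Type}

/-- A union of connected sets with a common point is connected. -/
private theorem cn_iUnion_blobs (G : SimpleGraph V) {ι : Type} (S : ι → Set V) (p : V)
    (hS : ∀ i, Cn G (S i)) (hp : ∀ i, p ∈ S i) : Cn G {v | ∃ i, v ∈ S i} := by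
  rintro u ⟨i, hu⟩ v ⟨j, hv⟩
  have hi : S i ⊆ {v | ∃ i, v ∈ S i} := fun w hw => ⟨i, hw⟩
  have hj : S j ⊆ {v | ∃ i, v ∈ S i} := fun w hw => ⟨j, hw⟩
  exact conn_trans (conn_mono hi (hS i u hu p (hp i))) (conn_mono hj (hS j p (hp j) v hv))

/-- F12. Blobs along a spider pattern give a tripod. `U = ⋃ b, F (lab b 0) r` and
`Γ b j = F (lab b j) (q b j) ∪ F (lab b (j + 1)) (q b j)` (only the first set for `j = t`);
`chain_path` with `l = t + 1` for each `b`, then `tripod_of_star`. -/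
theorem tripod_of_blobs (G : SimpleGraph V) (t : ℕ) (ht : 0 < t) {K Λ : Type}
    (F : Λ → K → Set V) (x : K → V) (c : Λ → K → V) (hx : ∀ k i, x i ∈ F k i)
    (hc : ∀ k i, c k i ∈ F k i) (hF : ∀ k i, Cn G (F k i))
    (hfar : ∀ k l, k ≠ l → ∀ i j, i ≠ j → ¬ Touch G (F k i) (F l j))
    (lab : Fin 3 → ℕ → Λ)
    (hlab : ∀ b b', ∀ i < t + 1, ∀ i' < t + 1, lab b i = lab b' i' → b = b' ∧ i = i')
    (r : K) (q : Fin 3 → ℕ → K) (hqr : ∀ b, ∀ i < t + 1, q b i ≠ r)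
    (hqq : ∀ b b', ∀ i < t + 1, ∀ i' < t + 1, q b i = q b' i' → b = b' ∧ i = i')
    (hq0 : ∀ b, c (lab b 0) r = c (lab b 0) (q b 0) ∨ G.Adj (c (lab b 0) r) (c (lab b 0) (q b 0)))
    (hq : ∀ b i, i + 1 < t + 1 → c (lab b (i + 1)) (q b i) = c (lab b (i + 1)) (q b (i + 1)) ∨
      G.Adj (c (lab b (i + 1)) (q b i)) (c (lab b (i + 1)) (q b (i + 1)))) :
    HasTripod G t := by
  set U : Set V := {v | ∃ b : Fin 3, v ∈ F (lab b 0) r} with hUdef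
  set Γ : Fin 3 → ℕ → Set V := fun b j =>
    {v | ∃ m : {m : ℕ // m < t + 1 ∧ (m = j ∨ m = j + 1)}, v ∈ F (lab b m.1) (q b j)} with hΓdef
  have hUcn : Cn G U := cn_iUnion_blobs G (fun b : Fin 3 => F (lab b 0) r) (x r)
    (fun b => hF _ _) (fun b => hx _ _)
  have hΓcn : ∀ b j, Cn G (Γ b j) := fun b j => cn_iUnion_blobs G
    (fun m : {m : ℕ // m < t + 1 ∧ (m = j ∨ m = j + 1)} => F (lab b m.1) (q b j)) (x (q b j))
    (fun m => hF _ _) (fun m => hx _ _)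
  have hUΓ : ∀ b, ∀ j < t + 1, 0 < j → ¬ Touch G U (Γ b j) := by
    rintro b j hj hj0 ⟨u, ⟨b', hu⟩, v, ⟨m, hv⟩, huv⟩
    refine hfar (lab b' 0) (lab b m.1) ?_ r (q b j) (Ne.symm (hqr b j hj)) ⟨u, hu, v, hv, huv⟩
    intro h
    have h1 := (hlab b' b 0 (by omega) m.1 m.2.1 h).2
    have h2 := m.2.2
    omega
  have hΓΓ : ∀ b, ∀ i < t + 1, ∀ j < t + 1, i + 1 < j → ¬ Touch G (Γ b i) (Γ b j) := by
    rintro b i hi j hj hij ⟨u, ⟨m, hu⟩, v, ⟨m', hv⟩, huv⟩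
    refine hfar (lab b m.1) (lab b m'.1) ?_ (q b i) (q b j) ?_ ⟨u, hu, v, hv, huv⟩
    · intro h
      have h1 := (hlab b b m.1 m.2.1 m'.1 m'.2.1 h).2
      have h2 := m.2.2
      have h3 := m'.2.2
      omega
    · intro h
      have h1 := (hqq b b i hi j hj h).2
      omega
  have hΓ3 : ∀ b b', b ≠ b' → ∀ i < t + 1, ∀ j < t + 1, ¬ Touch G (Γ b i) (Γ b' j) := by
    rintro b b' hb i hi j hj ⟨u, ⟨m, hu⟩, v, ⟨m', hv⟩, huv⟩
    refine hfar (lab b m.1) (lab b' m'.1) ?_ (q b i) (q b' j) ?_ ⟨u, hu, v, hv, huv⟩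
    · intro h
      exact hb (hlab b b' m.1 m.2.1 m'.1 m'.2.1 h).1
    · intro h
      exact hb (hqq b b' i hi j hj h).1
  have h0 : ∀ b, Touch G U (Γ b 0) := fun b =>
    ⟨c (lab b 0) r, ⟨b, hc _ _⟩, c (lab b 0) (q b 0),
      ⟨⟨0, by omega, Or.inl rfl⟩, hc _ _⟩, hq0 b⟩
  have hstep : ∀ b j, j + 1 < t + 1 → Touch G (Γ b j) (Γ b (j + 1)) := fun b j hj =>
    ⟨c (lab b (j + 1)) (q b j), ⟨⟨j + 1, hj, Or.inr rfl⟩, hc _ _⟩,
      c (lab b (j + 1)) (q b (j + 1)), ⟨⟨j + 1, hj, Or.inl rfl⟩, hc _ _⟩, hq b j hj⟩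
  have hchain : ∀ b, ∃ y : ℕ → V, (∀ i < t + 1, y i ∉ U ∧ ∃ j < t + 1, y i ∈ Γ b j) ∧
      (∃ u ∈ U, G.Adj u (y 0)) ∧ (∀ i < t + 1, 0 < i → ∀ u ∈ U, ¬ G.Adj u (y i)) ∧
      (∀ i < t + 1, ∀ j < t + 1,
        (G.Adj (y i) (y j) ↔ (i + 1 = j ∨ j + 1 = i)) ∧ (y i = y j → i = j)) := fun b =>
    chain_path G (t + 1) (by omega) U (Γ b) hUcn (fun j _ => hΓcn b j) (h0 b) (hstep b)
      (hUΓ b) (hΓΓ b)
  choose y hy1 hy2 hy3 hy4 using hchain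
  refine tripod_of_star G t U hUcn y (fun b i hi => (hy1 b i (by omega)).1) hy2
    (fun b i hi => hy3 b i (by omega))
    (fun b i hi j hj => hy4 b i (by omega) j (by omega)) ?_
  intro b b' hb i hi j hj
  obtain ⟨-, i', hi', hi''⟩ := hy1 b i (by omega)
  obtain ⟨-, j', hj', hj''⟩ := hy1 b' j (by omega)
  have hn := hΓ3 b b' hb i' hi' j' hj'
  exact ⟨fun h => hn ⟨_, hi'', _, hj'', Or.inl h⟩, fun h => hn ⟨_, hi'', _, hj'', Or.inr h⟩⟩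

end Pool.Agent.MP_8b3902_co
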