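import Pool.Agent.Lib.MP_8b3902_co.Basic

set_option autoImplicit false

/-!
Definitions for the full answer to MP_8b3902_co (helper49).
Paper proof: /team-store/MP_8b3902_co_blueprint_full.md
-/

namespace Pool.Agent.MP_8b3902_co

open Classical

variable {V : Type}

/-- The sets `S` and `T` touch: they share a vertex or there is an edge between them. -/
def Touch (G : SimpleGraph V) (S T : Set V) : Prop := ∃ u ∈ S, ∃ v ∈ T, u = v ∨ G.Adj u v

/-- `S` is connected (the empty set is allowed). -/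
def Cn (G : SimpleGraph V) (S : Set V) : Prop := ∀ u ∈ S, ∀ v ∈ S, Conn G S u v

/-- `x` is at distance at most `n` from `X` inside `B`: a sequence of at most `n + 1` vertices of `B`
from a vertex of `X` to `x`. -/
def Near (G : SimpleGraph V) (B X : Set V) (n : ℕ) (x : V) : Prop :=
  ∃ (k : ℕ) (f : ℕ → V), k ≤ n ∧ f 0 ∈ X ∧ f k = x ∧ (∀ i < k, G.Adj (f i) (f (i + 1))) ∧
    ∀ i ≤ k, f i ∈ B

/-- The claw with centre `none` and three legs `(b, 0), ..., (b, t - 1)`. -/
def spider (t : ℕ) : SimpleGraph (Option (Fin 3 × Fin t)) where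
  Adj x y :=
    match x, y with
    | none, none => False
    | none, some q => q.2.val = 0
    | some p, none => p.2.val = 0
    | some p, some q => p.1 = q.1 ∧ (p.2.val + 1 = q.2.val ∨ q.2.val + 1 = p.2.val)
  symm := by
    refine ⟨fun x y h => ?_⟩
    rcases x with _ | p <;> rcases y with _ | q <;> simp_all
    rcases h.2 with h | h
    · exact Or.inr h
    · exact Or.inl h
  loopless := by
    refine ⟨fun x h => ?_⟩
    rcases x with _ | p <;> simp_all

/-- The line-graph version: three paths `(b, 0), ..., (b, t - 1)` whose first vertices form a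
triangle. -/
def lspider (t : ℕ) : SimpleGraph (Fin 3 × Fin t) where
  Adj p q := (p.1 = q.1 ∧ (p.2.val + 1 = q.2.val ∨ q.2.val + 1 = p.2.val)) ∨
    (p.1 ≠ q.1 ∧ p.2.val = 0 ∧ q.2.val = 0)
  symm := by
    refine ⟨fun x y h => ?_⟩
    rcases h with ⟨h1, h2⟩ | ⟨h1, h2, h3⟩
    · exact Or.inl ⟨h1.symm, h2.symm⟩
    · exact Or.inr ⟨fun h => h1 h.symm, h3, h2⟩
  loopless := by
    refine ⟨fun x h => ?_⟩
    rcases h with ⟨_, h2⟩ | ⟨h1, _⟩
    · omega
    · exact h1 rfl

/-- `G` has an induced `spider t` or an induced `lspider t`. -/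
def HasTripod (G : SimpleGraph V) (t : ℕ) : Prop :=
  Nonempty (spider t ↪g G) ∨ Nonempty (lspider t ↪g G)

/-- `m` disjoint copies of `H`. -/
def copies {W : Type} (m : ℕ) (H : SimpleGraph W) : SimpleGraph (Fin m × W) where
  Adj x y := x.1 = y.1 ∧ H.Adj x.2 y.2
  symm := ⟨fun _ _ h => ⟨h.1.symm, h.2.symm⟩⟩
  loopless := ⟨fun _ h => H.loopless.irrefl _ h.2⟩

/-- every `s + 1` distinct elements contain two different related ones. -/
def Dense {K : Type} (s : ℕ) (R : K → K → Prop) : Prop :=
  ∀ S : Finset K, S.card = s + 1 → ∃ i ∈ S, ∃ j ∈ S, i ≠ j ∧ R i j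

end Pool.Agent.MP_8b3902_co
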