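import Pool.Agent.Lib.MP_8b3902_co.F.Defs

set_option autoImplicit false

namespace Pool.Agent.MP_8b3902_co

open Classical

variable {V : Type}

/-- expectation over `n` independent samples of the probability `p`. -/
noncomputable def Ex {Ω : Type} [Fintype Ω] (p : Ω → ℝ) (n : ℕ) (f : (Fin n → Ω) → ℝ) : ℝ :=
  ∑ x : Fin n → Ω, (∏ i, p (x i)) * f x

theorem Iid_prod {Ω : Type} [Fintype Ω] (p : Ω → ℝ) (n : ℕ) (u : Fin n → Ω → ℝ) :
    Ex p n (fun x => ∏ i, u i (x i)) = ∏ i, ∑ ω, p ω * u i ω := by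
  unfold Ex
  rw [Finset.prod_univ_sum, Fintype.piFinset_univ]
  refine Finset.sum_congr rfl fun x _ => ?_
  rw [Finset.prod_mul_distrib]

theorem Iid_sum {Ω ι : Type} [Fintype Ω] (p : Ω → ℝ) (n : ℕ) (s : Finset ι)
    (F : ι → (Fin n → Ω) → ℝ) : Ex p n (fun x => ∑ a ∈ s, F a x) = ∑ a ∈ s, Ex p n (F a) := by
  unfold Ex
  rw [Finset.sum_comm]
  refine Finset.sum_congr rfl fun x _ => ?_
  rw [Finset.mul_sum]

theorem Iid_smul {Ω : Type} [Fintype Ω] (p : Ω → ℝ) (n : ℕ) (c : ℝ)
    (F : (Fin n → Ω) → ℝ) : Ex p n (fun x => c * F x) = c * Ex p n F := by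
  unfold Ex
  rw [Finset.mul_sum]
  refine Finset.sum_congr rfl fun x _ => ?_
  ring

/-- F4a. -/
theorem ex_prod {Ω : Type} [Fintype Ω] (p : Ω → ℝ) (n : ℕ) (u : Ω → ℝ) :
    Ex p n (fun x => ∏ i, u (x i)) = (∑ ω, p ω * u ω) ^ n := by
  rw [Iid_prod p n (fun _ => u)]
  simp

/-- F4b. -/
theorem ex_pair {Ω : Type} [Fintype Ω] (p : Ω → ℝ) (hp1 : ∑ ω, p ω = 1) (n : ℕ)
    (g : Ω → Ω → ℝ) {k l : Fin n} (hkl : k ≠ l) :
    Ex p n (fun x => g (x k) (x l)) = ∑ a, ∑ b, p a * p b * g a b := by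
  have h1 : ∀ a b : Ω, Ex p n (fun x => (if x k = a then 1 else 0) * (if x l = b then 1 else 0))
      = p a * p b := by
    intro a b
    have hx : (fun x : Fin n → Ω => ((if x k = a then 1 else 0) * (if x l = b then 1 else 0) : ℝ)) =
        fun x => ∏ i, ((if i = k then (if x i = a then 1 else 0) else 1) *
          (if i = l then (if x i = b then 1 else 0) else 1)) := by
      funext x
      rw [Finset.prod_mul_distrib, Finset.prod_ite_eq', Finset.prod_ite_eq']
      simp
    rw [hx, Iid_prod p n (fun i ω => ((if i = k then (if ω = a then 1 else 0) else 1) *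
          (if i = l then (if ω = b then 1 else 0) else 1)))]
    have hi : ∀ i : Fin n, ∑ ω, p ω * ((if i = k then (if ω = a then 1 else 0) else 1) *
          (if i = l then (if ω = b then 1 else 0) else 1)) =
          (if i = k then p a else 1) * (if i = l then p b else 1) := by
      intro i
      by_cases hk : i = k
      · simp [hk, hkl]
      · by_cases hl : i = l
        · simp [hl, hkl.symm]
        · simp [hk, hl, hp1]
    rw [Finset.prod_congr rfl (fun i _ => hi i), Finset.prod_mul_distrib, Finset.prod_ite_eq',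
      Finset.prod_ite_eq']
    simp
  have h2 : (fun x : Fin n → Ω => g (x k) (x l)) = fun x => ∑ a ∈ Finset.univ, ∑ b ∈ Finset.univ,
      g a b * ((if x k = a then 1 else 0) * (if x l = b then 1 else 0)) := by
    funext x
    simp
  rw [h2, Iid_sum]
  refine Finset.sum_congr rfl fun a _ => ?_
  rw [Iid_sum]
  refine Finset.sum_congr rfl fun b _ => ?_
  rw [Iid_smul, h1]
  ring

theorem Iid_one {Ω : Type} [Fintype Ω] (p : Ω → ℝ) (hp1 : ∑ ω, p ω = 1) (n : ℕ) :
    ∑ x : Fin n → Ω, (∏ i, p (x i)) = 1 := by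
  have := ex_prod p n (fun _ => 1)
  simpa [Ex, hp1] using this

/-- F4c. -/
theorem exists_ge_ex {Ω : Type} [Fintype Ω] (p : Ω → ℝ) (hp : ∀ ω, 0 ≤ p ω) (hp1 : ∑ ω, p ω = 1)
    (n : ℕ) (f : (Fin n → Ω) → ℝ) : ∃ x, Ex p n f ≤ f x := by
  by_contra hcon
  push Not at hcon
  have h1 := Iid_one p hp1 n
  have h2 : Ex p n (fun x => f x - Ex p n f) = 0 := by
    unfold Ex
    simp only [mul_sub]
    rw [Finset.sum_sub_distrib, ← Finset.sum_mul, h1]
    simp
  have h3 : ∀ x ∈ (Finset.univ : Finset (Fin n → Ω)),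
      (∏ i, p (x i)) * (f x - Ex p n f) ≤ 0 := fun x _ =>
    mul_nonpos_of_nonneg_of_nonpos (Finset.prod_nonneg fun i _ => hp _) (by linarith [hcon x])
  have h4 := (Finset.sum_eq_zero_iff_of_nonpos h3).1 h2
  have h5 : ∀ x : Fin n → Ω, (∏ i, p (x i)) = 0 := by
    intro x
    have := h4 x (Finset.mem_univ x)
    rcases mul_eq_zero.1 this with h | h
    · exact h
    · linarith [hcon x]
  simp [h5] at h1

/-- F4d. -/
theorem iid_avoid {Ω : Type} [Fintype Ω] (p : Ω → ℝ) (hp : ∀ ω, 0 ≤ p ω) (hp1 : ∑ ω, p ω = 1)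
    (B : Ω → Ω → Prop) (n : ℕ) (η : ℝ)
    (hB : ∑ ω, ∑ ω', (if B ω ω' then p ω * p ω' else 0) ≤ η) (hn : (n : ℝ) * n * η < 1) :
    ∃ x : Fin n → Ω, ∀ i j, i ≠ j → ¬ B (x i) (x j) := by
  by_contra hcon
  push Not at hcon
  have hη : 0 ≤ η := by
    refine le_trans (Finset.sum_nonneg fun ω _ => Finset.sum_nonneg fun ω' _ => ?_) hB
    split_ifs
    · exact mul_nonneg (hp _) (hp _)
    · exact le_rfl
  have h1 : Ex p n (fun x => ∑ i ∈ Finset.univ, ∑ j ∈ Finset.univ,
      (if i ≠ j ∧ B (x i) (x j) then 1 else 0)) ≤ n * n * η := by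
    rw [Iid_sum]
    have hs : ∀ i ∈ (Finset.univ : Finset (Fin n)), Ex p n (fun x => ∑ j ∈ Finset.univ,
      (if i ≠ j ∧ B (x i) (x j) then 1 else 0)) ≤ n * η := by
      intro i _
      rw [Iid_sum]
      have ht : ∀ j ∈ (Finset.univ : Finset (Fin n)), Ex p n (fun x =>
          (if i ≠ j ∧ B (x i) (x j) then 1 else 0)) ≤ η := by
        intro j _
        by_cases hij : i = j
        · simp [hij, Ex, hη]
        · have := ex_pair p hp1 n (fun a b => if B a b then 1 else 0) hij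
          simp only [hij, ne_eq, not_false_eq_true, true_and]
          rw [this]
          refine le_trans (le_of_eq ?_) hB
          refine Finset.sum_congr rfl fun a _ => Finset.sum_congr rfl fun b _ => ?_
          split_ifs <;> simp
      refine le_trans (Finset.sum_le_sum ht) ?_
      simp
    refine le_trans (Finset.sum_le_sum hs) ?_
    simp [mul_assoc]
  have h2 : (1 : ℝ) ≤ Ex p n (fun x => ∑ i ∈ Finset.univ, ∑ j ∈ Finset.univ,
      (if i ≠ j ∧ B (x i) (x j) then 1 else 0)) := by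
    unfold Ex
    refine le_trans (le_of_eq (Iid_one p hp1 n).symm) ?_
    refine Finset.sum_le_sum fun x _ => ?_
    refine le_mul_of_one_le_right (Finset.prod_nonneg fun i _ => hp _) ?_
    obtain ⟨i, j, hij, hb⟩ := hcon x
    refine le_trans ?_ (Finset.single_le_sum (f := fun i => ∑ j ∈ Finset.univ,
      (if i ≠ j ∧ B (x i) (x j) then (1 : ℝ) else 0)) (fun i _ => Finset.sum_nonneg fun j _ => ?_)
      (Finset.mem_univ i))
    · refine le_trans ?_ (Finset.single_le_sum (f := fun j =>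
        (if i ≠ j ∧ B (x i) (x j) then (1 : ℝ) else 0)) (fun j _ => ?_)
        (Finset.mem_univ j))
      · simp [hij, hb]
      · split_ifs <;> norm_num
    · split_ifs <;> norm_num
  linarith

end Pool.Agent.MP_8b3902_co
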