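import Pool.Agent.Lib.MP_8b3902_co.F.Defs
import Pool.Agent.Lib.MP_8b3902_co.Trap

set_option autoImplicit false

namespace Pool.Agent.MP_8b3902_co

open Classical

variable {V : Type}

/-- F3. Two independent copies of a spread random set of at most `l` vertices rarely touch.
(`small_common` in Trap.lean: the vertices with at least `t` neighbours in an independent set `H` of
size `m` form a set of independence number at most `2 ^ m * t`.) -/
theorem pair_touch [Fintype V] {G : SimpleGraph V} {t : ℕ} (hK : Kfree G t) {Ω : Type} [Fintype Ω]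
    (p : Ω → ℝ) (hp : ∀ ω, 0 ≤ p ω) (hp1 : ∑ ω, p ω = 1) (F : Ω → Finset V) (l m : ℕ)
    (hl : ∀ ω, (F ω).card ≤ l) (hm : 0 < m) (ε : ℝ)
    (hs : ∀ Z : Set V, Small G Z (2 ^ m * t + m) →
      ∑ ω, (if ∃ v ∈ F ω, v ∈ Z then p ω else 0) ≤ ε) :
    ∑ ω, ∑ ω', (if Touch G (F ω : Set V) (F ω' : Set V) then p ω * p ω' else 0) ≤
      ε + l * (l * t / m + ε) := by
  have hm' : (0 : ℝ) < m := by exact_mod_cast hm
  have hε : 0 ≤ ε := by
    have := hs ∅ (small_empty _)
    simpa using this
  -- the probability that `v` touches the random set
  let T : V → ℝ := fun v => ∑ ω, if Touch G {v} (F ω : Set V) then p ω else 0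
  have hT0 : ∀ v, 0 ≤ T v := fun v => Finset.sum_nonneg fun ω _ => by
    split_ifs
    · exact hp ω
    · exact le_rfl
  have hbad : Small G {v | l * t / m + ε < T v} (2 ^ m * t + m) := by
    intro S hS hind
    by_contra hcard
    push Not at hcard
    obtain ⟨H, hHS, hHm⟩ := Finset.exists_subset_card_eq (show m ≤ S.card by
      have : 0 ≤ 2 ^ m * t := Nat.zero_le _
      omega)
    have hHind : ∀ u ∈ H, ∀ w ∈ H, ¬ G.Adj u w := fun u hu w hw => hind u (hHS hu) w (hHS hw)
    have hHne : H.Nonempty := by
      rw [← Finset.card_pos, hHm]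
      exact hm
    have hHsmall : Small G (H : Set V) m := by
      intro A hA _
      rw [← hHm]
      exact Finset.card_le_card fun v hv => hA v hv
    have hZ := hs _ (small_union (small_common hK H hHm hHind) hHsmall)
    have h1 : (m : ℝ) * (l * t / m + ε) < ∑ v ∈ H, T v := by
      rw [← hHm, ← nsmul_eq_mul, ← Finset.sum_const]
      rw [hHm]
      exact Finset.sum_lt_sum_of_nonempty hHne fun v hv => hS v (hHS hv)
    have h2 : ∑ v ∈ H, T v = ∑ ω, p ω * ((H.filter fun v => Touch G {v} (F ω : Set V)).card : ℝ) := by
      simp only [T]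
      rw [Finset.sum_comm]
      refine Finset.sum_congr rfl fun ω _ => ?_
      rw [← Finset.sum_filter, Finset.sum_const, nsmul_eq_mul, mul_comm]
    have h3 : ∀ ω, p ω * ((H.filter fun v => Touch G {v} (F ω : Set V)).card : ℝ) ≤
        p ω * (l * t) + m * (if ∃ v ∈ F ω, v ∈ ({b | t ≤ (H.filter (fun h => G.Adj b h)).card} ∪
          (H : Set V) : Set V) then p ω else 0) := by
      intro ω
      split_ifs with hω
      · have h4 : ((H.filter fun v => Touch G {v} (F ω : Set V)).card : ℝ) ≤ m := by
          rw [← hHm]
          exact_mod_cast Finset.card_filter_le _ _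
        have h5 := mul_le_mul_of_nonneg_left h4 (hp ω)
        have h6 : 0 ≤ p ω * (l * t) := mul_nonneg (hp ω) (by positivity)
        linarith
      · rw [mul_zero, add_zero]
        apply mul_le_mul_of_nonneg_left _ (hp ω)
        have h4 : H.filter (fun v => Touch G {v} (F ω : Set V)) ⊆
            (F ω).biUnion fun u => H.filter fun h => G.Adj u h := by
          intro v hv
          rw [Finset.mem_filter] at hv
          obtain ⟨hvH, a, ha, u, hu, hau⟩ := hv
          rw [Set.mem_singleton_iff] at ha
          rw [ha] at hau
          rw [Finset.mem_biUnion]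
          refine ⟨u, hu, ?_⟩
          rw [Finset.mem_filter]
          refine ⟨hvH, ?_⟩
          rcases hau with hau | hau
          · exfalso
            apply hω
            refine ⟨u, hu, Or.inr ?_⟩
            rw [← hau]
            exact hvH
          · exact hau.symm
        have h5 : (H.filter (fun v => Touch G {v} (F ω : Set V))).card ≤ l * t := by
          refine (Finset.card_le_card h4).trans (Finset.card_biUnion_le.trans ?_)
          refine (Finset.sum_le_card_nsmul _ _ t ?_).trans ?_
          · intro u hu
            by_contra hcon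
            push Not at hcon
            exact hω ⟨u, hu, Or.inl hcon.le⟩
          · rw [smul_eq_mul]
            exact Nat.mul_le_mul_right _ (hl ω)
        exact_mod_cast h5
    have h4 : ∑ v ∈ H, T v ≤ l * t + m * ε := by
      rw [h2]
      refine (Finset.sum_le_sum fun ω _ => h3 ω).trans ?_
      rw [Finset.sum_add_distrib, ← Finset.sum_mul, hp1, one_mul, ← Finset.mul_sum]
      have := mul_le_mul_of_nonneg_left hZ hm'.le
      refine add_le_add le_rfl ?_
      convert this
    have h5 : (m : ℝ) * (l * t / m + ε) = l * t + m * ε := by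
      field_simp
    linarith
  have hZ := hs _ hbad
  -- the union bound
  have hc : 0 ≤ (l : ℝ) * t / m + ε := by positivity
  have key : ∀ ω, ∑ ω', (if Touch G (F ω : Set V) (F ω' : Set V) then p ω * p ω' else 0) ≤
      (if ∃ v ∈ F ω, v ∈ {v | (l : ℝ) * t / m + ε < T v} then p ω else 0) +
        p ω * (l * (l * t / m + ε)) := by
    intro ω
    split_ifs with hω
    · have h1 : ∑ ω', (if Touch G (F ω : Set V) (F ω' : Set V) then p ω * p ω' else 0) ≤
          ∑ ω', p ω * p ω' := by
        refine Finset.sum_le_sum fun ω' _ => ?_
        split_ifs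
        · exact le_rfl
        · exact mul_nonneg (hp ω) (hp ω')
      rw [← Finset.mul_sum, hp1, mul_one] at h1
      have h2 : 0 ≤ p ω * (l * (l * t / m + ε)) :=
        mul_nonneg (hp ω) (mul_nonneg (Nat.cast_nonneg _) hc)
      linarith
    · rw [zero_add]
      have h1 : ∑ ω', (if Touch G (F ω : Set V) (F ω' : Set V) then p ω * p ω' else 0) ≤
          p ω * ∑ v ∈ F ω, T v := by
        simp only [T]
        rw [Finset.sum_comm, Finset.mul_sum]
        refine Finset.sum_le_sum fun ω' _ => ?_
        split_ifs with ht
        · obtain ⟨u, hu, v, hv, huv⟩ := ht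
          apply mul_le_mul_of_nonneg_left _ (hp ω)
          have h2 := Finset.single_le_sum
            (f := fun u => if Touch G {u} (F ω' : Set V) then p ω' else 0)
            (s := F ω) (fun v _ => by
              split_ifs
              · exact hp ω'
              · exact le_rfl) hu
          have h3 : Touch G {u} (F ω' : Set V) := ⟨u, rfl, v, hv, huv⟩
          simpa only [if_pos h3] using h2
        · apply mul_nonneg (hp ω)
          exact Finset.sum_nonneg fun v _ => by
            split_ifs
            · exact hp ω'
            · exact le_rfl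
      refine h1.trans (mul_le_mul_of_nonneg_left ?_ (hp ω))
      refine (Finset.sum_le_card_nsmul _ _ ((l : ℝ) * t / m + ε) ?_).trans ?_
      · intro v hv
        by_contra hcon
        push Not at hcon
        exact hω ⟨v, hv, hcon⟩
      · rw [nsmul_eq_mul]
        exact mul_le_mul_of_nonneg_right (by exact_mod_cast hl ω) hc
  refine (Finset.sum_le_sum fun ω _ => key ω).trans ?_
  rw [Finset.sum_add_distrib, ← Finset.sum_mul, hp1, one_mul]
  linarith

end Pool.Agent.MP_8b3902_co
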