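import Pool.Agent.Lib.MP_8b3902_co.F.Defs

set_option autoImplicit false

namespace Pool.Agent.MP_8b3902_co

open Classical

variable {V : Type}

/-- F1. Finite minimax with threshold. -/
theorem minimax_eps {I J : Type} [Fintype I] [Fintype J] [Nonempty J] (M : I → J → ℝ) (ε : ℝ)
    (h : ∀ q : I → ℝ, (∀ i, 0 ≤ q i) → ∑ i, q i = 1 → ∃ j, ∑ i, q i * M i j ≤ ε) :
    ∃ w : J → ℝ, (∀ j, 0 ≤ w j) ∧ ∑ j, w j = 1 ∧ ∀ i, ∑ j, w j * M i j ≤ ε := by
  let N : Matrix I J ℝ := fun i j => ε - M i j
  by_cases hw : ∃ w ∈ stdSimplex ℝ J, ∀ i, 0 ≤ (N.mulVecLin w) i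
  · obtain ⟨w, ⟨hw0, hw1⟩, hw⟩ := hw
    refine ⟨w, hw0, hw1, ?_⟩
    intro i
    have h1 := hw i
    rw [Matrix.mulVecLin_apply, Matrix.mulVec, dotProduct] at h1
    have h2 : ∑ j, N i j * w j = ε * ∑ j, w j - ∑ j, w j * M i j := by
      rw [Finset.mul_sum, ← Finset.sum_sub_distrib]
      refine Finset.sum_congr rfl ?_
      intro j _
      simp only [N]
      ring
    rw [h2, hw1] at h1
    linarith
  · exfalso
    set K : Set (I → ℝ) := N.mulVecLin '' stdSimplex ℝ J with hK
    have hKc : Convex ℝ K := (convex_stdSimplex ℝ J).linear_image _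
    have hKk : IsCompact K :=
      (isCompact_stdSimplex ℝ J).image N.mulVecLin.continuous_of_finiteDimensional
    have hdisj : Disjoint K (Set.Ici (0 : I → ℝ)) := by
      rw [Set.disjoint_left]
      rintro _ ⟨w, hw', rfl⟩ h2
      exact hw ⟨w, hw', fun i => h2 i⟩
    obtain ⟨f, u, v, hf1, huv, hf2⟩ := geometric_hahn_banach_compact_closed hKc hKk
      (convex_Ici (0 : I → ℝ)) isClosed_Ici hdisj
    have hv0 : v < 0 := by
      have := hf2 0 (Set.mem_Ici.2 le_rfl)
      simpa using this
    let c : I → ℝ := fun i => f (Pi.single i 1)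
    have hc0 : ∀ i, 0 ≤ c i := by
      intro i
      by_contra hneg
      push Not at hneg
      have h1 := hf2 ((v / c i) • Pi.single i 1) (by
        rw [Set.mem_Ici]
        refine smul_nonneg (div_nonneg_of_nonpos hv0.le hneg.le) ?_
        intro k
        rw [Pi.zero_apply]
        by_cases hk : k = i
        · subst hk; simp
        · simp [hk])
      rw [map_smul, smul_eq_mul] at h1
      have h2 : v / c i * f (Pi.single i 1) = v := div_mul_cancel₀ v hneg.ne
      rw [h2] at h1
      exact lt_irrefl _ h1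
    have hf : ∀ x : I → ℝ, f x = ∑ i, c i * x i := by
      intro x
      have hx : x = ∑ i, x i • (Pi.single i (1 : ℝ) : I → ℝ) := by
        funext k
        simp [Finset.sum_apply, Pi.single_apply]
      conv_lhs => rw [hx]
      rw [map_sum]
      refine Finset.sum_congr rfl ?_
      intro i _
      rw [map_smul, smul_eq_mul, mul_comm]
    have hneg : ∀ j, ∑ i, c i * N i j < 0 := by
      intro j
      have h1 := hf1 (N.mulVecLin (Pi.single j 1)) ⟨_, single_mem_stdSimplex ℝ j, rfl⟩
      rw [hf] at h1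
      have h2 : ∀ i, N.mulVecLin (Pi.single j 1) i = N i j := by
        intro i
        simp [Matrix.mulVec, dotProduct, Pi.single_apply]
      simp only [h2] at h1
      linarith
    have hS : 0 < ∑ i, c i := by
      obtain ⟨j⟩ := (inferInstance : Nonempty J)
      rcases (Finset.sum_nonneg fun i (_ : i ∈ Finset.univ) => hc0 i).lt_or_eq with h1 | h1
      · exact h1
      · exfalso
        have h2 : ∀ i, c i = 0 := by
          intro i
          exact (Finset.sum_eq_zero_iff_of_nonneg fun i _ => hc0 i).1 h1.symm i (Finset.mem_univ _)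
        have h3 := hneg j
        simp [h2] at h3
    obtain ⟨j, hj⟩ := h (fun i => c i / ∑ i, c i) (fun i => div_nonneg (hc0 i) hS.le)
      (by rw [← Finset.sum_div, div_self hS.ne'])
    have h1 := hneg j
    have h2 : ∑ i, c i * N i j = ε * (∑ i, c i) - ∑ i, c i * M i j := by
      rw [Finset.mul_sum, ← Finset.sum_sub_distrib]
      refine Finset.sum_congr rfl ?_
      intro i _
      simp only [N]
      ring
    have h3 : ∑ i, c i / (∑ i, c i) * M i j = (∑ i, c i * M i j) / ∑ i, c i := by
      rw [Finset.sum_div]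
      refine Finset.sum_congr rfl ?_
      intro i _
      ring
    rw [h3, div_le_iff₀ hS] at hj
    linarith

end Pool.Agent.MP_8b3902_co
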