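import Pool.Agent.Lib.MP_8b3902_co.F.Defs
import Pool.Agent.Lib.MP_8b3902_co.F.Minimax

set_option autoImplicit false

namespace Pool.Agent.MP_8b3902_co

open Classical

variable {V : Type}

/-- F2. Existence of a spread distribution. Here `b : β` are the pure strategies of the second
player, `D b` a finite nonempty set and `F b x` (`x ∈ D b`) sets of at most `l` vertices. If every
set `Z` of independence number at most `R` is avoided by some strategy `b` then there is a
probability `w` on `β` such that for every `Z` of independence number at most `C`: if `b ∼ w` and `x`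
is uniform in `D b` then `F b x` meets `Z` with probability at most `ε`. -/
theorem exists_spread [Fintype V] (G : SimpleGraph V) {β ι : Type} [Fintype β] [Nonempty β]
    (D : β → Finset ι) (F : β → ι → Finset V) (l C R : ℕ) (ε : ℝ) (hε : 0 < ε)
    (hR : (C : ℝ) * l ≤ ε * R) (hD : ∀ b, (D b).Nonempty) (hl : ∀ b x, (F b x).card ≤ l)
    (h : ∀ Z : Set V, Small G Z R → ∃ b, ∀ x ∈ D b, ∀ v ∈ F b x, v ∉ Z) :
    ∃ w : β → ℝ, (∀ b, 0 ≤ w b) ∧ ∑ b, w b = 1 ∧ ∀ Z : Set V, Small G Z C →
      ∑ b, w b * ((((D b).filter (fun x => ∃ v ∈ F b x, v ∈ Z)).card : ℝ) / (D b).card) ≤ ε := by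
  let M : {Z : Set V // Small G Z C} → β → ℝ := fun Z b =>
    (((D b).filter (fun x => ∃ v ∈ F b x, v ∈ Z.1)).card : ℝ) / (D b).card
  obtain ⟨w, hw0, hw1, hw⟩ := minimax_eps M ε (by
    intro q hq0 hq1
    -- the probability that `v` is in the random set
    let p : V → ℝ := fun v => ∑ Z : {Z : Set V // Small G Z C}, if v ∈ Z.1 then q Z else 0
    have hsmall : Small G {v | ε ≤ l * p v} R := by
      intro S hS hind
      have h1 : ∑ v ∈ S, p v ≤ C := by
        have h2 : ∑ v ∈ S, p v = ∑ Z : {Z : Set V // Small G Z C},
            q Z * ((S.filter fun v => v ∈ Z.1).card : ℝ) := by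
          simp only [p]
          rw [Finset.sum_comm]
          refine Finset.sum_congr rfl fun Z _ => ?_
          rw [← Finset.sum_filter, Finset.sum_const, nsmul_eq_mul, mul_comm]
        rw [h2]
        calc ∑ Z : {Z : Set V // Small G Z C}, q Z * ((S.filter fun v => v ∈ Z.1).card : ℝ)
            ≤ ∑ Z : {Z : Set V // Small G Z C}, q Z * (C : ℝ) := by
              refine Finset.sum_le_sum fun Z _ => mul_le_mul_of_nonneg_left ?_ (hq0 Z)
              have := Z.2 (S.filter fun v => v ∈ Z.1) (fun v hv => (Finset.mem_filter.1 hv).2)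
                (fun u hu w hw => hind u (Finset.mem_filter.1 hu).1 w (Finset.mem_filter.1 hw).1)
              exact_mod_cast this
          _ = C := by rw [← Finset.sum_mul, hq1, one_mul]
      have h3 : (S.card : ℝ) * ε ≤ l * ∑ v ∈ S, p v := by
        rw [Finset.mul_sum, ← nsmul_eq_mul]
        exact Finset.card_nsmul_le_sum _ _ _ fun v hv => hS v hv
      have h4 : (S.card : ℝ) * ε ≤ R * ε := by
        calc (S.card : ℝ) * ε ≤ l * ∑ v ∈ S, p v := h3
          _ ≤ l * C := mul_le_mul_of_nonneg_left h1 (Nat.cast_nonneg _)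
          _ = C * l := mul_comm _ _
          _ ≤ ε * R := hR
          _ = R * ε := mul_comm _ _
      have h5 : (S.card : ℝ) ≤ R := le_of_mul_le_mul_right h4 hε
      exact_mod_cast h5
    obtain ⟨b, hb⟩ := h _ hsmall
    refine ⟨b, ?_⟩
    have hDpos : (0 : ℝ) < (D b).card := by exact_mod_cast (hD b).card_pos
    -- one `x`
    have hx : ∀ x ∈ D b, ∑ Z : {Z : Set V // Small G Z C},
        (if ∃ v ∈ F b x, v ∈ Z.1 then q Z else 0) ≤ ε := by
      intro x hx
      have h1 : ∑ Z : {Z : Set V // Small G Z C}, (if ∃ v ∈ F b x, v ∈ Z.1 then q Z else 0) ≤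
          ∑ v ∈ F b x, p v := by
        simp only [p]
        rw [Finset.sum_comm]
        refine Finset.sum_le_sum fun Z _ => ?_
        split_ifs with hZ
        · obtain ⟨v, hv, hvZ⟩ := hZ
          have h2 := Finset.single_le_sum (f := fun v => if v ∈ Z.1 then q Z else 0)
            (s := F b x) (fun v _ => by
              split_ifs
              · exact hq0 Z
              · exact le_rfl) hv
          simpa only [if_pos hvZ] using h2
        · exact Finset.sum_nonneg fun v _ => by
            split_ifs
            · exact hq0 Z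
            · exact le_rfl
      refine h1.trans ?_
      rcases Nat.eq_zero_or_pos l with hl0 | hl0
      · have h2 : F b x = ∅ := by
          rw [← Finset.card_eq_zero]
          have := hl b x
          omega
        rw [h2, Finset.sum_empty]
        exact hε.le
      · have hl0' : (0 : ℝ) < l := by exact_mod_cast hl0
        have h2 : (l : ℝ) * ∑ v ∈ F b x, p v ≤ l * ε := by
          rw [Finset.mul_sum]
          calc ∑ v ∈ F b x, (l : ℝ) * p v ≤ (F b x).card • ε := by
                apply Finset.sum_le_card_nsmul
                intro v hv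
                have := hb x hx v hv
                have h3 : ¬ ε ≤ l * p v := this
                exact (not_le.1 h3).le
            _ = (F b x).card * ε := nsmul_eq_mul _ _
            _ ≤ l * ε := mul_le_mul_of_nonneg_right (by exact_mod_cast hl b x) hε.le
        exact le_of_mul_le_mul_left h2 hl0'
    have h1 : ∑ Z, q Z * M Z b = (∑ x ∈ D b, ∑ Z : {Z : Set V // Small G Z C},
        (if ∃ v ∈ F b x, v ∈ Z.1 then q Z else 0)) / (D b).card := by
      rw [Finset.sum_comm, Finset.sum_div]
      refine Finset.sum_congr rfl fun Z _ => ?_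
      simp only [M]
      rw [← Finset.sum_filter, Finset.sum_const, nsmul_eq_mul]
      ring
    rw [h1, div_le_iff₀ hDpos]
    calc _ ≤ (D b).card • ε := Finset.sum_le_card_nsmul _ _ _ hx
      _ = ε * (D b).card := by rw [nsmul_eq_mul, mul_comm])
  exact ⟨w, hw0, hw1, fun Z hZ => hw ⟨Z, hZ⟩⟩

end Pool.Agent.MP_8b3902_co
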