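import Pool.Agent.Lib.MP_8b3902_co.F.Defs
import Pool.Agent.Lib.MP_8b3902_co.F.Spread
import Pool.Agent.Lib.MP_8b3902_co.F.Pair
import Pool.Agent.Lib.MP_8b3902_co.F.Iid

set_option autoImplicit false

namespace Pool.Agent.MP_8b3902_co

open Classical

variable {V : Type}

/-- F6. The Erdős–Pósa lemma: in a graph without induced `K_{t,t}`, a family of sets of at most `l`
vertices without `n` pairwise anticomplete members has a hitting set of bounded independence
number. -/
theorem erdos_posa (t l n : ℕ) : ∃ g : ℕ, ∀ (V : Type) [Fintype V] (G : SimpleGraph V),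
    Kfree G t → ∀ 𝓕 : Set (Finset V), (∀ S ∈ 𝓕, S.card ≤ l) →
    (∀ S : Fin n → Finset V, (∀ i, S i ∈ 𝓕) →
      ∃ i j, i ≠ j ∧ Touch G (S i : Set V) (S j : Set V)) →
    ∃ Z : Set V, Small G Z g ∧ ∀ S ∈ 𝓕, ∃ v ∈ S, v ∈ Z := by
  set m : ℕ := 4 * (n * n + 1) * (l * l * t + 1) with hm
  set A : ℕ := 4 * (n * n + 1) * (l + 1) with hA
  set C : ℕ := 2 ^ m * t + m with hC
  have hm0 : 0 < m := by positivity
  have hA0 : 0 < A := by positivity
  refine ⟨C * l * A, ?_⟩
  intro V _ G hK 𝓕 hl hn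
  by_contra hcon
  push Not at hcon
  have hav : ∀ Z : Set V, Small G Z (C * l * A) → ∃ S ∈ 𝓕, ∀ v ∈ S, v ∉ Z := hcon
  obtain ⟨S0, hS0, -⟩ := hav ∅ (by
    intro S hS _
    have : S = ∅ := Finset.eq_empty_of_forall_notMem fun v hv => hS v hv
    rw [this]
    simp)
  have : Nonempty {S : Finset V // S ∈ 𝓕} := ⟨⟨S0, hS0⟩⟩
  set ε : ℝ := 1 / A with hε
  have hAr : (0 : ℝ) < A := by exact_mod_cast hA0
  have hε0 : 0 < ε := by positivity
  obtain ⟨w, hw, hw1, hsp⟩ := exists_spread G (β := {S : Finset V // S ∈ 𝓕}) (ι := Unit)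
    (fun _ => Finset.univ) (fun b _ => b.1) l C (C * l * A) ε hε0
    (by rw [hε]; push_cast; field_simp; exact le_refl _)
    (fun b => Finset.univ_nonempty) (fun b _ => hl b.1 b.2)
    (fun Z hZ => by
      obtain ⟨S, hS, hSZ⟩ := hav Z hZ
      exact ⟨⟨S, hS⟩, fun _ _ v hv => hSZ v hv⟩)
  have hpair := pair_touch hK w hw hw1 (fun b => b.1) l m (fun b => hl b.1 b.2) hm0 ε
    (fun Z hZ => by
      refine le_trans (le_of_eq ?_) (hsp Z hZ)
      refine Finset.sum_congr rfl fun b _ => ?_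
      by_cases hb : ∃ v ∈ b.1, v ∈ Z
      · simp [hb]
      · simp [hb])
  obtain ⟨x, hx⟩ := iid_avoid w hw hw1
    (fun a b => Touch G ((a.1 : Finset V) : Set V) ((b.1 : Finset V) : Set V)) n
    (ε + l * (l * t / m + ε)) hpair (by
      have e1 : ε + (l : ℝ) * (l * t / m + ε) = (l + 1) * ε + l * l * t / m := by ring
      have e2 : ((l : ℝ) + 1) * ε = 1 / (4 * (n * n + 1)) := by
        rw [hε, hA]
        push_cast
        field_simp
      have e3 : (l : ℝ) * l * t / m ≤ 1 / (4 * (n * n + 1)) := by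
        rw [hm]
        push_cast
        rw [div_le_div_iff₀ (by positivity) (by positivity)]
        have : (0 : ℝ) ≤ l * l * t := by positivity
        nlinarith [show (0 : ℝ) ≤ (n : ℝ) * n from by positivity]
      rw [e1, e2]
      have e4 : (n : ℝ) * n * (1 / (4 * (n * n + 1)) + l * l * t / m)
          ≤ n * n * (1 / (4 * (n * n + 1)) + 1 / (4 * (n * n + 1))) :=
        mul_le_mul_of_nonneg_left (by linarith) (by positivity)
      refine lt_of_le_of_lt e4 ?_
      have e5 : (n : ℝ) * n * (1 / (4 * (n * n + 1)) + 1 / (4 * (n * n + 1)))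
          = (n * n) / (2 * (n * n + 1)) := by
        field_simp
        ring
      rw [e5, div_lt_one (by positivity)]
      have : (0 : ℝ) ≤ n * n := by positivity
      linarith)
  obtain ⟨i, j, hij, ht⟩ := hn (fun i => (x i).1) (fun i => (x i).2)
  exact hx i j hij ht

end Pool.Agent.MP_8b3902_co
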