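import Pool.Agent.Lib.MP_8b3902_co.F.Defs

set_option autoImplicit false

namespace Pool.Agent.MP_8b3902_co

open Classical

variable {V : Type}

/-- Matching of ports. Nodes are `(a, i, j) : Bool × Fin n × Fin n` (`a = false`: row `i`, position `j`;
`a = true`: column `i`, position `j`); each node has the ports `0` (left), `1` (right), `2` (switch). -/
def Opp (n : ℕ) (x y : (Bool × Fin n × Fin n) × Fin 3) : Prop :=
  (x.1.1 = y.1.1 ∧ x.1.2.1 = y.1.2.1 ∧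
    ((x.2 = 1 ∧ y.2 = 0 ∧ x.1.2.2.val + 1 = y.1.2.2.val) ∨
      (x.2 = 0 ∧ y.2 = 1 ∧ y.1.2.2.val + 1 = x.1.2.2.val))) ∨
  (x.2 = 2 ∧ y.2 = 2 ∧ x.1.1 ≠ y.1.1 ∧ x.1.2.1 = y.1.2.2 ∧ x.1.2.2 = y.1.2.1)

/-- One copy of `Γ` at each node, the ends `e p` of the copies joined along `Opp`. -/
def gadget {γ : Type} (Γ : SimpleGraph γ) (e : Fin 3 → γ) (n : ℕ) :
    SimpleGraph ((Bool × Fin n × Fin n) × γ) where
  Adj x y := (x.1 = y.1 ∧ Γ.Adj x.2 y.2) ∨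
    ∃ p q, x.2 = e p ∧ y.2 = e q ∧ Opp n (x.1, p) (y.1, q)
  symm := by
    refine ⟨fun x y h => ?_⟩
    rcases h with ⟨h1, h2⟩ | ⟨p, q, hp, hq, h⟩
    · exact Or.inl ⟨h1.symm, h2.symm⟩
    · refine Or.inr ⟨q, p, hq, hp, ?_⟩
      rcases h with ⟨h1, h2, h3 | h3⟩ | ⟨h1, h2, h3, h4, h5⟩
      · exact Or.inl ⟨h1.symm, h2.symm, Or.inr ⟨h3.2.1, h3.1, h3.2.2⟩⟩
      · exact Or.inl ⟨h1.symm, h2.symm, Or.inl ⟨h3.2.1, h3.1, h3.2.2⟩⟩
      · exact Or.inr ⟨h2, h1, fun h => h3 h.symm, h5.symm, h4.symm⟩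
  loopless := by
    refine ⟨fun x h => ?_⟩
    rcases h with ⟨_, h2⟩ | ⟨p, q, hp, hq, h⟩
    · exact Γ.loopless.irrefl _ h2
    · rcases h with ⟨h1, h2, h3 | h3⟩ | ⟨h1, h2, h3, h4, h5⟩
      · have := h3.2.2; simp at this
      · have := h3.2.2; simp at this
      · exact h3 rfl

/-- the spider gadget graph, legs with `L + 1` vertices. -/
def spiderNet (L n : ℕ) : SimpleGraph ((Bool × Fin n × Fin n) × Option (Fin 3 × Fin (L + 1))) :=
  gadget (spider (L + 1)) (fun p => some (p, Fin.last L)) n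

/-- the lspider gadget graph, legs with `L + 1` vertices. -/
def lspiderNet (L n : ℕ) : SimpleGraph ((Bool × Fin n × Fin n) × (Fin 3 × Fin (L + 1))) :=
  gadget (lspider (L + 1)) (fun p => (p, Fin.last L)) n

end Pool.Agent.MP_8b3902_co
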