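import Pool.Agent.Lib.MP_8b3902_co.F.Defs
import Pool.Agent.Lib.MP_8b3902_co.F.GadgetDefs

set_option autoImplicit false

namespace Pool.Agent.MP_8b3902_co

open Classical

variable {V : Type}

/-! ### The matching of ports -/

theorem es_opp_symm {n : ℕ} {x y : (Bool × Fin n × Fin n) × Fin 3} (h : Opp n x y) :
    Opp n y x := by
  rcases h with ⟨h1, h2, h3 | h3⟩ | ⟨h1, h2, h3, h4, h5⟩
  · exact Or.inl ⟨h1.symm, h2.symm, Or.inr ⟨h3.2.1, h3.1, h3.2.2⟩⟩
  · exact Or.inl ⟨h1.symm, h2.symm, Or.inl ⟨h3.2.1, h3.1, h3.2.2⟩⟩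
  · exact Or.inr ⟨h2, h1, fun h => h3 h.symm, h5.symm, h4.symm⟩

theorem es_opp_unique {n : ℕ} {x y y' : (Bool × Fin n × Fin n) × Fin 3} (h : Opp n x y)
    (h' : Opp n x y') : y = y' := by
  obtain ⟨⟨a, i, j⟩, p⟩ := x
  obtain ⟨⟨a1, i1, j1⟩, p1⟩ := y
  obtain ⟨⟨a2, i2, j2⟩, p2⟩ := y'
  unfold Opp at h h'
  simp only at h h'
  rcases h with ⟨h1, h2, h3 | h3⟩ | ⟨h1, h2, h3, h4, h5⟩ <;>
  rcases h' with ⟨h1', h2', h3' | h3'⟩ | ⟨h1', h2', h3', h4', h5'⟩
  · obtain ⟨-, q1, q2⟩ := h3
    obtain ⟨-, q1', q2'⟩ := h3'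
    have e : j1 = j2 := Fin.ext (by omega)
    rw [← h1, ← h1', ← h2, ← h2', q1, q1', e]
  · exact absurd (h3.1.symm.trans h3'.1) (by decide)
  · exact absurd (h3.1.symm.trans h1') (by decide)
  · exact absurd (h3.1.symm.trans h3'.1) (by decide)
  · obtain ⟨-, q1, q2⟩ := h3
    obtain ⟨-, q1', q2'⟩ := h3'
    have e : j1 = j2 := Fin.ext (by omega)
    rw [← h1, ← h1', ← h2, ← h2', q1, q1', e]
  · exact absurd (h3.1.symm.trans h1') (by decide)
  · exact absurd (h1.symm.trans h3'.1) (by decide)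
  · exact absurd (h1.symm.trans h3'.1) (by decide)
  · have e : a1 = a2 := by
      revert h3 h3'
      cases a <;> cases a1 <;> cases a2 <;> simp
    rw [e, ← h4, ← h4', ← h5, ← h5', h2, h2']

/-- the owner of a matched pair of ports -/
def es_own {n : ℕ} (x : (Bool × Fin n × Fin n) × Fin 3) : Prop :=
  x.2 = 1 ∨ (x.2 = 2 ∧ x.1.1 = false)

theorem es_opp_own {n : ℕ} {x y : (Bool × Fin n × Fin n) × Fin 3} (h : Opp n x y) :
    es_own x ↔ ¬ es_own y := by
  obtain ⟨⟨a, i, j⟩, p⟩ := x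
  obtain ⟨⟨a1, i1, j1⟩, p1⟩ := y
  unfold Opp at h
  unfold es_own
  simp only at h ⊢
  rcases h with ⟨h1, h2, h3 | h3⟩ | ⟨h1, h2, h3, h4, h5⟩
  · rw [h3.1, h3.2.1]; simp
  · rw [h3.1, h3.2.1]; simp
  · rw [h1, h2]
    revert h3
    cases a <;> cases a1 <;> simp

/-! ### Moving the ends of the legs -/

/-- the part of the leg `x` beyond the position `c x` is moved to the continuation of the opposite
leg if `x` is an owner -/
noncomputable def es_map {n : ℕ} (L : ℕ) (c : (Bool × Fin n × Fin n) × Fin 3 → ℕ)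
    (x : (Bool × Fin n × Fin n) × Fin 3) (k : ℕ) : ((Bool × Fin n × Fin n) × Fin 3) × ℕ :=
  if h : es_own x ∧ c x < k ∧ ∃ y, Opp n x y then (Classical.choose h.2.2, 2 * L + 1 - k)
  else (x, k)

theorem es_map_cases {n : ℕ} (L : ℕ) (c : (Bool × Fin n × Fin n) × Fin 3 → ℕ)
    (x : (Bool × Fin n × Fin n) × Fin 3) (k : ℕ) :
    (∃ y, Opp n x y ∧ es_own x ∧ c x < k ∧ es_map L c x k = (y, 2 * L + 1 - k)) ∨
      (¬ (es_own x ∧ c x < k ∧ ∃ y, Opp n x y) ∧ es_map L c x k = (x, k)) := by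
  unfold es_map
  by_cases h : es_own x ∧ c x < k ∧ ∃ y, Opp n x y
  · left
    rw [dif_pos h]
    exact ⟨_, Classical.choose_spec h.2.2, h.1, h.2.1, rfl⟩
  · right
    rw [dif_neg h]
    exact ⟨h, rfl⟩

theorem es_map_lt {n L : ℕ} (c : (Bool × Fin n × Fin n) × Fin 3 → ℕ)
    (x : (Bool × Fin n × Fin n) × Fin 3) {k : ℕ} (hk : k ≤ L) :
    (es_map L c x k).2 < 2 * (L + 1) := by
  rcases es_map_cases L c x k with ⟨y, -, -, -, h⟩ | ⟨-, h⟩ <;> rw [h] <;> simp only <;> omega

theorem es_map_zero {n L : ℕ} (c : (Bool × Fin n × Fin n) × Fin 3 → ℕ)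
    (x : (Bool × Fin n × Fin n) × Fin 3) {k : ℕ} (hk : k ≤ L) :
    ((es_map L c x k).2 = 0 ↔ k = 0) ∧ (k = 0 → (es_map L c x k).1 = x) := by
  rcases es_map_cases L c x k with ⟨y, -, -, h0, h⟩ | ⟨-, h⟩ <;> rw [h] <;> simp only
  · constructor
    · constructor
      · intro; omega
      · intro; omega
    · intro; omega
  · simp

/-- adjacency of two vertices on the legs -/
theorem es_map_adj {n L : ℕ} {c : (Bool × Fin n × Fin n) × Fin 3 → ℕ} (hc : ∀ x, c x ≤ L)
    {x y : (Bool × Fin n × Fin n) × Fin 3} {k k' : ℕ} (hk : k ≤ L) (hk' : k' ≤ L)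
    (hkc : k ≠ c x) (hkc' : k' ≠ c y) :
    ((x = y ∧ (k + 1 = k' ∨ k' + 1 = k)) ∨ (k = L ∧ k' = L ∧ Opp n x y)) ↔
      ((es_map L c x k).1 = (es_map L c y k').1 ∧
        ((es_map L c x k).2 + 1 = (es_map L c y k').2 ∨
          (es_map L c y k').2 + 1 = (es_map L c x k).2)) := by
  have hcx := hc x
  have hcy := hc y
  rcases es_map_cases L c x k with ⟨z, hz, ho, h0, h⟩ | ⟨h0, h⟩ <;>
  rcases es_map_cases L c y k' with ⟨z', hz', ho', h0', h'⟩ | ⟨h0', h'⟩ <;>
  rw [h, h'] <;> simp only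
  · -- both moved
    constructor
    · rintro (⟨rfl, h1⟩ | ⟨-, -, h1⟩)
      · exact ⟨es_opp_unique hz hz', by omega⟩
      · exact absurd ho' ((es_opp_own h1).1 ho)
    · rintro ⟨rfl, h1⟩
      left
      exact ⟨es_opp_unique (es_opp_symm hz) (es_opp_symm hz'), by omega⟩
  · -- first moved
    constructor
    · rintro (⟨rfl, h1⟩ | ⟨h1, h2, h3⟩)
      · exfalso
        have h2 : ¬ c x < k' := fun h3 => h0' ⟨ho, h3, z, hz⟩
        omega
      · exact ⟨es_opp_unique hz h3, by omega⟩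
    · rintro ⟨rfl, h1⟩
      right
      exact ⟨by omega, by omega, hz⟩
  · -- second moved
    constructor
    · rintro (⟨rfl, h1⟩ | ⟨h1, h2, h3⟩)
      · exfalso
        have h2 : ¬ c x < k := fun h3 => h0 ⟨ho', h3, z', hz'⟩
        omega
      · exact ⟨(es_opp_unique hz' (es_opp_symm h3)).symm, by omega⟩
    · rintro ⟨h2, h1⟩
      right
      rw [h2]
      exact ⟨by omega, by omega, es_opp_symm hz'⟩
  · -- none moved
    constructor
    · rintro (⟨h1, h2⟩ | ⟨h1, h2, h3⟩)
      · exact ⟨h1, h2⟩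
      · exfalso
        by_cases ho : es_own x
        · have h4 : ¬ c x < k := fun h4 => h0 ⟨ho, h4, y, h3⟩
          omega
        · have ho' : es_own y := by
            by_contra h4
            exact ho ((es_opp_own h3).2 h4)
          have h4 : ¬ c y < k' := fun h4 => h0' ⟨ho', h4, x, es_opp_symm h3⟩
          omega
    · rintro ⟨h1, h2⟩
      exact Or.inl ⟨h1, h2⟩

/-- injectivity on the legs -/
theorem es_map_inj {n L : ℕ} {c : (Bool × Fin n × Fin n) × Fin 3 → ℕ}
    {x y : (Bool × Fin n × Fin n) × Fin 3} {k k' : ℕ} (hk : k ≤ L) (hk' : k' ≤ L)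
    (h1 : (es_map L c x k).1 = (es_map L c y k').1)
    (h2 : (es_map L c x k).2 = (es_map L c y k').2) : x = y ∧ k = k' := by
  rcases es_map_cases L c x k with ⟨z, hz, ho, h0, h⟩ | ⟨h0, h⟩ <;>
  rcases es_map_cases L c y k' with ⟨z', hz', ho', h0', h'⟩ | ⟨h0', h'⟩ <;>
  rw [h, h'] at h1 h2 <;> simp only at h1 h2
  · subst h1
    exact ⟨es_opp_unique (es_opp_symm hz) (es_opp_symm hz'), by omega⟩
  · omega
  · omega
  · exact ⟨h1, h2⟩

/-- a position on each leg which is not in the image -/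
theorem es_exists_cut {W γ : Type} [Fintype W] {n L : ℕ} (hL : Fintype.card W ≤ L)
    (f : W → (Bool × Fin n × Fin n) × γ) (e : Fin 3 × Fin (L + 1) → γ)
    (he : Function.Injective e) :
    ∃ c : (Bool × Fin n × Fin n) × Fin 3 → ℕ, (∀ x, c x ≤ L) ∧
      ∀ (w : W) (p : Fin 3) (k : Fin (L + 1)), (f w).2 = e (p, k) → k.val ≠ c ((f w).1, p) := by
  have h : ∀ x : (Bool × Fin n × Fin n) × Fin 3, ∃ k : Fin (L + 1),
      ∀ w : W, f w ≠ (x.1, e (x.2, k)) := by
    intro x
    by_contra hcon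
    push Not at hcon
    choose g hg using hcon
    have hinj : Function.Injective g := by
      intro k k' hkk
      have h1 := hg k
      rw [hkk, hg k'] at h1
      have h2 := he (Prod.ext_iff.1 h1).2
      exact (Prod.ext_iff.1 h2).2.symm
    have := Fintype.card_le_of_injective g hinj
    rw [Fintype.card_fin] at this
    omega
  choose c hc using h
  refine ⟨fun x => (c x).val, fun x => Nat.lt_succ_iff.1 (c x).isLt, ?_⟩
  intro w p k hw hk
  refine hc ((f w).1, p) w ?_
  have h1 : k = c ((f w).1, p) := Fin.ext hk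
  rw [← h1]
  exact Prod.ext rfl hw

/-- F27. A graph with at most `L` vertices which is an induced subgraph of a spider net is an induced
subgraph of disjoint copies of a spider. Proof idea: in every leg `(v, p)` (which has `L + 1`
vertices) some vertex is missing in the image. For each matched pair of ports choose one owner port
(`p = 1`, or `p = 2` and `a = false`) with a missing vertex at position `k₀`; the part beyond `k₀` of
the owner leg is moved to the continuation (positions `2 (L + 1) - 1 - k`) of the opposite leg.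
So `m = ` number of nodes, `L' = 2 (L + 1)`. -/
theorem spiderNet_embed {W : Type} [Fintype W] (H : SimpleGraph W) (L n : ℕ)
    (hL : Fintype.card W ≤ L) (f : H ↪g spiderNet L n) :
    ∃ m L', Nonempty (H ↪g copies m (spider L')) := by
  obtain ⟨c, hc, hcf⟩ := es_exists_cut hL (fun w => f w)
    (fun q : Fin 3 × Fin (L + 1) => some q) (fun a b h => Option.some.inj h)
  obtain ⟨E⟩ : Nonempty ((Bool × Fin n × Fin n) ≃ Fin (Fintype.card (Bool × Fin n × Fin n))) :=
    ⟨Fintype.equivFin _⟩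
  -- the map on all vertices
  obtain ⟨g, hg0, hg1⟩ : ∃ g : (Bool × Fin n × Fin n) × Option (Fin 3 × Fin (L + 1)) →
      Fin (Fintype.card (Bool × Fin n × Fin n)) × Option (Fin 3 × Fin (2 * (L + 1))),
      (∀ v, g (v, none) = (E v, none)) ∧
      ∀ v p k, g (v, some (p, k)) = (E (es_map L c (v, p) k.val).1.1,
        some ((es_map L c (v, p) k.val).1.2,
          ⟨(es_map L c (v, p) k.val).2, es_map_lt c (v, p) (Nat.lt_succ_iff.1 k.isLt)⟩)) := by
    refine ⟨fun x => match x.2 with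
      | none => (E x.1, none)
      | some q => (E (es_map L c (x.1, q.1) q.2.val).1.1,
        some ((es_map L c (x.1, q.1) q.2.val).1.2,
          ⟨(es_map L c (x.1, q.1) q.2.val).2,
            es_map_lt c (x.1, q.1) (Nat.lt_succ_iff.1 q.2.isLt)⟩)), fun v => rfl, fun v p k => rfl⟩
  refine ⟨_, 2 * (L + 1), ⟨⟨⟨fun w => g (f w), ?_⟩, ?_⟩⟩⟩
  · -- injectivity
    intro w w' hww
    apply f.injective
    simp only at hww
    rcases hfw : f w with ⟨v, o⟩
    rcases hfw' : f w' with ⟨v', o'⟩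
    rw [hfw, hfw'] at hww
    rcases o with _ | ⟨p, k⟩ <;> rcases o' with _ | ⟨p', k'⟩
    · rw [hg0, hg0] at hww
      rw [E.injective (Prod.ext_iff.1 hww).1]
    · rw [hg0, hg1] at hww
      exact absurd (Prod.ext_iff.1 hww).2 (by simp)
    · rw [hg0, hg1] at hww
      exact absurd (Prod.ext_iff.1 hww).2 (by simp)
    · rw [hg1, hg1] at hww
      have h1 := E.injective (Prod.ext_iff.1 hww).1
      have h2 := Option.some.inj (Prod.ext_iff.1 hww).2
      have h3 := (Prod.ext_iff.1 h2).1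
      have h4 := (Prod.ext_iff.1 h2).2
      simp only at h1 h3 h4
      have h5 := es_map_inj (Nat.lt_succ_iff.1 k.isLt) (Nat.lt_succ_iff.1 k'.isLt)
        (Prod.ext h1 h3) (Fin.ext_iff.1 h4)
      obtain ⟨h6, h7⟩ := h5
      have h8 := (Prod.ext_iff.1 h6).1
      have h9 := (Prod.ext_iff.1 h6).2
      simp only at h8 h9
      rw [h8, h9, Fin.ext h7]
  · -- adjacency
    intro w w'
    rw [← f.map_adj_iff]
    show (copies _ _).Adj (g (f w)) (g (f w')) ↔ _
    have hw := hcf w
    have hw' := hcf w'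
    rcases hfw : f w with ⟨v, o⟩
    rcases hfw' : f w' with ⟨v', o'⟩
    rw [hfw] at hw
    rw [hfw'] at hw'
    rcases o with _ | ⟨p, k⟩ <;> rcases o' with _ | ⟨p', k'⟩
    · rw [hg0, hg0]
      constructor
      · rintro ⟨h1, h2⟩; exact h2.elim
      · rintro (⟨h1, h2⟩ | ⟨p, q, h1, -⟩)
        · exact h2.elim
        · simp at h1
    · rw [hg0, hg1]
      have hz := es_map_zero (L := L) c (v', p') (Nat.lt_succ_iff.1 k'.isLt)
      constructor
      · rintro ⟨h1, h2⟩
        have h3 := hz.1.1 h2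
        have h4 := hz.2 h3
        refine Or.inl ⟨?_, h3⟩
        have h5 := E.injective h1
        rw [h4] at h5
        exact h5
      · rintro (⟨h1, h2⟩ | ⟨p, q, h1, -⟩)
        · refine ⟨?_, hz.1.2 h2⟩
          show E v = E _
          rw [hz.2 h2]
          exact congrArg E h1
        · simp at h1
    · rw [hg0, hg1]
      have hz := es_map_zero (L := L) c (v, p) (Nat.lt_succ_iff.1 k.isLt)
      constructor
      · rintro ⟨h1, h2⟩
        have h3 := hz.1.1 h2
        have h4 := hz.2 h3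
        refine Or.inl ⟨?_, h3⟩
        have h5 := E.injective h1
        rw [h4] at h5
        exact h5
      · rintro (⟨h1, h2⟩ | ⟨p, q, -, h1, -⟩)
        · refine ⟨?_, hz.1.2 h2⟩
          show E _ = E v'
          rw [hz.2 h2]
          exact congrArg E h1
        · simp at h1
    · rw [hg1, hg1]
      have hadj := es_map_adj hc (Nat.lt_succ_iff.1 k.isLt) (Nat.lt_succ_iff.1 k'.isLt)
        (hw p k rfl) (hw' p' k' rfl)
      constructor
      · rintro ⟨h1, h2, h3⟩
        have h5 := E.injective h1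
        rcases hadj.2 ⟨Prod.ext h5 h2, h3⟩ with ⟨h6, h7⟩ | ⟨h6, h7, h8⟩
        · exact Or.inl ⟨(Prod.ext_iff.1 h6).1, (Prod.ext_iff.1 h6).2, h7⟩
        · refine Or.inr ⟨p, p', ?_, ?_, h8⟩
          · show some (p, k) = some (p, Fin.last L)
            rw [show k = Fin.last L from Fin.ext h6]
          · show some (p', k') = some (p', Fin.last L)
            rw [show k' = Fin.last L from Fin.ext h7]
      · intro h
        have h1 : ((v, p) = (v', p') ∧ (k.val + 1 = k'.val ∨ k'.val + 1 = k.val)) ∨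
            (k.val = L ∧ k'.val = L ∧ Opp n (v, p) (v', p')) := by
          rcases h with ⟨h1, h2, h3⟩ | ⟨a, b, h1, h2, h3⟩
          · exact Or.inl ⟨Prod.ext h1 h2, h3⟩
          · have h4 := Option.some.inj h1
            have h5 := Option.some.inj h2
            right
            have e1 := (Prod.ext_iff.1 h4).1
            have e2 := (Prod.ext_iff.1 h4).2
            have e3 := (Prod.ext_iff.1 h5).1
            have e4 := (Prod.ext_iff.1 h5).2
            simp only at e1 e2 e3 e4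
            refine ⟨?_, ?_, ?_⟩
            · rw [e2]; rfl
            · rw [e4]; rfl
            · rw [e1, e3]; exact h3
        obtain ⟨h2, h3⟩ := hadj.1 h1
        exact ⟨congrArg (fun z => E z.1) h2, congrArg (fun z => z.2) h2, h3⟩

end Pool.Agent.MP_8b3902_co
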