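import Pool.Agent.Lib.MP_8b3902_co.F.Defs
import Pool.Agent.Lib.MP_8b3902_co.F.GadgetDefs
import Pool.Agent.Lib.MP_8b3902_co.F.EmbedS

set_option autoImplicit false

namespace Pool.Agent.MP_8b3902_co

open Classical

variable {V : Type}

/-- F28. The same for lspider nets. -/
theorem lspiderNet_embed {W : Type} [Fintype W] (H : SimpleGraph W) (L n : ℕ)
    (hL : Fintype.card W ≤ L) (f : H ↪g lspiderNet L n) :
    ∃ m L', Nonempty (H ↪g copies m (lspider L')) := by
  obtain ⟨c, hc, hcf⟩ := es_exists_cut hL (fun w => f w)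
    (fun q : Fin 3 × Fin (L + 1) => q) (fun a b h => h)
  obtain ⟨E⟩ : Nonempty ((Bool × Fin n × Fin n) ≃ Fin (Fintype.card (Bool × Fin n × Fin n))) :=
    ⟨Fintype.equivFin _⟩
  -- the map on all vertices
  obtain ⟨g, hg1⟩ : ∃ g : (Bool × Fin n × Fin n) × (Fin 3 × Fin (L + 1)) →
      Fin (Fintype.card (Bool × Fin n × Fin n)) × (Fin 3 × Fin (2 * (L + 1))),
      ∀ v p k, g (v, (p, k)) = (E (es_map L c (v, p) k.val).1.1,
        ((es_map L c (v, p) k.val).1.2,
          ⟨(es_map L c (v, p) k.val).2, es_map_lt c (v, p) (Nat.lt_succ_iff.1 k.isLt)⟩)) :=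
    ⟨fun x => (E (es_map L c (x.1, x.2.1) x.2.2.val).1.1,
        ((es_map L c (x.1, x.2.1) x.2.2.val).1.2,
          ⟨(es_map L c (x.1, x.2.1) x.2.2.val).2,
            es_map_lt c (x.1, x.2.1) (Nat.lt_succ_iff.1 x.2.2.isLt)⟩)), fun v p k => rfl⟩
  refine ⟨_, 2 * (L + 1), ⟨⟨⟨fun w => g (f w), ?_⟩, ?_⟩⟩⟩
  · -- injectivity
    intro w w' hww
    apply f.injective
    simp only at hww
    rcases hfw : f w with ⟨v, p, k⟩
    rcases hfw' : f w' with ⟨v', p', k'⟩
    rw [hfw, hfw', hg1, hg1] at hww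
    have h1 := E.injective (Prod.ext_iff.1 hww).1
    have h2 := (Prod.ext_iff.1 hww).2
    have h3 := (Prod.ext_iff.1 h2).1
    have h4 := (Prod.ext_iff.1 h2).2
    simp only at h1 h3 h4
    have h5 := es_map_inj (Nat.lt_succ_iff.1 k.isLt) (Nat.lt_succ_iff.1 k'.isLt)
      (Prod.ext h1 h3) (Fin.ext_iff.1 h4)
    obtain ⟨h6, h7⟩ := h5
    have h8 := (Prod.ext_iff.1 h6).1
    have h9 := (Prod.ext_iff.1 h6).2
    simp only at h8 h9
    rw [h8, h9, Fin.ext h7]
  · -- adjacency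
    intro w w'
    rw [← f.map_adj_iff]
    show (copies _ _).Adj (g (f w)) (g (f w')) ↔ _
    have hw := hcf w
    have hw' := hcf w'
    rcases hfw : f w with ⟨v, p, k⟩
    rcases hfw' : f w' with ⟨v', p', k'⟩
    rw [hfw] at hw
    rw [hfw'] at hw'
    rw [hg1, hg1]
    have hz := es_map_zero (L := L) c (v, p) (Nat.lt_succ_iff.1 k.isLt)
    have hz' := es_map_zero (L := L) c (v', p') (Nat.lt_succ_iff.1 k'.isLt)
    have hadj := es_map_adj hc (Nat.lt_succ_iff.1 k.isLt) (Nat.lt_succ_iff.1 k'.isLt)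
      (hw p k rfl) (hw' p' k' rfl)
    constructor
    · rintro ⟨h1, ⟨h2, h3⟩ | ⟨h2, h3, h4⟩⟩
      · have h5 := E.injective h1
        rcases hadj.2 ⟨Prod.ext h5 h2, h3⟩ with ⟨h6, h7⟩ | ⟨h6, h7, h8⟩
        · exact Or.inl ⟨(Prod.ext_iff.1 h6).1, Or.inl ⟨(Prod.ext_iff.1 h6).2, h7⟩⟩
        · refine Or.inr ⟨p, p', ?_, ?_, h8⟩
          · show (p, k) = (p, Fin.last L)
            rw [show k = Fin.last L from Fin.ext h6]
          · show (p', k') = (p', Fin.last L)
            rw [show k' = Fin.last L from Fin.ext h7]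
      · have h5 := E.injective h1
        have k0 := hz.1.1 h3
        have k0' := hz'.1.1 h4
        have e1 := hz.2 k0
        have e2 := hz'.2 k0'
        have h2' : (es_map L c (v, p) k.val).1.2 ≠ (es_map L c (v', p') k'.val).1.2 := h2
        rw [e1, e2] at h5 h2'
        exact Or.inl ⟨h5, Or.inr ⟨h2', k0, k0'⟩⟩
    · intro h
      by_cases h0 : v = v' ∧ p ≠ p' ∧ k.val = 0 ∧ k'.val = 0
      · obtain ⟨h1, h2, h3, h4⟩ := h0
        refine ⟨?_, Or.inr ⟨?_, hz.1.2 h3, hz'.1.2 h4⟩⟩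
        · show E _ = E _
          rw [hz.2 h3, hz'.2 h4]
          exact congrArg E h1
        · show (es_map L c (v, p) k.val).1.2 ≠ (es_map L c (v', p') k'.val).1.2
          rw [hz.2 h3, hz'.2 h4]
          exact h2
      have h1 : ((v, p) = (v', p') ∧ (k.val + 1 = k'.val ∨ k'.val + 1 = k.val)) ∨
          (k.val = L ∧ k'.val = L ∧ Opp n (v, p) (v', p')) := by
        rcases h with ⟨h1, ⟨h2, h3⟩ | ⟨h2, h3, h4⟩⟩ | ⟨a, b, h1, h2, h3⟩
        · exact Or.inl ⟨Prod.ext h1 h2, h3⟩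
        · exact absurd ⟨h1, h2, h3, h4⟩ h0
        · right
          have e1 := (Prod.ext_iff.1 h1).1
          have e2 := (Prod.ext_iff.1 h1).2
          have e3 := (Prod.ext_iff.1 h2).1
          have e4 := (Prod.ext_iff.1 h2).2
          simp only at e1 e2 e3 e4
          refine ⟨?_, ?_, ?_⟩
          · rw [e2]; rfl
          · rw [e4]; rfl
          · rw [e1, e3]; exact h3
      obtain ⟨h2, h3⟩ := hadj.1 h1
      exact ⟨congrArg (fun z => E z.1) h2, Or.inl ⟨congrArg (fun z => z.2) h2, h3⟩⟩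

end Pool.Agent.MP_8b3902_co
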