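import Pool.Agent.Lib.MP_8b3902_co.F.Defs

set_option autoImplicit false

namespace Pool.Agent.MP_8b3902_co

open Classical

variable {V : Type}

/-- `C` is the big component of `A \ Y` (with respect to `I`). -/
def IsBig (G : SimpleGraph V) (A : Set V) (I : Finset V) (Y C : Set V) : Prop :=
  ∃ u ∈ A \ Y, C = cc G (A \ Y) u ∧ 8 * (I.filter (fun i => i ∉ C)).card ≤ I.card

/-- F15a. -/
theorem exists_isBig {G : SimpleGraph V} {A : Set V} {I : Finset V} {c : ℕ} (h : Conc G A I c 8)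
    {Y : Set V} (hY : Small G Y c) : ∃ C, IsBig G A I Y C := by
  obtain ⟨u, hu, h8⟩ := h Y hY
  exact ⟨cc G (A \ Y) u, u, hu, rfl, h8⟩

/-- F15b. -/
theorem isBig_mono {G : SimpleGraph V} {A : Set V} {I : Finset V} (hI : I.Nonempty)
    {Y Y' C C' : Set V} (h : IsBig G A I Y C) (h' : IsBig G A I Y' C') (hY : Y ⊆ Y') :
    C' ⊆ C := by
  obtain ⟨u, hu, rfl, h8⟩ := h
  obtain ⟨u', hu', rfl, h8'⟩ := h'
  have hpos := hI.card_pos
  have hex : ∃ i ∈ I, i ∈ cc G (A \ Y) u ∧ i ∈ cc G (A \ Y') u' := by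
    by_contra hcon
    push Not at hcon
    have h1 : I.card ≤ (I.filter (fun i => i ∉ cc G (A \ Y) u)).card +
        (I.filter (fun i => i ∉ cc G (A \ Y') u')).card := by
      have h2 : I ⊆ (I.filter (fun i => i ∉ cc G (A \ Y) u)) ∪
          (I.filter (fun i => i ∉ cc G (A \ Y') u')) := by
        intro i hi
        rw [Finset.mem_union, Finset.mem_filter, Finset.mem_filter]
        by_cases h3 : i ∈ cc G (A \ Y) u
        · exact Or.inr ⟨hi, hcon i hi h3⟩
        · exact Or.inl ⟨hi, h3⟩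
      exact (Finset.card_le_card h2).trans (Finset.card_union_le _ _)
    omega
  obtain ⟨i, _, hi, hi'⟩ := hex
  have hsub : A \ Y' ⊆ A \ Y := fun x hx => ⟨hx.1, fun h => hx.2 (hY h)⟩
  exact subset_cc_of_conn ((cc_subset u').trans hsub) (fun x hx y hy => cc_conn hx hy) hi' hi

theorem Encl_near_boundary {G : SimpleGraph V} {A Q : Set V} {t : ℕ} {y : V}
    (h : Near G A Q t y) (hy : y ∉ Q) :
    Near G A {v | v ∈ Q ∧ ∃ w ∈ A, w ∉ Q ∧ G.Adj v w} t y := by
  obtain ⟨k, f, hk, h0, hfk, hadj, hA⟩ := h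
  -- the last index `i` with `f i ∈ Q`
  have hex : ∃ i, i ≤ k ∧ f i ∈ Q ∧ ∀ j, i < j → j ≤ k → f j ∉ Q := by
    have hne : ((Finset.range (k + 1)).filter (fun i => f i ∈ Q)).Nonempty :=
      ⟨0, by simp [h0]⟩
    refine ⟨((Finset.range (k + 1)).filter (fun i => f i ∈ Q)).max' hne, ?_, ?_, ?_⟩
    · have := Finset.max'_mem _ hne
      rw [Finset.mem_filter, Finset.mem_range] at this
      omega
    · have := Finset.max'_mem _ hne
      rw [Finset.mem_filter, Finset.mem_range] at this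
      exact this.2
    · intro j hj hjk hjQ
      have : j ∈ (Finset.range (k + 1)).filter (fun i => f i ∈ Q) := by
        rw [Finset.mem_filter, Finset.mem_range]
        exact ⟨by omega, hjQ⟩
      have := Finset.le_max' _ j this
      omega
  obtain ⟨i, hik, hiQ, hlast⟩ := hex
  have hik' : i < k := by
    rcases lt_or_eq_of_le hik with h | h
    · exact h
    · subst h
      rw [hfk] at hiQ
      exact absurd hiQ hy
  refine ⟨k - i, fun j => f (i + j), by omega, ?_, ?_, ?_, ?_⟩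
  · simp only [Nat.add_zero, Set.mem_setOf_eq]
    exact ⟨hiQ, f (i + 1), hA (i + 1) (by omega), hlast (i + 1) (by omega) (by omega),
      hadj i hik'⟩
  · simp only
    rw [show i + (k - i) = k by omega]
    exact hfk
  · intro j hj
    exact hadj (i + j) (by omega)
  · intro j hj
    exact hA (i + j) (by omega)

/-- F15c. One step of the enclosure construction. `Y` from `hleg` for `Q`, `C` the big component of
`A \ Y`, `Q'` the component of `A \ C` containing `Q`. -/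
theorem encl_step [Fintype V] {G : SimpleGraph V} {A : Set V} {I : Finset V} {g s t : ℕ}
    (hI : I.Nonempty) (hconc : Conc G A I g 8) (hgs : g ≤ s)
    (hleg : ∀ Q : Set V, Q ⊆ A → Cn G Q → ∃ Y : Set V, Small G Y g ∧ (∀ y ∈ Y, y ∉ Q) ∧
      ∀ q ∈ Q, ∀ y ∈ cc G (A \ Y) q, Near G A Q t y)
    (hnear : ∀ X : Set V, X ⊆ A → Small G X s →
      4 * (I.filter (fun x => Near G A X t x)).card < I.card)
    (Q : Set V) (hQA : Q ⊆ A) (hQ : Cn G Q) (hQne : Q.Nonempty)
    (hbd : Small G {v | v ∈ Q ∧ ∃ w ∈ A, w ∉ Q ∧ G.Adj v w} s)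
    (hQI : 8 * (I.filter (fun x => x ∈ Q)).card ≤ I.card) :
    ∃ Q' Y C : Set V, Q ⊆ Q' ∧ Q' ⊆ A ∧ Cn G Q' ∧
      (∀ v ∈ A, (∃ w ∈ Q, G.Adj w v) → v ∈ Q') ∧
      Small G {v | v ∈ Q' ∧ ∃ w ∈ A, w ∉ Q' ∧ G.Adj v w} s ∧
      8 * (I.filter (fun x => x ∈ Q')).card ≤ I.card ∧ Small G Y g ∧ IsBig G A I Y C ∧
      ∀ v ∈ Q', v ∉ C := by
  obtain ⟨Y, hYs, hYQ, hY⟩ := hleg Q hQA hQ
  obtain ⟨C, hC⟩ := exists_isBig hconc hYs
  have hC' := hC
  obtain ⟨u, hu, hCu, h8⟩ := hC'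
  have hpos := hI.card_pos
  have hQAY : Q ⊆ A \ Y := fun q hq => ⟨hQA hq, fun h => hYQ q h hq⟩
  -- `Q` and `C` are disjoint
  have hQC : ∀ q ∈ Q, q ∉ C := by
    intro q hq hqC
    have hCq : C = cc G (A \ Y) q := by
      rw [hCu] at hqC
      rw [hCu, cc_eq hqC]
    have h1 := hnear {v | v ∈ Q ∧ ∃ w ∈ A, w ∉ Q ∧ G.Adj v w} (fun v hv => hQA hv.1) hbd
    have h2 : I.card ≤ (I.filter (fun i => i ∉ C)).card + ((I.filter (fun x => x ∈ Q)).card +
        (I.filter (fun x => Near G A {v | v ∈ Q ∧ ∃ w ∈ A, w ∉ Q ∧ G.Adj v w} t x)).card) := by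
      have h3 : I ⊆ (I.filter (fun i => i ∉ C)) ∪ ((I.filter (fun x => x ∈ Q)) ∪
          (I.filter (fun x => Near G A {v | v ∈ Q ∧ ∃ w ∈ A, w ∉ Q ∧ G.Adj v w} t x))) := by
        intro i hi
        rw [Finset.mem_union, Finset.mem_union, Finset.mem_filter, Finset.mem_filter,
          Finset.mem_filter]
        by_cases hiC : i ∈ C
        · right
          by_cases hiQ : i ∈ Q
          · exact Or.inl ⟨hi, hiQ⟩
          · right
            refine ⟨hi, Encl_near_boundary (hY q hq i ?_) hiQ⟩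
            rw [← hCq]
            exact hiC
        · exact Or.inl ⟨hi, hiC⟩
      exact (Finset.card_le_card h3).trans ((Finset.card_union_le _ _).trans
        (Nat.add_le_add_left (Finset.card_union_le _ _) _))
    omega
  obtain ⟨q₀, hq₀⟩ := hQne
  have hQAC : Q ⊆ A \ C := fun q hq => ⟨hQA hq, hQC q hq⟩
  have hQQ' : Q ⊆ cc G (A \ C) q₀ :=
    subset_cc_of_conn hQAC hQ hq₀ (mem_cc_self (hQAC hq₀))
  have hQ'C : ∀ v ∈ cc G (A \ C) q₀, v ∉ C := fun v hv => ((cc_subset q₀) hv).2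
  refine ⟨cc G (A \ C) q₀, Y, C, hQQ', fun v hv => ((cc_subset q₀) hv).1,
    fun x hx y hy => cc_conn hx hy, ?_, ?_, ?_, hYs, hC, hQ'C⟩
  · rintro v hvA ⟨w, hwQ, hwv⟩
    have hvC : v ∉ C := by
      intro hvC
      apply hQC w hwQ
      rw [hCu] at hvC ⊢
      exact cc_closed hvC (hQAY hwQ) hwv.symm
    exact cc_closed (hQQ' hwQ) ⟨hvA, hvC⟩ hwv
  · refine small_mono ?_ hgs hYs
    rintro v ⟨hvQ', w, hwA, hwQ', hvw⟩
    by_contra hvY
    have hwC : w ∈ C := by
      by_contra hwC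
      exact hwQ' (cc_closed hvQ' ⟨hwA, hwC⟩ hvw)
    apply hQ'C v hvQ'
    have hvA : v ∈ A := ((cc_subset q₀) hvQ').1
    rw [hCu] at hwC ⊢
    exact cc_closed hwC ⟨hvA, hvY⟩ hvw.symm
  · refine le_trans (Nat.mul_le_mul_left _ (Finset.card_le_card ?_)) h8
    intro i hi
    rw [Finset.mem_filter] at hi ⊢
    exact ⟨hi.1, hQ'C i hi.2⟩

end Pool.Agent.MP_8b3902_co
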