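import Pool.Agent.Lib.MP_8b3902_co.F.Defs
import Pool.Agent.Lib.MP_8b3902_co.Knn

set_option autoImplicit false

namespace Pool.Agent.MP_8b3902_co

open Classical

variable {V : Type}

private theorem minor_reach {m : ℕ} (T : SimpleGraph (Fin m)) (B : Fin m → Finset V)
    (hC : ∀ v : V, (T.induce {t : Fin m | v ∈ B t}).Connected) (S : Set V) {v : V} (hv : v ∈ S)
    {s s' : Fin m} (hs : v ∈ B s) (hs' : v ∈ B s') :
    (T.induce {t : Fin m | ∃ x ∈ S, x ∈ B t}).Reachable ⟨s, v, hv, hs⟩ ⟨s', v, hv, hs'⟩ := by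
  have h := (hC v).preconnected ⟨s, hs⟩ ⟨s', hs'⟩
  have hle : {t : Fin m | v ∈ B t} ≤ {t : Fin m | ∃ x ∈ S, x ∈ B t} :=
    fun t ht => ⟨v, hv, ht⟩
  exact h.map (SimpleGraph.induceHomOfLE T hle).toHom

private theorem minor_walk {m : ℕ} (G : SimpleGraph V) (T : SimpleGraph (Fin m))
    (B : Fin m → Finset V)
    (hE : ∀ u v : V, G.Adj u v → ∃ t, u ∈ B t ∧ v ∈ B t)
    (hC : ∀ v : V, (T.induce {t : Fin m | v ∈ B t}).Connected) (S : Set V) {u v : V}
    (w : G.Walk u v) (hw : ∀ x ∈ w.support, x ∈ S) (hu : u ∈ S) (hv : v ∈ S)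
    {s s' : Fin m} (hs : u ∈ B s) (hs' : v ∈ B s') :
    (T.induce {t : Fin m | ∃ x ∈ S, x ∈ B t}).Reachable ⟨s, u, hu, hs⟩ ⟨s', v, hv, hs'⟩ := by
  induction w generalizing s with
  | nil => exact minor_reach T B hC S hu hs hs'
  | @cons a b c hab q ih =>
    obtain ⟨t, ht1, ht2⟩ := hE a b hab
    have hb : b ∈ S := hw b (by simp)
    have h1 := minor_reach T B hC S hu hs ht1
    have h2 := ih (fun x hx => hw x (by simp [hx])) hb hv ht2 hs'
    exact h1.trans h2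

/-- F23. A graph with a `K_{n,n}` minor given by the branch sets `P i`, `Q j` has a bag with at least
`n` vertices in every tree decomposition. (Apply `knn_bag` to the bags
`{inl i | P i meets B t} ∪ {inr j | Q j meets B t}`.) -/
theorem bag_of_minor [Fintype V] (G : SimpleGraph V) (n : ℕ) (P : Fin n ⊕ Fin n → Set V)
    (hne : ∀ a, (P a).Nonempty) (hc : ∀ a, Cn G (P a))
    (hdis : ∀ a b, a ≠ b → ∀ v ∈ P a, v ∉ P b)
    (hadj : ∀ i j, ∃ u ∈ P (Sum.inl i), ∃ v ∈ P (Sum.inr j), G.Adj u v)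
    (m : ℕ) (T : SimpleGraph (Fin m)) (B : Fin m → Finset V) (hT : T.IsTree)
    (hV : ∀ v : V, ∃ t, v ∈ B t)
    (hE : ∀ u v : V, G.Adj u v → ∃ t, u ∈ B t ∧ v ∈ B t)
    (hC : ∀ v : V, (T.induce {t : Fin m | v ∈ B t}).Connected) :
    ∃ t, n ≤ (B t).card := by
  set B' : Fin m → Finset (Fin n ⊕ Fin n) :=
    fun t => Finset.univ.filter (fun a => ∃ x ∈ P a, x ∈ B t) with hB'
  have hmem : ∀ t a, a ∈ B' t ↔ ∃ x ∈ P a, x ∈ B t := by
    intro t a
    simp [hB']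
  have key : ∃ t, n ≤ (B' t).card := by
    apply knn_bag n m T B' hT
    · intro u v huv
      rcases u with i | i <;> rcases v with j | j
      · simp at huv
      · obtain ⟨x, hx, y, hy, hxy⟩ := hadj i j
        obtain ⟨t, h1, h2⟩ := hE x y hxy
        exact ⟨t, (hmem _ _).2 ⟨x, hx, h1⟩, (hmem _ _).2 ⟨y, hy, h2⟩⟩
      · obtain ⟨x, hx, y, hy, hxy⟩ := hadj j i
        obtain ⟨t, h1, h2⟩ := hE x y hxy
        exact ⟨t, (hmem _ _).2 ⟨y, hy, h2⟩, (hmem _ _).2 ⟨x, hx, h1⟩⟩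
      · simp at huv
    · intro a
      have hset : {t : Fin m | a ∈ B' t} = {t : Fin m | ∃ x ∈ P a, x ∈ B t} := by
        ext t
        simp only [Set.mem_ofPred_eq]
        exact hmem t a
      rw [hset]
      obtain ⟨x, hx⟩ := hne a
      obtain ⟨t, ht⟩ := hV x
      have : Nonempty {t : Fin m | ∃ x ∈ P a, x ∈ B t} := ⟨⟨t, x, hx, ht⟩⟩
      refine ⟨?_⟩
      rintro ⟨s, u, hu, hs⟩ ⟨s', v, hv, hs'⟩
      obtain ⟨w, hw⟩ := hc a u hu v hv
      exact minor_walk G T B hE hC (P a) w hw hu hv hs hs'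
  obtain ⟨t, ht⟩ := key
  refine ⟨t, ht.trans ?_⟩
  rcases Finset.eq_empty_or_nonempty (B' t) with h0 | ⟨a0, ha0⟩
  · rw [h0]
    exact Nat.zero_le _
  have : Nonempty V := ⟨(hne a0).some⟩
  have hch : ∀ a ∈ B' t, ∃ x, x ∈ P a ∧ x ∈ B t := by
    intro a ha
    obtain ⟨x, hx1, hx2⟩ := (hmem t a).1 ha
    exact ⟨x, hx1, hx2⟩
  choose! f hf1 hf2 using hch
  apply Finset.card_le_card_of_injOn f
  · intro a ha
    exact hf2 a ha
  · intro a ha b hb hab
    by_contra hne'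
    refine hdis a b hne' (f a) (hf1 a ha) ?_
    rw [hab]
    exact hf1 b hb

end Pool.Agent.MP_8b3902_co
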