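import Pool.Agent.Lib.MP_8b3902_co.F.GadgetDefs
import Pool.Agent.Lib.MP_8b3902_co.F.Minor

set_option autoImplicit false

namespace Pool.Agent.MP_8b3902_co

open Classical

variable {V : Type}

private theorem gadget_copy {γ : Type} (Γ : SimpleGraph γ) (e : Fin 3 → γ) (n : ℕ)
    (c : Bool × Fin n × Fin n) (S : Set ((Bool × Fin n × Fin n) × γ))
    (hS : ∀ g, (c, g) ∈ S) {g g' : γ} (w : Γ.Walk g g') :
    Conn (gadget Γ e n) S (c, g) (c, g') := by
  induction w with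
  | nil => exact conn_refl (hS _)
  | @cons a b d hab q ih =>
    refine conn_trans (conn_adj (hS _) (hS _) ?_) ih
    exact Or.inl ⟨rfl, hab⟩

private theorem gadget_line {γ : Type} (Γ : SimpleGraph γ) (hΓ : ∀ x y, Conn Γ Set.univ x y)
    (e : Fin 3 → γ) (n : ℕ) (b : Bool) (i : Fin n) (j : ℕ) (hj : j < n) (g : γ) :
    Conn (gadget Γ e n) {x | x.1.1 = b ∧ x.1.2.1 = i} ((b, i, ⟨j, hj⟩), g)
      ((b, i, ⟨0, by omega⟩), e 0) := by
  have hc : ∀ (k : Fin n) (g g' : γ),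
      Conn (gadget Γ e n) {x | x.1.1 = b ∧ x.1.2.1 = i} ((b, i, k), g) ((b, i, k), g') := by
    intro k g g'
    obtain ⟨w, -⟩ := hΓ g g'
    exact gadget_copy Γ e n (b, i, k) {x | x.1.1 = b ∧ x.1.2.1 = i} (fun g => ⟨rfl, rfl⟩) w
  induction j generalizing g with
  | zero => exact hc _ _ _
  | succ j ih =>
    refine conn_trans (hc _ g (e 0)) ?_
    refine conn_trans ?_ (ih (by omega) (e 1))
    refine conn_adj ⟨rfl, rfl⟩ ⟨rfl, rfl⟩ ?_
    refine Or.inr ⟨0, 1, rfl, rfl, Or.inl ⟨rfl, rfl, Or.inr ⟨rfl, rfl, rfl⟩⟩⟩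

/-- F24. Gadget graphs have large treewidth. -/
theorem gadget_bag {γ : Type} [Fintype γ] (Γ : SimpleGraph γ) (hΓ : ∀ x y, Conn Γ Set.univ x y)
    (e : Fin 3 → γ) (n : ℕ)
    (m : ℕ) (T : SimpleGraph (Fin m)) (B : Fin m → Finset ((Bool × Fin n × Fin n) × γ))
    (hT : T.IsTree) (hV : ∀ v, ∃ t, v ∈ B t)
    (hE : ∀ u v, (gadget Γ e n).Adj u v → ∃ t, u ∈ B t ∧ v ∈ B t)
    (hC : ∀ v, (T.induce {t : Fin m | v ∈ B t}).Connected) :
    ∃ t, n ≤ (B t).card := by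
  have hline : ∀ (b : Bool) (i : Fin n),
      Cn (gadget Γ e n) {x | x.1.1 = b ∧ x.1.2.1 = i} := by
    intro b i
    rintro ⟨⟨b1, i1, j1⟩, g1⟩ ⟨h1, h1'⟩ ⟨⟨b2, i2, j2⟩, g2⟩ ⟨h2, h2'⟩
    simp only at h1 h1' h2 h2'
    subst h1 h1' h2 h2'
    exact conn_trans (gadget_line Γ hΓ e n _ _ j1.1 j1.2 g1)
      (conn_symm (gadget_line Γ hΓ e n _ _ j2.1 j2.2 g2))
  refine bag_of_minor (gadget Γ e n) n
    (fun a => match a with
      | Sum.inl i => {x | x.1.1 = false ∧ x.1.2.1 = i}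
      | Sum.inr j => {x | x.1.1 = true ∧ x.1.2.1 = j}) ?_ ?_ ?_ ?_ m T B hT hV hE hC
  · rintro (i | i)
    · exact ⟨((false, i, i), e 0), rfl, rfl⟩
    · exact ⟨((true, i, i), e 0), rfl, rfl⟩
  · rintro (i | i)
    · exact hline false i
    · exact hline true i
  · rintro (i | i) (j | j) hij v hv1 hv2
    · obtain ⟨-, h1⟩ := hv1
      obtain ⟨-, h2⟩ := hv2
      exact hij (by rw [← h1, ← h2])
    · obtain ⟨h1, -⟩ := hv1
      obtain ⟨h2, -⟩ := hv2
      rw [h1] at h2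
      exact absurd h2 (by decide)
    · obtain ⟨h1, -⟩ := hv1
      obtain ⟨h2, -⟩ := hv2
      rw [h1] at h2
      exact absurd h2 (by decide)
    · obtain ⟨-, h1⟩ := hv1
      obtain ⟨-, h2⟩ := hv2
      exact hij (by rw [← h1, ← h2])
  · intro i j
    refine ⟨((false, i, j), e 2), ⟨rfl, rfl⟩, ((true, j, i), e 2), ⟨rfl, rfl⟩, ?_⟩
    exact Or.inr ⟨2, 2, rfl, rfl, Or.inr ⟨rfl, rfl, by simp, rfl, rfl⟩⟩

/-- F25a. -/
theorem spider_conn (L : ℕ) : ∀ x y, Conn (spider (L + 1)) Set.univ x y := by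
  have h : ∀ x, Conn (spider (L + 1)) Set.univ x none := by
    rintro (_ | ⟨b, k, hk⟩)
    · exact conn_refl (Set.mem_univ _)
    · induction k with
      | zero =>
        exact conn_adj (Set.mem_univ _) (Set.mem_univ _) (by simp [spider])
      | succ k ih =>
        refine conn_trans (conn_adj (Set.mem_univ _) (Set.mem_univ _) ?_) (ih (by omega))
        simp [spider]
  intro x y
  exact conn_trans (h x) (conn_symm (h y))

/-- F25b. -/
theorem lspider_conn (L : ℕ) : ∀ x y, Conn (lspider (L + 1)) Set.univ x y := by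
  have h : ∀ x : Fin 3 × Fin (L + 1),
      Conn (lspider (L + 1)) Set.univ x (x.1, ⟨0, by omega⟩) := by
    rintro ⟨b, k, hk⟩
    induction k with
    | zero => exact conn_refl (Set.mem_univ _)
    | succ k ih =>
      refine conn_trans (conn_adj (Set.mem_univ _) (Set.mem_univ _) ?_) (ih (by omega))
      simp [lspider]
  intro x y
  refine conn_trans (h x) (conn_trans ?_ (conn_symm (h y)))
  by_cases hxy : x.1 = y.1
  · rw [hxy]
    exact conn_refl (Set.mem_univ _)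
  · refine conn_adj (Set.mem_univ _) (Set.mem_univ _) ?_
    exact Or.inr ⟨hxy, rfl, rfl⟩

end Pool.Agent.MP_8b3902_co
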