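import Pool.Agent.Lib.MP_8b3902_co.F.GadgetDefs

set_option autoImplicit false

namespace Pool.Agent.MP_8b3902_co

open Classical

variable {V : Type}

private theorem opp_unique (n : ℕ) {x y z : (Bool × Fin n × Fin n) × Fin 3}
    (h : Opp n x y) (h' : Opp n x z) : y = z := by
  obtain ⟨⟨b, i, j⟩, p⟩ := x
  obtain ⟨⟨b1, i1, j1⟩, p1⟩ := y
  obtain ⟨⟨b2, i2, j2⟩, p2⟩ := z
  simp only [Opp] at h h'
  rcases h with ⟨h1, h2, ⟨h3, h4, h5⟩ | ⟨h3, h4, h5⟩⟩ | ⟨h1, h2, h3, h4, h5⟩ <;>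
  rcases h' with ⟨k1, k2, ⟨k3, k4, k5⟩ | ⟨k3, k4, k5⟩⟩ | ⟨k1, k2, k3, k4, k5⟩
  · have : j1 = j2 := Fin.ext (by omega)
    subst h1 h2 k1 k2 this h4 k4
    rfl
  · rw [h3] at k3; exact absurd k3 (by decide)
  · rw [h3] at k1; exact absurd k1 (by decide)
  · rw [h3] at k3; exact absurd k3 (by decide)
  · have : j1 = j2 := Fin.ext (by omega)
    subst h1 h2 k1 k2 this h4 k4
    rfl
  · rw [h3] at k1; exact absurd k1 (by decide)
  · rw [h1] at k3; exact absurd k3 (by decide)
  · rw [h1] at k3; exact absurd k3 (by decide)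
  · have hb : b1 = b2 := by
      revert h3 k3
      cases b <;> cases b1 <;> cases b2 <;> simp
    subst hb h4 k4 h5 k5 h2 k2
    rfl

private theorem opp_ne (n : ℕ) {x y : (Bool × Fin n × Fin n) × Fin 3}
    (h : Opp n x y) : x.1 ≠ y.1 := by
  intro he
  rcases h with ⟨h1, h2, ⟨h3, h4, h5⟩ | ⟨h3, h4, h5⟩⟩ | ⟨h1, h2, h3, h4, h5⟩
  · rw [he] at h5; omega
  · rw [he] at h5; omega
  · rw [he] at h3; exact h3 rfl

private theorem opp_symm (n : ℕ) {x y : (Bool × Fin n × Fin n) × Fin 3}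
    (h : Opp n x y) : Opp n y x := by
  rcases h with ⟨h1, h2, h3 | h3⟩ | ⟨h1, h2, h3, h4, h5⟩
  · exact Or.inl ⟨h1.symm, h2.symm, Or.inr ⟨h3.2.1, h3.1, h3.2.2⟩⟩
  · exact Or.inl ⟨h1.symm, h2.symm, Or.inl ⟨h3.2.1, h3.1, h3.2.2⟩⟩
  · exact Or.inr ⟨h2, h1, fun h => h3 h.symm, h5.symm, h4.symm⟩

private theorem match_unique {γ : Type} (Γ : SimpleGraph γ) (e : Fin 3 → γ)
    (he : Function.Injective e) (n : ℕ) {x y z : (Bool × Fin n × Fin n) × γ}
    (h : (gadget Γ e n).Adj x y) (h' : (gadget Γ e n).Adj x z)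
    (hy : x.1 ≠ y.1) (hz : x.1 ≠ z.1) : y = z := by
  rcases h with ⟨h, -⟩ | ⟨p, q, hp, hq, h⟩
  · exact absurd h hy
  rcases h' with ⟨h', -⟩ | ⟨p', q', hp', hq', h'⟩
  · exact absurd h' hz
  have hpp : p = p' := he (by rw [← hp, ← hp'])
  subst hpp
  have := opp_unique n h h'
  rw [Prod.ext_iff] at this
  obtain ⟨h1, h2⟩ := this
  simp only at h1 h2
  refine Prod.ext h1 ?_
  rw [hq, hq', h2]

private theorem triangle_same {γ : Type} (Γ : SimpleGraph γ) (e : Fin 3 → γ)
    (he : Function.Injective e) (n : ℕ) {x y z : (Bool × Fin n × Fin n) × γ}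
    (hxy : (gadget Γ e n).Adj x y) (hxz : (gadget Γ e n).Adj x z)
    (hyz : (gadget Γ e n).Adj y z) : x.1 = y.1 := by
  by_contra hne
  by_cases h : x.1 = z.1
  · have h2 : y.1 ≠ z.1 := fun h2 => hne (h.trans h2.symm)
    have := match_unique Γ e he n hxy.symm hyz (fun h3 => hne h3.symm) h2
    rw [this] at hxz
    exact (gadget Γ e n).loopless.irrefl _ hxz
  · have := match_unique Γ e he n hxy hxz hne h
    rw [this] at hyz
    exact (gadget Γ e n).loopless.irrefl _ hyz

private theorem adj_same {γ : Type} (Γ : SimpleGraph γ) (e : Fin 3 → γ) (n : ℕ)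
    {x y : (Bool × Fin n × Fin n) × γ}
    (h : (gadget Γ e n).Adj x y) (hxy : x.1 = y.1) : Γ.Adj x.2 y.2 := by
  rcases h with ⟨-, h⟩ | ⟨p, q, hp, hq, h⟩
  · exact h
  · exact absurd hxy (opp_ne n h)

/-- F26a. -/
theorem spiderNet_cliqueFree (L n : ℕ) : (spiderNet L n).CliqueFree 3 := by
  rw [SimpleGraph.cliqueFree_iff]
  refine ⟨fun f => ?_⟩
  have hadj : ∀ i j : Fin 3, i ≠ j → (spiderNet L n).Adj (f i) (f j) := by
    intro i j hij
    exact f.toHom.map_adj hij
  have he : Function.Injective (fun p : Fin 3 => (some (p, Fin.last L) : Option (Fin 3 × Fin (L + 1)))) := by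
    intro a b hab
    simp only [Option.some.injEq, Prod.mk.injEq] at hab
    exact hab.1
  have h01 := hadj 0 1 (by decide)
  have h02 := hadj 0 2 (by decide)
  have h12 := hadj 1 2 (by decide)
  have s01 := triangle_same _ _ he n h01 h02 h12
  have s02 := triangle_same _ _ he n h02 h01 h12.symm
  have s12 := s01.symm.trans s02
  have a01 := adj_same _ _ n h01 s01
  have a02 := adj_same _ _ n h02 s02
  have a12 := adj_same _ _ n h12 s12
  generalize (f 0).2 = x at a01 a02
  generalize (f 1).2 = y at a01 a12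
  generalize (f 2).2 = z at a02 a12
  rcases x with _ | ⟨b1, k1⟩ <;> rcases y with _ | ⟨b2, k2⟩ <;> rcases z with _ | ⟨b3, k3⟩ <;>
    simp only [spider] at a01 a02 a12
  all_goals omega

/-- F26b. -/
theorem lspiderNet_cliqueFree (L n : ℕ) : (lspiderNet L n).CliqueFree 4 := by
  rw [SimpleGraph.cliqueFree_iff]
  refine ⟨fun f => ?_⟩
  have hadj : ∀ i j : Fin 4, i ≠ j → (lspiderNet L n).Adj (f i) (f j) := by
    intro i j hij
    exact f.toHom.map_adj hij
  have he : Function.Injective (fun p : Fin 3 => ((p, Fin.last L) : Fin 3 × Fin (L + 1))) := by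
    intro a b hab
    simp only [Prod.mk.injEq] at hab
    exact hab.1
  have same : ∀ i j k : Fin 4, i ≠ j → i ≠ k → j ≠ k → (f i).1 = (f j).1 := by
    intro i j k hij hik hjk
    exact triangle_same _ _ he n (hadj i j hij) (hadj i k hik) (hadj j k hjk)
  have ad : ∀ i j k : Fin 4, i ≠ j → i ≠ k → j ≠ k →
      (lspider (L + 1)).Adj (f i).2 (f j).2 := by
    intro i j k hij hik hjk
    exact adj_same _ _ n (hadj i j hij) (same i j k hij hik hjk)
  have leg : ∀ i j k : Fin 4, i ≠ j → i ≠ k → j ≠ k → (f i).2.1 ≠ (f j).2.1 := by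
    intro i j k hij hik hjk h
    have a1 := ad i j k hij hik hjk
    have a2 := ad i k j hik hij hjk.symm
    have a3 := ad j k i hjk hij.symm hik.symm
    generalize (f i).2 = x at *
    generalize (f j).2 = y at *
    generalize (f k).2 = z at *
    obtain ⟨b1, k1⟩ := x
    obtain ⟨b2, k2⟩ := y
    obtain ⟨b3, k3⟩ := z
    simp only [lspider] at a1 a2 a3 h
    omega
  have h01 := leg 0 1 2 (by decide) (by decide) (by decide)
  have h02 := leg 0 2 1 (by decide) (by decide) (by decide)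
  have h03 := leg 0 3 1 (by decide) (by decide) (by decide)
  have h12 := leg 1 2 0 (by decide) (by decide) (by decide)
  have h13 := leg 1 3 0 (by decide) (by decide) (by decide)
  have h23 := leg 2 3 0 (by decide) (by decide) (by decide)
  omega

end Pool.Agent.MP_8b3902_co
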