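import Pool.Agent.Lib.MP_8b3902_co.F.Defs
import Pool.Agent.Lib.MP_8b3902_co.F.EP

set_option autoImplicit false

namespace Pool.Agent.MP_8b3902_co

open Classical

variable {V : Type}

/-- F22. A graph without `m` anticomplete copies of `H` has a set of bounded independence number
hitting all copies of `H`. (`erdos_posa` for the family of ranges of embeddings `H ↪g G`.) -/
theorem hit_copies {W : Type} [Fintype W] (H : SimpleGraph W) (t m : ℕ) : ∃ g : ℕ,
    ∀ (V : Type) [Fintype V] (G : SimpleGraph V), Kfree G t → IsEmpty (copies m H ↪g G) →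
    ∃ Z : Set V, Small G Z g ∧ ∀ f : H ↪g G, ∃ w, f w ∈ Z := by
  obtain ⟨g, hg⟩ := erdos_posa t (Fintype.card W) m
  refine ⟨g, fun V _ G hK hE => ?_⟩
  obtain ⟨Z, hZ, hZ2⟩ := hg V G hK
    {S | ∃ f : H ↪g G, S = (Finset.univ : Finset W).map f.toEmbedding} (by
      rintro S ⟨f, rfl⟩
      rw [Finset.card_map, Finset.card_univ]) (by
      intro S hS
      choose f hf using hS
      by_contra hcon
      push Not at hcon
      have hmem : ∀ i w, f i w ∈ S i := by
        intro i w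
        rw [hf i, Finset.mem_map]
        exact ⟨w, Finset.mem_univ _, rfl⟩
      have hnt : ∀ i j w w', i ≠ j → f i w ≠ f j w' ∧ ¬ G.Adj (f i w) (f j w') := by
        intro i j w w' hij
        refine ⟨fun h => hcon i j hij ⟨f i w, hmem i w, f j w', hmem j w', Or.inl h⟩,
          fun h => hcon i j hij ⟨f i w, hmem i w, f j w', hmem j w', Or.inr h⟩⟩
      refine hE.false ⟨⟨fun x => f x.1 x.2, ?_⟩, ?_⟩
      · rintro ⟨i, w⟩ ⟨j, w'⟩ h
        by_cases hij : i = j
        · subst hij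
          have : w = w' := (f i).injective h
          rw [this]
        · exact absurd h (hnt i j w w' hij).1
      · rintro ⟨i, w⟩ ⟨j, w'⟩
        show G.Adj (f i w) (f j w') ↔ (i = j ∧ H.Adj w w')
        by_cases hij : i = j
        · subst hij
          rw [(f i).map_adj_iff]
          simp
        · constructor
          · intro h
            exact absurd h (hnt i j w w' hij).2
          · rintro ⟨h, _⟩
            exact absurd h hij)
  refine ⟨Z, hZ, fun f => ?_⟩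
  obtain ⟨v, hv, hvZ⟩ := hZ2 _ ⟨f, rfl⟩
  rw [Finset.mem_map] at hv
  obtain ⟨w, _, hw⟩ := hv
  refine ⟨w, ?_⟩
  have : f w = v := hw
  rw [this]
  exact hvZ

/-- F22b. -/
theorem spider_mono {a b : ℕ} (h : a ≤ b) : Nonempty (spider a ↪g spider b) := by
  refine ⟨⟨⟨fun x => x.map (fun p => (p.1, Fin.castLE h p.2)), ?_⟩, ?_⟩⟩
  · apply Option.map_injective
    rintro ⟨i, j⟩ ⟨i', j'⟩ hh
    simp only [Prod.mk.injEq] at hh
    rw [hh.1, Fin.castLE_injective h hh.2]
  · intro x y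
    rcases x with _ | p <;> rcases y with _ | q <;> exact Iff.rfl

/-- F22c. -/
theorem lspider_mono {a b : ℕ} (h : a ≤ b) : Nonempty (lspider a ↪g lspider b) := by
  refine ⟨⟨⟨fun p => (p.1, Fin.castLE h p.2), ?_⟩, ?_⟩⟩
  · rintro ⟨i, j⟩ ⟨i', j'⟩ hh
    simp only [Prod.mk.injEq] at hh
    rw [hh.1, Fin.castLE_injective h hh.2]
  · intro x y
    exact Iff.rfl

/-- F22d. -/
theorem copies_mono {W W' : Type} {H : SimpleGraph W} {H' : SimpleGraph W'} (f : H ↪g H')
    {a b : ℕ} (h : a ≤ b) : Nonempty (copies a H ↪g copies b H') := by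
  refine ⟨⟨⟨fun p => (Fin.castLE h p.1, f p.2), ?_⟩, ?_⟩⟩
  · rintro ⟨i, j⟩ ⟨i', j'⟩ hh
    simp only [Prod.mk.injEq] at hh
    rw [Fin.castLE_injective h hh.1, f.injective hh.2]
  · rintro ⟨i, w⟩ ⟨j, w'⟩
    show (Fin.castLE h i = Fin.castLE h j ∧ H'.Adj (f w) (f w')) ↔ (i = j ∧ H.Adj w w')
    rw [f.map_adj_iff, (Fin.castLE_injective h).eq_iff]

/-- F22e. -/
theorem kfree_mono {G : SimpleGraph V} {a b : ℕ} (h : a ≤ b) (hK : Kfree G a) : Kfree G b := by
  intro P Q hP hQ hP' hQ'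
  obtain ⟨P₁, hP₁, hP₁c⟩ := Finset.exists_subset_card_eq (s := P) (n := a) (by omega)
  obtain ⟨Q₁, hQ₁, hQ₁c⟩ := Finset.exists_subset_card_eq (s := Q) (n := a) (by omega)
  obtain ⟨p, hp, q, hq, hpq⟩ := hK P₁ Q₁ hP₁c hQ₁c
    (fun u hu w hw => hP' u (hP₁ hu) w (hP₁ hw)) (fun u hu w hw => hQ' u (hQ₁ hu) w (hQ₁ hw))
  exact ⟨p, hP₁ hp, q, hQ₁ hq, hpq⟩

end Pool.Agent.MP_8b3902_co
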