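import Pool.Agent.Lib.MP_8b3902_co.F.Defs
import Pool.Agent.Lib.MP_8b3902_co.F.Iid

set_option autoImplicit false

namespace Pool.Agent.MP_8b3902_co

open Classical

variable {V : Type}

theorem labels_ex_sub {Ω : Type} [Fintype Ω] (p : Ω → ℝ) (n : ℕ) (f g : (Fin n → Ω) → ℝ) :
    Ex p n (fun x => f x - g x) = Ex p n f - Ex p n g := by
  simp only [Ex, mul_sub, Finset.sum_sub_distrib]

theorem labels_ex_mul {Ω : Type} [Fintype Ω] (p : Ω → ℝ) (n : ℕ) (c : ℝ)
    (f : (Fin n → Ω) → ℝ) : Ex p n (fun x => c * f x) = c * Ex p n f := by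
  simp only [Ex, Finset.mul_sum]
  exact Finset.sum_congr rfl fun x _ => by ring

theorem labels_ex_sum {Ω α : Type} [Fintype Ω] (p : Ω → ℝ) (n : ℕ) (s : Finset α)
    (f : α → (Fin n → Ω) → ℝ) :
    Ex p n (fun x => ∑ a ∈ s, f a x) = ∑ a ∈ s, Ex p n (f a) := by
  simp only [Ex, Finset.mul_sum]
  exact Finset.sum_comm

/-- F5. Choice of labels. (Expectation over `n` independent labels `b k ∼ w` of
`|⋂ D (b k)| / |I| - (1/κ) ∑_{k ≠ l} d (b k) (b l)`, power mean inequality for the first term.) -/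
theorem exists_labels {β ι : Type} [Fintype β] [Fintype ι] (w : β → ℝ) (hw : ∀ b, 0 ≤ w b)
    (hw1 : ∑ b, w b = 1) (I : Finset ι) (hI : I.Nonempty) (D : β → Finset ι)
    (hDI : ∀ b, D b ⊆ I) (δ κ η : ℝ) (hδ : 0 < δ) (hδ1 : δ ≤ 1) (hκ : 0 < κ)
    (hD : ∀ b, δ * I.card ≤ (D b).card) (d : β → β → ℝ) (hd : ∀ b b', 0 ≤ d b b')
    (hdη : ∑ b, ∑ b', w b * w b' * d b b' ≤ η) (n : ℕ)
    (hη : 2 * (n : ℝ) * n * η ≤ δ ^ n * κ) :
    ∃ b : Fin n → β, δ ^ n / 2 * I.card ≤ ((I.filter (fun x => ∀ k, x ∈ D (b k))).card : ℝ) ∧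
      ∀ k l, k ≠ l → d (b k) (b l) ≤ κ := by
  have hN : (0 : ℝ) < I.card := by exact_mod_cast hI.card_pos
  have hη0 : 0 ≤ η := le_trans (Finset.sum_nonneg fun a _ => Finset.sum_nonneg fun b _ =>
    mul_nonneg (mul_nonneg (hw a) (hw b)) (hd a b)) hdη
  set c : (Fin n → β) → ℝ := fun b => ∑ x ∈ I, (1 / (I.card : ℝ)) *
    ∏ k, (if x ∈ D (b k) then (1 : ℝ) else 0) with hc
  set e : (Fin n → β) → ℝ := fun b =>
    ∑ q ∈ (Finset.univ : Finset (Fin n)).offDiag, d (b q.1) (b q.2) with he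
  have hcE : δ ^ n ≤ Ex w n c := by
    rw [hc, labels_ex_sum]
    simp only [labels_ex_mul]
    have h1 : ∀ x, Ex w n (fun b => ∏ k, (if x ∈ D (b k) then (1 : ℝ) else 0))
        = (∑ b, w b * (if x ∈ D b then (1 : ℝ) else 0)) ^ n := fun x =>
      ex_prod w n (fun b => if x ∈ D b then (1 : ℝ) else 0)
    simp only [h1]
    have h2 := Real.pow_arith_mean_le_arith_mean_pow I (fun _ => 1 / (I.card : ℝ))
      (fun x => ∑ b, w b * (if x ∈ D b then (1 : ℝ) else 0))
      (fun i _ => by positivity) (by rw [Finset.sum_const, nsmul_eq_mul]; field_simp)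
      (fun i _ => Finset.sum_nonneg fun b _ => mul_nonneg (hw b) (by split_ifs <;> simp)) n
    refine le_trans (pow_le_pow_left₀ hδ.le ?_ n) h2
    rw [← Finset.mul_sum, Finset.sum_comm]
    have h3 : ∀ b, ∑ x ∈ I, w b * (if x ∈ D b then (1 : ℝ) else 0) = w b * (D b).card := by
      intro b
      rw [← Finset.mul_sum, Finset.sum_boole]
      congr 2
      congr 1
      ext x
      simp only [Finset.mem_filter]
      exact ⟨fun h => h.2, fun h => ⟨hDI b h, h⟩⟩
    simp only [h3]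
    have h4 : δ * I.card ≤ ∑ b, w b * (D b).card := by
      calc δ * I.card = ∑ b, w b * (δ * I.card) := by rw [← Finset.sum_mul, hw1, one_mul]
        _ ≤ ∑ b, w b * (D b).card :=
          Finset.sum_le_sum fun b _ => mul_le_mul_of_nonneg_left (hD b) (hw b)
    rw [one_div, ← div_eq_inv_mul, le_div_iff₀ hN]
    exact h4
  have heE : Ex w n e ≤ n * n * η := by
    rw [he, labels_ex_sum]
    have h1 : ∀ q ∈ (Finset.univ : Finset (Fin n)).offDiag,
        Ex w n (fun b => d (b q.1) (b q.2)) ≤ η := by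
      intro q hq
      rw [Finset.mem_offDiag] at hq
      rw [ex_pair w hw1 n d hq.2.2]
      exact hdη
    refine (Finset.sum_le_sum h1).trans ?_
    rw [Finset.sum_const, nsmul_eq_mul]
    refine mul_le_mul_of_nonneg_right ?_ hη0
    have : (Finset.univ : Finset (Fin n)).offDiag.card ≤ n * n := by
      rw [Finset.offDiag_card]
      simp
    exact_mod_cast this
  obtain ⟨b, hb⟩ := exists_ge_ex w hw hw1 n (fun b => c b - 1 / κ * e b)
  rw [labels_ex_sub, labels_ex_mul] at hb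
  have hlow : δ ^ n / 2 ≤ c b - 1 / κ * e b := by
    refine le_trans ?_ hb
    have h1 : 1 / κ * Ex w n e ≤ δ ^ n / 2 := by
      rw [one_div, ← div_eq_inv_mul, div_le_iff₀ hκ]
      nlinarith
    linarith
  have hcb : c b = ((I.filter (fun x => ∀ k, x ∈ D (b k))).card : ℝ) / I.card := by
    rw [hc]
    simp only
    rw [← Finset.mul_sum, one_div, ← div_eq_inv_mul]
    congr 1
    rw [← Finset.sum_boole]
    refine Finset.sum_congr rfl fun x _ => ?_
    by_cases hx : ∀ k, x ∈ D (b k)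
    · rw [if_pos hx]
      exact Finset.prod_eq_one fun k _ => if_pos (hx k)
    · rw [if_neg hx]
      push Not at hx
      obtain ⟨k, hk⟩ := hx
      exact Finset.prod_eq_zero (Finset.mem_univ k) (if_neg hk)
  have he0 : 0 ≤ e b := Finset.sum_nonneg fun q _ => hd _ _
  have hcle : c b ≤ 1 := by
    rw [hcb, div_le_one hN]
    exact_mod_cast Finset.card_filter_le _ _
  have hδn : 0 < δ ^ n := pow_pos hδ n
  refine ⟨b, ?_, ?_⟩
  · have h1 : 0 ≤ 1 / κ * e b := by positivity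
    have h2 : δ ^ n / 2 ≤ c b := by linarith
    rwa [hcb, le_div_iff₀ hN] at h2
  · intro k l hkl
    have h1 : d (b k) (b l) ≤ e b :=
      Finset.single_le_sum (f := fun q : Fin n × Fin n => d (b q.1) (b q.2)) (a := (k, l))
        (fun q _ => hd _ _) (Finset.mem_offDiag.2 ⟨Finset.mem_univ k, Finset.mem_univ l, hkl⟩)
    have h2 : 1 / κ * e b ≤ 1 := by linarith
    rw [one_div, ← div_eq_inv_mul, div_le_one hκ] at h2
    exact h1.trans h2

end Pool.Agent.MP_8b3902_co
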