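import Pool.Agent.Lib.MP_8b3902_co.F.Defs

set_option autoImplicit false

namespace Pool.Agent.MP_8b3902_co

open Classical

variable {V : Type}

theorem pat_greedy {K X : Type} (T : X → Finset K) (Q : X → Prop) (N M : ℕ)
    (h : ∀ S : Finset K, N ≤ S.card → ∃ x, T x ⊆ S ∧ (T x).card ≤ M ∧ Q x) :
    ∀ (c : ℕ) (S : Finset K), N + c * M ≤ S.card → ∃ f : ℕ → X, (∀ i < c, T (f i) ⊆ S ∧ Q (f i)) ∧
      ∀ i < c, ∀ j < c, i ≠ j → Disjoint (T (f i)) (T (f j)) := by
  intro c
  induction c with
  | zero =>
    intro S hS
    obtain ⟨x, -⟩ := h S (by omega)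
    exact ⟨fun _ => x, by intro i hi; omega, by intro i hi; omega⟩
  | succ c ih =>
    intro S hS
    have hS' : N + (c * M + M) ≤ S.card := by
      have : (c + 1) * M = c * M + M := by ring
      omega
    obtain ⟨x, hx1, hx2, hx3⟩ := h S (by omega)
    have hc : N + c * M ≤ (S \ T x).card := by
      have h1 := Finset.card_sdiff_add_card_eq_card hx1
      omega
    obtain ⟨f, hf1, hf2⟩ := ih (S \ T x) hc
    refine ⟨fun i => if i = c then x else f i, ?_, ?_⟩
    · intro i hi
      by_cases hic : i = c
      · simp only [hic, if_true]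
        exact ⟨hx1, hx3⟩
      · simp only [hic, if_false]
        obtain ⟨h1, h2⟩ := hf1 i (by omega)
        exact ⟨h1.trans Finset.sdiff_subset, h2⟩
    · intro i hi j hj hij
      by_cases hic : i = c
      · have hjc : j ≠ c := fun h => hij (hic.trans h.symm)
        simp only [hic, hjc, if_true, if_false]
        have := (hf1 j (by omega)).1
        rw [Finset.disjoint_left]
        intro a ha hb
        exact (Finset.mem_sdiff.1 (this hb)).2 ha
      · by_cases hjc : j = c
        · simp only [hic, hjc, if_true, if_false]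
          have := (hf1 i (by omega)).1
          rw [Finset.disjoint_left]
          intro a ha hb
          exact (Finset.mem_sdiff.1 (this ha)).2 hb
        · simp only [hic, hjc, if_false]
          exact hf2 i (by omega) j (by omega) hij

/-- a pattern with legs of lengths `l b` -/
structure Pat {K Λ : Type} (R : Λ → K → K → Prop) (lab : Fin 3 → ℕ → Λ) (l : Fin 3 → ℕ)
    (T : Finset K) (r : K) (q : Fin 3 → ℕ → K) : Prop where
  hr : r ∈ T
  hq : ∀ b, ∀ i < l b, q b i ∈ T
  hne : ∀ b, ∀ i < l b, q b i ≠ r
  hinj : ∀ b b', ∀ i < l b, ∀ i' < l b', q b i = q b' i' → b = b' ∧ i = i'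
  h0 : ∀ b, 0 < l b → R (lab b 0) r (q b 0)
  hs : ∀ b i, i + 1 < l b → R (lab b (i + 1)) (q b i) (q b (i + 1))

theorem pat_aux (s : ℕ) : ∀ (n : ℕ) (l : Fin 3 → ℕ), l 0 + l 1 + l 2 = n → ∃ N M : ℕ,
    ∀ (K Λ : Type) (R : Λ → K → K → Prop), (∀ k, Dense s (R k)) → ∀ (lab : Fin 3 → ℕ → Λ)
    (S : Finset K), N ≤ S.card → ∃ x : Finset K × K × (Fin 3 → ℕ → K), x.1 ⊆ S ∧ x.1.card ≤ M ∧
      Pat R lab l x.1 x.2.1 x.2.2 := by
  intro n
  induction n with
  | zero =>
    intro l hl
    have hl0 : ∀ b, l b = 0 := by
      intro b
      fin_cases b <;> simp <;> omega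
    refine ⟨1, 1, ?_⟩
    intro K Λ R hR lab S hS
    obtain ⟨r, hr⟩ : S.Nonempty := Finset.card_pos.1 (by omega)
    refine ⟨⟨{r}, r, fun _ _ => r⟩, by simpa using hr, by simp, ?_⟩
    constructor
    · simp
    · intro b i hi
      simp
    · intro b i hi
      rw [hl0 b] at hi
      omega
    · intro b b' i hi
      rw [hl0 b] at hi
      omega
    · intro b hb
      rw [hl0 b] at hb
      omega
    · intro b i hi
      rw [hl0 b] at hi
      omega
  | succ n ih =>
    intro l hl
    obtain ⟨b0, hb0⟩ : ∃ b0, 0 < l b0 := by
      by_contra hcon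
      push Not at hcon
      have h0 := hcon 0
      have h1 := hcon 1
      have h2 := hcon 2
      omega
    obtain ⟨N, M, hNM⟩ := ih (Function.update l b0 (l b0 - 1)) (by
      fin_cases b0 <;> simp [Function.update] at hb0 ⊢ <;> omega)
    refine ⟨N + (s + 1) * M, M + M, ?_⟩
    intro K Λ R hR lab S hS
    obtain ⟨f, hf1, hf2⟩ := pat_greedy (X := Finset K × K × (Fin 3 → ℕ → K)) (fun x => x.1)
      (fun x => x.1.card ≤ M ∧ Pat R (fun b i => if b = b0 then lab b (i + 1) else lab b i)
        (Function.update l b0 (l b0 - 1)) x.1 x.2.1 x.2.2) N M (by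
        intro S' hS'
        obtain ⟨x, hx1, hx2, hx3⟩ := hNM K Λ R hR
          (fun b i => if b = b0 then lab b (i + 1) else lab b i) S' hS'
        exact ⟨x, hx1, hx2, hx2, hx3⟩) (s + 1) S hS
    have hinjr : Set.InjOn (fun i => (f i).2.1) (Finset.range (s + 1) : Set ℕ) := by
      intro i hi j hj hij
      by_contra hne
      have h1 := hf2 i (by simpa using hi) j (by simpa using hj) hne
      have h2 := (hf1 i (by simpa using hi)).2.2.hr
      have h3 := (hf1 j (by simpa using hj)).2.2.hr
      simp only at hij
      rw [← hij] at h3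
      exact (Finset.disjoint_left.1 h1) h2 h3
    obtain ⟨u, hu, v, hv, huv, hRuv⟩ := hR (lab b0 0) ((Finset.range (s + 1)).image
      (fun i => (f i).2.1)) (by rw [Finset.card_image_of_injOn hinjr, Finset.card_range])
    simp only [Finset.mem_image, Finset.mem_range] at hu hv
    obtain ⟨i, hi, rfl⟩ := hu
    obtain ⟨j, hj, rfl⟩ := hv
    have hij : i ≠ j := by
      rintro rfl
      exact huv rfl
    have hd := hf2 i hi j hj hij
    obtain ⟨hi1, hi2, Pi⟩ := hf1 i hi
    obtain ⟨hj1, hj2, Pj⟩ := hf1 j hj
    have hdis : ∀ a ∈ (f i).1, ∀ b ∈ (f j).1, a ≠ b := by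
      intro a ha b hb hab
      rw [← hab] at hb
      exact (Finset.disjoint_left.1 hd) ha hb
    -- new pattern
    have e1 : Function.update l b0 (l b0 - 1) b0 = l b0 - 1 := by simp
    have e2 : ∀ b, b ≠ b0 → Function.update l b0 (l b0 - 1) b = l b := by
      intro b hb
      simp [Function.update, hb]
    refine ⟨⟨(f i).1 ∪ (f j).1, (f i).2.1, fun b k => if b = b0 then
      (if k = 0 then (f j).2.1 else (f j).2.2 b0 (k - 1)) else (f i).2.2 b k⟩,
      Finset.union_subset hi1 hj1, (Finset.card_union_le _ _).trans (by omega), ?_⟩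
    -- membership facts
    have m1 : ∀ k < l b0, (if k = 0 then (f j).2.1 else (f j).2.2 b0 (k - 1)) ∈ (f j).1 := by
      intro k hk
      by_cases hk0 : k = 0
      · simp only [hk0, if_true]
        exact Pj.hr
      · simp only [hk0, if_false]
        exact Pj.hq b0 (k - 1) (by rw [e1]; omega)
    have m2 : ∀ b, b ≠ b0 → ∀ k < l b, (f i).2.2 b k ∈ (f i).1 := by
      intro b hb k hk
      exact Pi.hq b k (by rw [e2 b hb]; exact hk)
    constructor
    · exact Finset.mem_union_left _ Pi.hr
    · intro b k hk
      by_cases hb : b = b0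
      · subst hb
        simp only [if_true]
        exact Finset.mem_union_right _ (m1 k hk)
      · simp only [hb, if_false]
        exact Finset.mem_union_left _ (m2 b hb k hk)
    · intro b k hk
      by_cases hb : b = b0
      · subst hb
        simp only [if_true]
        exact (hdis _ Pi.hr _ (m1 k hk)).symm
      · simp only [hb, if_false]
        exact Pi.hne b k (by rw [e2 b hb]; exact hk)
    · intro b b' k hk k' hk' heq
      by_cases hb : b = b0
      · subst hb
        by_cases hb' : b' = b
        · subst hb'
          simp only [if_true] at heq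
          refine ⟨rfl, ?_⟩
          by_cases hk0 : k = 0
          · by_cases hk0' : k' = 0
            · rw [hk0, hk0']
            · simp only [hk0, hk0', if_true, if_false] at heq
              exact absurd heq.symm (Pj.hne b' (k' - 1) (by rw [e1]; omega))
          · by_cases hk0' : k' = 0
            · simp only [hk0, hk0', if_true, if_false] at heq
              exact absurd heq (Pj.hne b' (k - 1) (by rw [e1]; omega))
            · simp only [hk0, hk0', if_false] at heq
              have := (Pj.hinj b' b' (k - 1) (by rw [e1]; omega) (k' - 1) (by rw [e1]; omega) heq).2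
              omega
        · simp only [hb', if_true, if_false] at heq
          exact absurd heq.symm (hdis _ (m2 b' hb' k' hk') _ (m1 k hk))
      · by_cases hb' : b' = b0
        · subst hb'
          simp only [hb, if_true, if_false] at heq
          exact absurd heq (hdis _ (m2 b hb k hk) _ (m1 k' hk'))
        · simp only [hb, hb', if_false] at heq
          exact Pi.hinj b b' k (by rw [e2 b hb]; exact hk) k' (by rw [e2 b' hb']; exact hk') heq
    · intro b hlb
      by_cases hb : b = b0
      · subst hb
        simp only [if_true]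
        exact hRuv
      · simp only [hb, if_false]
        have := Pi.h0 b (by rw [e2 b hb]; exact hlb)
        simpa only [hb, if_false] using this
    · intro b k hk
      by_cases hb : b = b0
      · subst hb
        simp only [if_true]
        by_cases hk0 : k = 0
        · subst hk0
          have := Pj.h0 b (by rw [e1]; omega)
          simpa using this
        · have := Pj.hs b (k - 1) (by rw [e1]; omega)
          have e3 : k - 1 + 1 = k := by omega
          rw [e3] at this
          simpa [hk0] using this
      · simp only [hb, if_false]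
        have := Pi.hs b k (by rw [e2 b hb]; exact hk)
        simpa only [hb, if_false] using this

/-- F11. Rainbow spider pattern in a family of dense relations. Proof by induction on the total
length of the three legs (prove it for legs of lengths `l₁ l₂ l₃`, labels given by functions): if the
first edge of a leg is removed, there are `s + 1` disjoint copies of the smaller pattern, and the
relation `R k` of the removed edge holds between the roots `r`, `r'` of two of them; take root `r`
with the other two legs of its copy, and as third leg `r'` followed by the third leg of the copy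
of `r'`. -/
theorem exists_pattern (s l : ℕ) : ∃ N : ℕ, ∀ (K Λ : Type) [Fintype K] (R : Λ → K → K → Prop),
    (∀ k, Dense s (R k)) → ∀ lab : Fin 3 → ℕ → Λ, N ≤ Fintype.card K →
    ∃ (r : K) (q : Fin 3 → ℕ → K), (∀ b, ∀ i < l, q b i ≠ r) ∧
      (∀ b b', ∀ i < l, ∀ i' < l, q b i = q b' i' → b = b' ∧ i = i') ∧
      (∀ b, 0 < l → R (lab b 0) r (q b 0)) ∧
      ∀ b i, i + 1 < l → R (lab b (i + 1)) (q b i) (q b (i + 1)) := by
  obtain ⟨N, M, h⟩ := pat_aux s (l + l + l) (fun _ => l) rfl
  refine ⟨N, ?_⟩
  intro K Λ _ R hR lab hN
  obtain ⟨⟨T, r, q⟩, -, -, P⟩ := h K Λ R hR lab Finset.univ (by simpa using hN)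
  exact ⟨r, q, P.hne, P.hinj, P.h0, P.hs⟩

end Pool.Agent.MP_8b3902_co
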