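import Pool.Agent.Lib.MP_8b3902_co.F.Defs
import Pool.Agent.Lib.MP_8b3902_co.F.Spread
import Pool.Agent.Lib.MP_8b3902_co.F.Pair
import Pool.Agent.Lib.MP_8b3902_co.F.Labels
import Pool.Agent.Lib.MP_8b3902_co.F.Pattern
import Pool.Agent.Lib.MP_8b3902_co.F.Blobs

set_option autoImplicit false

namespace Pool.Agent.MP_8b3902_co

open Classical

variable {V : Type}

/-- the vertex set of a short path witnessing `Near`. -/
theorem near_data {G : SimpleGraph V} {B X : Set V} {ρ : ℕ} {x : V} (h : Near G B X ρ x) :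
    ∃ (F : Finset V) (c : V), F.card ≤ ρ + 1 ∧ x ∈ F ∧ c ∈ F ∧ c ∈ X ∧ Cn G (F : Set V) ∧
      ∀ v ∈ F, v ∈ B := by
  obtain ⟨k, f, hk, h0, h1, h2, h3⟩ := h
  have hmem : ∀ i ≤ k, f i ∈ (Finset.range (k + 1)).image f := fun i hi =>
    Finset.mem_image_of_mem f (Finset.mem_range.2 (by omega))
  have hconn : ∀ i ≤ k, Conn G (((Finset.range (k + 1)).image f : Finset V) : Set V) (f 0) (f i) := by
    intro i
    induction i with
    | zero => intro _; exact conn_refl (Finset.mem_coe.2 (hmem 0 (Nat.zero_le k)))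
    | succ i ih =>
      intro hi
      exact conn_trans (ih (by omega)) (conn_adj (Finset.mem_coe.2 (hmem i (by omega)))
        (Finset.mem_coe.2 (hmem (i + 1) hi)) (h2 i (by omega)))
  refine ⟨(Finset.range (k + 1)).image f, f 0, ?_, ?_, hmem 0 (Nat.zero_le k), h0, ?_, ?_⟩
  · exact (Finset.card_image_le).trans (by rw [Finset.card_range]; omega)
  · rw [← h1]
    exact hmem k le_rfl
  · intro u hu v hv
    rw [Finset.mem_coe, Finset.mem_image] at hu hv
    obtain ⟨i, hi, rfl⟩ := hu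
    obtain ⟨j, hj, rfl⟩ := hv
    rw [Finset.mem_range] at hi hj
    exact conn_trans (conn_symm (hconn i (by omega))) (hconn j (by omega))
  · intro v hv
    rw [Finset.mem_image] at hv
    obtain ⟨i, hi, rfl⟩ := hv
    rw [Finset.mem_range] at hi
    exact h3 i (by omega)

/-- Sampling points: many pairwise good points in `⋂ D (b k)`. -/
theorem sample_points [Fintype V] (G : SimpleGraph V) {n : ℕ} (F : Fin n → V → Finset V)
    (I J : Finset V) (D : Fin n → Finset V) (hJD : ∀ x ∈ J, ∀ k, x ∈ D k)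
    (δ κ : ℝ) (hδ : 0 < δ) (hI : I.Nonempty) (hJ : δ * I.card ≤ J.card) (hκ : 0 < κ)
    (hd : ∀ k l, k ≠ l → ((((D k) ×ˢ (D l)).filter
      (fun z => Touch G (F k z.1 : Set V) (F l z.2 : Set V))).card : ℝ) ≤ κ * I.card ^ 2)
    (K : ℕ) (hK : (K : ℝ) * K * (n * n * κ / δ ^ 2) < 1) :
    ∃ x : Fin K → V, (∀ i, x i ∈ J) ∧ ∀ i j, i ≠ j → ∀ k l, k ≠ l →
      ¬ Touch G (F k (x i) : Set V) (F l (x j) : Set V) := by
  have hIpos : (0 : ℝ) < I.card := by exact_mod_cast hI.card_pos
  have hJpos : (0 : ℝ) < J.card := lt_of_lt_of_le (mul_pos hδ hIpos) hJ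
  have hJne : J.Nonempty := by
    rw [← Finset.card_pos]
    exact_mod_cast hJpos
  let B : (↥J) → (↥J) → Prop := fun x x' =>
    ∃ k l, k ≠ l ∧ Touch G (F k x.1 : Set V) (F l x'.1 : Set V)
  have hB : ∑ x : ↥J, ∑ x' : ↥J, (if B x x' then (1 / (J.card : ℝ)) * (1 / (J.card : ℝ)) else 0) ≤
      n * n * κ / δ ^ 2 := by
    -- number of bad pairs
    have h1 : ∑ x : ↥J, ∑ x' : ↥J, (if B x x' then (1 / (J.card : ℝ)) * (1 / (J.card : ℝ)) else 0) =
        (((Finset.univ : Finset (↥J × ↥J)).filter (fun z => B z.1 z.2)).card : ℝ) *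
          ((1 / (J.card : ℝ)) * (1 / (J.card : ℝ))) := by
      rw [← Fintype.sum_prod_type' (f := fun x x' =>
        (if B x x' then (1 / (J.card : ℝ)) * (1 / (J.card : ℝ)) else 0))]
      rw [← Finset.sum_filter, Finset.sum_const, nsmul_eq_mul]
    have h2 : (((Finset.univ : Finset (↥J × ↥J)).filter (fun z => B z.1 z.2)).card : ℝ) ≤
        ∑ k : Fin n, ∑ l : Fin n, (κ * I.card ^ 2) := by
      have h3 : ((Finset.univ : Finset (↥J × ↥J)).filter (fun z => B z.1 z.2)).card ≤
          ∑ k : Fin n, ∑ l : Fin n, (if k = l then 0 else (((D k) ×ˢ (D l)).filter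
            (fun z => Touch G (F k z.1 : Set V) (F l z.2 : Set V))).card) := by
        have h4 : ((Finset.univ : Finset (↥J × ↥J)).filter (fun z => B z.1 z.2)) ⊆
            (Finset.univ : Finset (Fin n × Fin n)).biUnion (fun kl =>
              (Finset.univ : Finset (↥J × ↥J)).filter (fun z => kl.1 ≠ kl.2 ∧
                Touch G (F kl.1 z.1.1 : Set V) (F kl.2 z.2.1 : Set V))) := by
          intro z hz
          rw [Finset.mem_filter] at hz
          obtain ⟨k, l, hkl, htouch⟩ := hz.2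
          rw [Finset.mem_biUnion]
          exact ⟨(k, l), Finset.mem_univ _, Finset.mem_filter.2 ⟨Finset.mem_univ _, hkl, htouch⟩⟩
        refine (Finset.card_le_card h4).trans (Finset.card_biUnion_le.trans ?_)
        rw [Fintype.sum_prod_type]
        refine Finset.sum_le_sum (fun k _ => Finset.sum_le_sum (fun l _ => ?_))
        by_cases hkl : k = l
        · rw [if_pos hkl]
          simp [hkl]
        · rw [if_neg hkl]
          refine Finset.card_le_card_of_injOn (fun z => (z.1.1, z.2.1)) ?_ ?_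
          · intro z hz
            rw [Finset.mem_coe, Finset.mem_filter] at hz
            rw [Finset.mem_coe, Finset.mem_filter, Finset.mem_product]
            exact ⟨⟨hJD _ z.1.2 k, hJD _ z.2.2 l⟩, hz.2.2⟩
          · intro z _ z' _ hzz'
            simp only [Prod.mk.injEq] at hzz'
            exact Prod.ext (Subtype.ext hzz'.1) (Subtype.ext hzz'.2)
      have h5 : (((Finset.univ : Finset (↥J × ↥J)).filter (fun z => B z.1 z.2)).card : ℝ) ≤
          ((∑ k : Fin n, ∑ l : Fin n, (if k = l then 0 else (((D k) ×ˢ (D l)).filter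
            (fun z => Touch G (F k z.1 : Set V) (F l z.2 : Set V))).card) : ℕ) : ℝ) := by
        exact_mod_cast h3
      refine h5.trans ?_
      push_cast
      refine Finset.sum_le_sum (fun k _ => Finset.sum_le_sum (fun l _ => ?_))
      by_cases hkl : k = l
      · rw [if_pos hkl]
        positivity
      · rw [if_neg hkl]
        exact hd k l hkl
    rw [h1]
    simp only [Finset.sum_const, Finset.card_univ, Fintype.card_fin, nsmul_eq_mul] at h2
    have h6 : (1 / (J.card : ℝ)) * (1 / (J.card : ℝ)) ≤ 1 / (δ * I.card) ^ 2 := by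
      rw [div_mul_div_comm, one_mul, ← sq]
      exact one_div_le_one_div_of_le (by positivity) (pow_le_pow_left₀ (by positivity) hJ 2)
    calc (((Finset.univ : Finset (↥J × ↥J)).filter (fun z => B z.1 z.2)).card : ℝ) *
          ((1 / (J.card : ℝ)) * (1 / (J.card : ℝ)))
        ≤ (n * (n * (κ * I.card ^ 2))) * (1 / (δ * I.card) ^ 2) :=
          mul_le_mul h2 h6 (by positivity) (by positivity)
      _ = n * n * κ / δ ^ 2 := by
          field_simp
  obtain ⟨x, hx⟩ := iid_avoid (fun _ : ↥J => 1 / (J.card : ℝ)) (fun _ => by positivity)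
    (by
      rw [Finset.sum_const, Finset.card_univ, Fintype.card_coe, nsmul_eq_mul]
      field_simp) B K (n * n * κ / δ ^ 2) (by convert hB) hK
  refine ⟨fun i => (x i).1, fun i => (x i).2, fun i j hij k l hkl ht => hx i j hij ⟨k, l, hkl, ht⟩⟩

/-- density of touching pairs between two strategies. -/
noncomputable def dens (G : SimpleGraph V) {β : Type} (D : β → Finset V) (F : β → V → Finset V)
    (b b' : β) : ℝ :=
  ((((D b) ×ˢ (D b')).filter
    (fun z => Touch G (F b z.1 : Set V) (F b' z.2 : Set V))).card : ℝ) /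
      ((D b).card * (D b').card)

/-- the probability on pairs `(b, x)`. -/
noncomputable def pr {β : Type} (w : β → ℝ) (D : β → Finset V) (z : β × V) : ℝ :=
  if z.2 ∈ D z.1 then w z.1 / (D z.1).card else 0

theorem sum_pr [Fintype V] {β : Type} [Fintype β] (w : β → ℝ) (D : β → Finset V)
    (hD : ∀ b, (D b).Nonempty) (hw1 : ∑ b, w b = 1) : ∑ z, pr w D z = 1 := by
  rw [Fintype.sum_prod_type, ← hw1]
  refine Finset.sum_congr rfl (fun b _ => ?_)
  have h1 : ∑ x : V, pr w D (b, x) = ∑ x ∈ D b, w b / (D b).card := by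
    simp only [pr]
    rw [← Finset.sum_filter]
    congr 1
    ext x
    simp
  rw [h1, Finset.sum_const, nsmul_eq_mul]
  have : ((D b).card : ℝ) ≠ 0 := by
    exact_mod_cast (hD b).card_pos.ne'
  field_simp

theorem sum_pr_meet [Fintype V] {β : Type} [Fintype β] (w : β → ℝ) (D : β → Finset V)
    (F : β → V → Finset V) (Z : Set V) :
    ∑ z : β × V, (if ∃ v ∈ F z.1 z.2, v ∈ Z then pr w D z else 0) =
      ∑ b, w b * ((((D b).filter (fun x => ∃ v ∈ F b x, v ∈ Z)).card : ℝ) / (D b).card) := by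
  rw [Fintype.sum_prod_type]
  refine Finset.sum_congr rfl (fun b _ => ?_)
  have h1 : ∑ x : V, (if ∃ v ∈ F b x, v ∈ Z then pr w D (b, x) else 0) =
      ∑ x ∈ (D b).filter (fun x => ∃ v ∈ F b x, v ∈ Z), w b / (D b).card := by
    simp only [pr]
    rw [Finset.sum_filter, ← Finset.sum_filter_add_sum_filter_not Finset.univ (fun x => x ∈ D b)]
    rw [show ∑ x ∈ Finset.univ.filter (fun x => ¬ x ∈ D b),
      (if ∃ v ∈ F b x, v ∈ Z then (if x ∈ D b then w b / ((D b).card : ℝ) else 0) else 0) = 0 from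
      Finset.sum_eq_zero (fun x hx => by
        rw [Finset.mem_filter] at hx
        simp [hx.2]), add_zero]
    refine Finset.sum_congr (by ext x; simp) (fun x hx => ?_)
    simp [hx]
  rw [h1, Finset.sum_const, nsmul_eq_mul]
  ring

theorem sum_pr_touch [Fintype V] (G : SimpleGraph V) {β : Type} [Fintype β] (w : β → ℝ)
    (D : β → Finset V) (F : β → V → Finset V) :
    ∑ z : β × V, ∑ z' : β × V, (if Touch G (F z.1 z.2 : Set V) (F z'.1 z'.2 : Set V) then
      pr w D z * pr w D z' else 0) = ∑ b, ∑ b', w b * w b' * dens G D F b b' := by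
  rw [Fintype.sum_prod_type]
  simp only [Fintype.sum_prod_type]
  refine Finset.sum_congr rfl (fun b _ => ?_)
  rw [Finset.sum_comm]
  refine Finset.sum_congr rfl (fun b' _ => ?_)
  have h1 : ∑ x : V, ∑ x' : V, (if Touch G (F b x : Set V) (F b' x' : Set V) then
      pr w D (b, x) * pr w D (b', x') else 0) =
      ∑ z ∈ ((D b) ×ˢ (D b')).filter (fun z => Touch G (F b z.1 : Set V) (F b' z.2 : Set V)),
        (w b / (D b).card) * (w b' / (D b').card) := by
    rw [← Fintype.sum_prod_type' (f := fun x x' =>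
      (if Touch G (F b x : Set V) (F b' x' : Set V) then
      pr w D (b, x) * pr w D (b', x') else 0)), Finset.sum_filter]
    rw [← Finset.sum_subset (Finset.subset_univ ((D b) ×ˢ (D b')))]
    · refine Finset.sum_congr rfl (fun z hz => ?_)
      rw [Finset.mem_product] at hz
      simp [pr, hz.1, hz.2]
    · intro z _ hz
      rw [Finset.mem_product, not_and_or] at hz
      rcases hz with hz | hz
      · simp [pr, hz]
      · simp [pr, hz]
  rw [h1, Finset.sum_const, nsmul_eq_mul, dens]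
  ring

theorem dens_nonneg (G : SimpleGraph V) {β : Type} (D : β → Finset V) (F : β → V → Finset V)
    (b b' : β) : 0 ≤ dens G D F b b' := by
  unfold dens
  positivity

theorem card_le_of_dens {G : SimpleGraph V} {β : Type} {D : β → Finset V} {F : β → V → Finset V}
    {b b' : β} {I : Finset V} {κ : ℝ} (hκ : 0 ≤ κ) (hb : D b ⊆ I) (hb' : D b' ⊆ I)
    (hbne : (D b).Nonempty) (hbne' : (D b').Nonempty) (h : dens G D F b b' ≤ κ) :
    ((((D b) ×ˢ (D b')).filter
      (fun z => Touch G (F b z.1 : Set V) (F b' z.2 : Set V))).card : ℝ) ≤ κ * I.card ^ 2 := by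
  have h1 : (0 : ℝ) < (D b).card := by exact_mod_cast hbne.card_pos
  have h2 : (0 : ℝ) < (D b').card := by exact_mod_cast hbne'.card_pos
  have h3 : ((D b).card : ℝ) ≤ I.card := by exact_mod_cast Finset.card_le_card hb
  have h4 : ((D b').card : ℝ) ≤ I.card := by exact_mod_cast Finset.card_le_card hb'
  unfold dens at h
  rw [div_le_iff₀ (mul_pos h1 h2)] at h
  refine h.trans ?_
  rw [sq]
  exact mul_le_mul_of_nonneg_left (mul_le_mul h3 h4 h2.le (h1.le.trans h3)) hκ

/-- F13. Hub elimination. -/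
theorem hub_elim (t s ρ : ℕ) (ht : 0 < t) : ∃ R : ℕ, ∀ (V : Type) [Fintype V] (G : SimpleGraph V),
    Kfree G t → ¬ HasTripod G t → ∀ I : Finset V, I.Nonempty →
    ∃ Z : Set V, Small G Z R ∧ ∀ X : Set V, (∀ x ∈ X, x ∉ Z) → Small G X s →
      4 * (I.filter (fun x => Near G Zᶜ X ρ x)).card < I.card := by
  obtain ⟨N, hN⟩ := exists_pattern s (t + 1)
  obtain ⟨n, hn⟩ : ∃ n : ℕ, n = 3 * (t + 1) := ⟨_, rfl⟩
  have hnpos : (0 : ℝ) < n := by rw [hn]; positivity
  obtain ⟨δ, hδ⟩ : ∃ δ : ℝ, δ = 1 / 4 := ⟨_, rfl⟩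
  have hδpos : 0 < δ := by rw [hδ]; norm_num
  obtain ⟨δ', hδ'⟩ : ∃ δ' : ℝ, δ' = δ ^ n / 2 := ⟨_, rfl⟩
  have hδ'pos : 0 < δ' := by rw [hδ']; positivity
  obtain ⟨κ, hκ⟩ : ∃ κ : ℝ, κ = δ' ^ 2 / ((N : ℝ) * N * (n * n) + 1) := ⟨_, rfl⟩
  have hκpos : 0 < κ := by rw [hκ]; positivity
  obtain ⟨η, hη⟩ : ∃ η : ℝ, η = δ ^ n * κ / (2 * n * n) := ⟨_, rfl⟩
  have hηpos : 0 < η := by rw [hη]; positivity
  obtain ⟨l, hl⟩ : ∃ l : ℕ, l = ρ + 1 := ⟨_, rfl⟩
  obtain ⟨m, hm⟩ : ∃ m : ℕ, m = ⌈2 * (l : ℝ) * (l * t) / η⌉₊ + 1 := ⟨_, rfl⟩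
  have hmpos : 0 < m := by omega
  obtain ⟨ε, hε⟩ : ∃ ε : ℝ, ε = η / (2 * (1 + l)) := ⟨_, rfl⟩
  have hεpos : 0 < ε := by rw [hε]; positivity
  obtain ⟨C, hC⟩ : ∃ C : ℕ, C = 2 ^ m * t + m := ⟨_, rfl⟩
  obtain ⟨R, hR⟩ : ∃ R : ℕ, R = ⌈(C : ℝ) * l / ε⌉₊ := ⟨_, rfl⟩
  have hRε : (C : ℝ) * l ≤ ε * R := by
    have h1 : (C : ℝ) * l / ε ≤ R := by rw [hR]; exact Nat.le_ceil _
    rw [div_le_iff₀ hεpos] at h1
    linarith
  have hbound : ε + l * (l * t / m + ε) ≤ η := by
    have h1 : 2 * (l : ℝ) * (l * t) / η ≤ m := by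
      rw [hm]
      push_cast
      linarith [Nat.le_ceil (2 * (l : ℝ) * (l * t) / η)]
    have hmR : (0 : ℝ) < m := by exact_mod_cast hmpos
    have h2 : (l : ℝ) * (l * t / m) ≤ η / 2 := by
      rw [div_le_iff₀ hηpos] at h1
      rw [← mul_div_assoc, div_le_iff₀ hmR]
      linarith
    have h3 : ε + l * ε = η / 2 := by
      rw [hε]
      field_simp
    calc ε + l * (l * t / m + ε) = l * (l * t / m) + (ε + l * ε) := by ring
      _ ≤ η / 2 + η / 2 := by rw [h3]; linarith
      _ = η := by ring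
  refine ⟨R, fun V _ G hK hT I hI => ?_⟩
  by_contra hcon
  push Not at hcon
  apply hT
  haveI : Nonempty V := ⟨hI.choose⟩
  have hIpos : (0 : ℝ) < I.card := by exact_mod_cast hI.card_pos
  -- strategies
  have hex : ∀ Z : {Z : Set V // Small G Z R}, ∃ X : Set V, (∀ x ∈ X, x ∉ Z.1) ∧ Small G X s ∧
      I.card ≤ 4 * (I.filter (fun x => Near G Z.1ᶜ X ρ x)).card := fun Z => hcon Z.1 Z.2
  choose X hXZ hXs hXI using hex
  haveI : Nonempty {Z : Set V // Small G Z R} := ⟨⟨∅, small_empty R⟩⟩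
  set D : {Z : Set V // Small G Z R} → Finset V :=
    fun b => I.filter (fun x => Near G b.1ᶜ (X b) ρ x) with hD
  have hDI : ∀ b, D b ⊆ I := fun b => Finset.filter_subset _ _
  have hDcard : ∀ b, δ * I.card ≤ (D b).card := fun b => by
    have h1 : (I.card : ℝ) ≤ 4 * (D b).card := by exact_mod_cast hXI b
    rw [hδ]
    linarith
  have hDne : ∀ b, (D b).Nonempty := fun b => by
    rw [← Finset.card_pos]
    have h1 := hXI b
    have h2 := hI.card_pos
    simp only [hD]
    omega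
  have hdata : ∀ (b : {Z : Set V // Small G Z R}) (x : V), ∃ (F : Finset V) (c : V),
      F.card ≤ l ∧ (x ∈ D b → x ∈ F ∧ c ∈ F ∧ c ∈ X b ∧ Cn G (F : Set V) ∧ ∀ v ∈ F, v ∉ b.1) := by
    intro b x
    by_cases hx : x ∈ D b
    · obtain ⟨F, c, h1, h2, h3, h4, h5, h6⟩ := near_data (Finset.mem_filter.1 hx).2
      exact ⟨F, c, by omega, fun _ => ⟨h2, h3, h4, h5, h6⟩⟩
    · exact ⟨∅, x, by simp, fun h => absurd h hx⟩
  choose F c hFl hF using hdata
  obtain ⟨w, hw0, hw1, hw⟩ := exists_spread G D F l C R ε hεpos hRε hDne hFl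
    (fun Z hZ => ⟨⟨Z, hZ⟩, fun x hx v hv => (hF _ x hx).2.2.2.2 v hv⟩)
  -- the density is small on average
  have hpt := pair_touch hK (pr w D) (fun z => by
      unfold pr
      split_ifs
      · exact div_nonneg (hw0 _) (by positivity)
      · exact le_rfl) (sum_pr w D hDne hw1) (fun z => F z.1 z.2) l m (fun z => hFl _ _) hmpos ε
    (fun Z hZ => by
      have h1 := sum_pr_meet w D F Z
      have h2 := hw Z (by rw [hC]; exact hZ)
      rw [← h1] at h2
      exact h2)
  have hdens : ∑ b, ∑ b', w b * w b' * dens G D F b b' ≤ η := by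
    rw [← sum_pr_touch]
    refine le_trans (le_of_eq ?_) (hpt.trans hbound)
    rfl
  -- labels
  obtain ⟨b, hbJ, hbd⟩ := exists_labels w hw0 hw1 I hI D hDI δ κ η hδpos (by rw [hδ]; norm_num)
    hκpos hDcard (dens G D F) (dens_nonneg G D F) hdens n (by
      rw [hη]
      field_simp
      exact le_rfl)
  set J : Finset V := I.filter (fun x => ∀ k, x ∈ D (b k)) with hJ
  obtain ⟨x, hxJ, hx⟩ := sample_points G (fun k => F (b k)) I J (fun k => D (b k))
    (fun x hx k => (Finset.mem_filter.1 hx).2 k) δ' κ hδ'pos hI (by rw [hδ']; exact hbJ) hκpos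
    (fun k l hkl => card_le_of_dens hκpos.le (hDI _) (hDI _) (hDne _) (hDne _) (hbd k l hkl)) N (by
      rw [hκ]
      have h1 : (0 : ℝ) ≤ (N : ℝ) * N * (n * n) := by positivity
      have h2 : (N : ℝ) * N * (n * n * (δ' ^ 2 / ((N : ℝ) * N * (n * n) + 1)) / δ' ^ 2) =
          (N : ℝ) * N * (n * n) / ((N : ℝ) * N * (n * n) + 1) := by
        field_simp
      rw [h2, div_lt_one (by linarith)]
      linarith)
  have hxD : ∀ i k, x i ∈ D (b k) := fun i k => (Finset.mem_filter.1 (hxJ i)).2 k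
  -- the pattern
  set e : Fin 3 × Fin (t + 1) → Fin n := fun z => Fin.cast hn.symm (finProdFinEquiv z) with he
  have hinj : Function.Injective e := fun z z' h => by
    simp only [he] at h
    exact finProdFinEquiv.injective (Fin.cast_injective _ h)
  set lab : Fin 3 → ℕ → Fin 3 × Fin (t + 1) :=
    fun a i => (a, if h : i < t + 1 then ⟨i, h⟩ else 0) with hlabdef
  set Rl : Fin 3 × Fin (t + 1) → Fin N → Fin N → Prop := fun z i j =>
    c (b (e z)) (x i) = c (b (e z)) (x j) ∨ G.Adj (c (b (e z)) (x i)) (c (b (e z)) (x j)) with hRl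
  have hdense : ∀ z, Dense s (Rl z) := by
    intro z S hS
    by_contra hno
    push Not at hno
    have h1 : (S.image (fun i => c (b (e z)) (x i))).card = s + 1 := by
      rw [Finset.card_image_of_injOn, hS]
      intro i hi j hj hij
      by_contra hne
      exact hno i hi j hj hne (Or.inl hij)
    have h2 := hXs (b (e z)) (S.image (fun i => c (b (e z)) (x i)))
      (fun v hv => by
        rw [Finset.mem_image] at hv
        obtain ⟨i, _, rfl⟩ := hv
        exact (hF _ _ (hxD i (e z))).2.2.1)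
      (fun u hu v hv => by
        rw [Finset.mem_image] at hu hv
        obtain ⟨i, hi, rfl⟩ := hu
        obtain ⟨j, hj, rfl⟩ := hv
        by_cases hij : i = j
        · rw [hij]
          exact G.loopless.irrefl _
        · exact fun h => hno i hi j hj hij (Or.inr h))
    omega
  obtain ⟨r, q, h1, h2, h3, h4⟩ := hN (Fin N) (Fin 3 × Fin (t + 1)) Rl hdense lab
    (by rw [Fintype.card_fin])
  have hlab0 : ∀ a i, i < t + 1 → ∀ a' i', i' < t + 1 → lab a i = lab a' i' → a = a' ∧ i = i' := by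
    intro a i hi a' i' hi' h
    simp only [hlabdef, dif_pos hi, dif_pos hi', Prod.mk.injEq, Fin.mk.injEq] at h
    exact h
  refine tripod_of_blobs G t ht (fun z i => (F (b (e z)) (x i) : Set V)) x
    (fun z i => c (b (e z)) (x i)) (fun z i => Finset.mem_coe.2 (hF _ _ (hxD i (e z))).1)
    (fun z i => Finset.mem_coe.2 (hF _ _ (hxD i (e z))).2.1)
    (fun z i => (hF _ _ (hxD i (e z))).2.2.2.1)
    (fun z z' hzz' i j hij => hx i j hij (e z) (e z') (fun h => hzz' (hinj h)))
    lab (fun a a' i hi i' hi' h => hlab0 a i hi a' i' hi' h) r q h1 h2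
    (fun a => h3 a (Nat.succ_pos t)) (fun a i hi => h4 a i hi)

end Pool.Agent.MP_8b3902_co
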