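import Pool.Agent.Lib.MP_8b3902_co.F.Defs
import Pool.Agent.Lib.MP_8b3902_co.F.Encl

set_option autoImplicit false

namespace Pool.Agent.MP_8b3902_co

open Classical

variable {V : Type}

/-- F16. Iterating `encl_step`, starting from `{x}`. (`8 * 1 ≤ I.card` for `x ∈ I` follows from
`Conc` with `X = {x}`.) -/
theorem enclosures [Fintype V] {G : SimpleGraph V} {A : Set V} {I : Finset V} {g s t : ℕ}
    (hI : I.Nonempty) (hconc : Conc G A I g 8) (hg : 0 < g) (hgs : g ≤ s)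
    (hleg : ∀ Q : Set V, Q ⊆ A → Cn G Q → ∃ Y : Set V, Small G Y g ∧ (∀ y ∈ Y, y ∉ Q) ∧
      ∀ q ∈ Q, ∀ y ∈ cc G (A \ Y) q, Near G A Q t y)
    (hnear : ∀ X : Set V, X ⊆ A → Small G X s →
      4 * (I.filter (fun x => Near G A X t x)).card < I.card)
    (x : V) (hx : x ∈ A) (n : ℕ) :
    ∃ Y C : Set V, Small G Y g ∧ IsBig G A I Y C ∧ ∀ v, Near G A {x} n v → v ∉ C := by
  have key : ∀ n : ℕ, ∃ Q : Set V, Q ⊆ A ∧ Cn G Q ∧ Q.Nonempty ∧
      Small G {v | v ∈ Q ∧ ∃ w ∈ A, w ∉ Q ∧ G.Adj v w} s ∧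
      8 * (I.filter (fun x => x ∈ Q)).card ≤ I.card ∧ ∀ v, Near G A {x} n v → v ∈ Q := by
    intro n
    induction n with
    | zero =>
      refine ⟨{x}, Set.singleton_subset_iff.2 hx, ?_, Set.singleton_nonempty x, ?_, ?_, ?_⟩
      · rintro u rfl v rfl
        exact conn_refl rfl
      · exact small_mono (fun v hv => hv.1) (by omega) (small_singleton x)
      · obtain ⟨u, hu, h⟩ := hconc {x} (small_mono subset_rfl (by omega) (small_singleton x))
        refine le_trans (Nat.mul_le_mul_left 8 (Finset.card_le_card ?_)) h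
        intro i hi
        rw [Finset.mem_filter] at hi ⊢
        refine ⟨hi.1, fun hc => ?_⟩
        exact (cc_subset u hc).2 hi.2
      · rintro v ⟨k, f, hk, h0, h1, h2, h3⟩
        have : k = 0 := by omega
        subst this
        rw [← h1]
        exact h0
    | succ n ih =>
      obtain ⟨Q, hQA, hQ, hQne, hbd, hQI, hnr⟩ := ih
      obtain ⟨Q', Y, C, h1, h2, h3, h4, h5, h6, -, -, -⟩ :=
        encl_step hI hconc hgs hleg hnear Q hQA hQ hQne hbd hQI
      refine ⟨Q', h2, h3, hQne.mono h1, h5, h6, ?_⟩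
      rintro v ⟨k, f, hk, k0, k1, k2, k3⟩
      rcases Nat.lt_or_ge k (n + 1) with hlt | hge
      · exact h1 (hnr v ⟨k, f, by omega, k0, k1, k2, k3⟩)
      · have hkn : k = n + 1 := by omega
        subst hkn
        have hfn : f n ∈ Q := hnr (f n) ⟨n, f, le_rfl, k0, rfl, fun i hi => k2 i (by omega),
          fun i hi => k3 i (by omega)⟩
        rw [← k1]
        exact h4 (f (n + 1)) (k3 (n + 1) le_rfl) ⟨f n, hfn, k2 n (by omega)⟩
  obtain ⟨Q, hQA, hQ, hQne, hbd, hQI, hnr⟩ := key n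
  obtain ⟨Q', Y, C, h1, h2, h3, h4, h5, h6, h7, h8, h9⟩ :=
    encl_step hI hconc hgs hleg hnear Q hQA hQ hQne hbd hQI
  exact ⟨Y, C, h7, h8, fun v hv => h9 v (h1 (hnr v hv))⟩

end Pool.Agent.MP_8b3902_co
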