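import Pool.Agent.Lib.MP_8b3902_co.F.Defs
import Pool.Agent.Lib.MP_8b3902_co.F.EP
import Pool.Agent.Lib.MP_8b3902_co.F.Star
import Pool.Agent.Lib.MP_8b3902_co.F.Short

set_option autoImplicit false

namespace Pool.Agent.MP_8b3902_co

open Classical

variable {V : Type}

/-- `f 0, ..., f t` is a leg attached to `Q`, inside `A \ Q`. -/
def IsLeg (G : SimpleGraph V) (A Q : Set V) (t : ℕ) (f : ℕ → V) : Prop :=
  (∀ i ≤ t, f i ∈ A \ Q) ∧
  (∀ i ≤ t, ∀ j ≤ t, (G.Adj (f i) (f j) ↔ (i + 1 = j ∨ j + 1 = i)) ∧ (f i = f j → i = j)) ∧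
  (∃ u ∈ Q, G.Adj u (f 0)) ∧ (∀ i ≤ t, 0 < i → ∀ u ∈ Q, ¬ G.Adj u (f i))

/-- F14. A connected set `Q` is enclosed by a small set within distance `t`. (`erdos_posa` with
`l = t + 1`, `n = 3` for the family of vertex sets of legs `f 0, ..., f t` from `Q` in `A \ Q`: induced
paths with `f 0` adjacent to `Q` and the others not; three anticomplete ones contradict
`tripod_of_star`; then `exists_short` in `A \ Y`.) -/
theorem legs_hit (t : ℕ) : ∃ g : ℕ, ∀ (V : Type) [Fintype V] (G : SimpleGraph V),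
    Kfree G t → ¬ HasTripod G t → ∀ A Q : Set V, Q ⊆ A → Cn G Q →
    ∃ Y : Set V, Small G Y g ∧ (∀ y ∈ Y, y ∉ Q) ∧
      ∀ q ∈ Q, ∀ y ∈ cc G (A \ Y) q, Near G A Q t y := by
  obtain ⟨g, hg⟩ := erdos_posa t (t + 1) 3
  refine ⟨g, fun V _ G hK hT A Q hQA hQ => ?_⟩
  let 𝓕 : Set (Finset V) := {S | ∃ f : ℕ → V, IsLeg G A Q t f ∧
    S = (Finset.range (t + 1)).image f}
  obtain ⟨Z, hZs, hZ⟩ := hg V G hK 𝓕 (by
    rintro S ⟨f, -, rfl⟩
    exact Finset.card_image_le.trans (by simp)) (by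
    intro S hS
    by_contra hcon
    push Not at hcon
    choose f hf hSf using hS
    apply hT
    have hmem : ∀ b, ∀ i ≤ t, f b i ∈ (S b : Set V) := by
      intro b i hi
      rw [hSf b]
      simp only [Finset.coe_image, Set.mem_image, Finset.coe_range, Set.mem_Iio]
      exact ⟨i, by omega, rfl⟩
    refine tripod_of_star G t Q hQ f (fun b i hi => ((hf b).1 i hi).2) ?_ ?_ ?_ ?_
    · intro b
      exact (hf b).2.2.1
    · intro b i hi hi0 u hu
      exact (hf b).2.2.2 i hi hi0 u hu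
    · intro b i hi j hj
      exact (hf b).2.1 i hi j hj
    · intro b b' hbb i hi j hj
      have h := hcon b b' hbb
      refine ⟨fun he => h ⟨f b i, hmem b i hi, f b' j, hmem b' j hj, Or.inl he⟩,
        fun he => h ⟨f b i, hmem b i hi, f b' j, hmem b' j hj, Or.inr he⟩⟩)
  refine ⟨Z \ Q, small_mono Set.diff_subset le_rfl hZs, fun y hy => hy.2, ?_⟩
  intro q hq y hy
  obtain ⟨n, f, hf0, hfn, hfB, hind, hfU, hfN⟩ :=
    exists_short G (A \ (Z \ Q)) Q {y} hq (Set.mem_singleton y) hy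
  by_cases hn : n ≤ t
  · refine ⟨n, f, hn, hf0, hfn, fun i hi => ?_, fun i hi => (hfB i hi).1⟩
    exact ((hind i hi.le (i + 1) hi).1).2 (Or.inl rfl)
  · exfalso
    have hleg : IsLeg G A Q t (fun i => f (i + 1)) := by
      refine ⟨fun i hi => ⟨(hfB (i + 1) (by omega)).1, hfU (i + 1) (by omega) (by omega)⟩,
        fun i hi j hj => ?_, ⟨f 0, hf0, ?_⟩, fun i hi hi0 u hu => ?_⟩
      · have h := hind (i + 1) (by omega) (j + 1) (by omega)
        refine ⟨h.1.trans ?_, fun he => ?_⟩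
        · omega
        · have := h.2 he
          omega
      · exact ((hind 0 (by omega) 1 (by omega)).1).2 (Or.inl rfl)
      · exact hfN (i + 1) (by omega) (by omega) u hu ⟨hQA hu, fun h => h.2 hu⟩
    obtain ⟨v, hv, hvZ⟩ := hZ _ ⟨_, hleg, rfl⟩
    simp only [Finset.mem_image, Finset.mem_range] at hv
    obtain ⟨i, hi, rfl⟩ := hv
    exact (hfB (i + 1) (by omega)).2 ⟨hvZ, hfU (i + 1) (by omega) (by omega)⟩

end Pool.Agent.MP_8b3902_co
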