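import Pool.Agent.Lib.MP_8b3902_co.Break

set_option autoImplicit false

namespace Pool.Agent.MP_8b3902_co

open Classical

variable {V : Type}

/-- Small balanced separators from the absence of concentrated pairs
(`break_lemma` with `Y = ∅`, `E = 2`, `D = 8`, `N = 6`). -/
theorem sep_of_no_conc [Fintype V] {G : SimpleGraph V} (c : ℕ)
    (h : ∀ (A : Set V) (I : Finset V), I.Nonempty → ¬ Conc G A I c 8) :
    ∀ W : Finset V, ∃ X : Set V, Small G X (12 * c) ∧
      ∀ u ∉ X, 2 * (W.filter (fun i => i ∈ cc G Xᶜ u)).card ≤ W.card := by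
  intro W
  by_contra hcon
  push Not at hcon
  have hN2 : Ntr G Set.univ ∅ W (12 * c) 2 := by
    intro X hX
    obtain ⟨u, hu, hbig⟩ := hcon X hX
    refine ⟨u, ⟨trivial, by simpa using hu⟩, ?_⟩
    have h1 : (Set.univ : Set V) \ (∅ ∪ X) = Xᶜ := by ext x; simp
    rw [h1]
    exact hbig
  obtain ⟨X', u, hX', hu, hbig, hconc⟩ := break_lemma G Set.univ ∅ W (12 * c) c 8 2 6
    (by omega) (by omega) (by norm_num) (by omega) hN2
  have hne : (W.filter (fun i => i ∈ cc G (Set.univ \ (∅ ∪ X')) u)).Nonempty := by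
    rw [← Finset.card_pos]
    by_contra h0
    have h2 : (W.filter (fun i => i ∈ cc G (Set.univ \ (∅ ∪ X')) u)).card = 0 := by omega
    rw [h2] at hbig
    omega
  exact h _ _ hne hconc

end Pool.Agent.MP_8b3902_co
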