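import Pool.Agent.Lib.MP_8b3902_co.F.Defs
import Pool.Agent.Lib.MP_8b3902_co.F.Star
import Pool.Agent.Lib.MP_8b3902_co.F.Short

set_option autoImplicit false

namespace Pool.Agent.MP_8b3902_co

open Classical

variable {V : Type}

/-- one leg: `e` within distance `t` of `x` in `A`, with a neighbour `u ∈ A` which is not; then the
geodesic from `e` to `x` is an induced path with `t + 1` vertices. -/
theorem three_leg (G : SimpleGraph V) (t : ℕ) (A : Set V) (x e u : V) (he : Near G A {x} t e)
    (huA : u ∈ A) (hu : ¬ Near G A {x} t u) (hadj : G.Adj e u) :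
    ∃ y : ℕ → V, y 0 = e ∧ (∀ i ≤ t, y i ∈ A ∧ Near G A {x} (t - i) (y i)) ∧
      ∀ i ≤ t, ∀ j ≤ t,
        (G.Adj (y i) (y j) ↔ (i + 1 = j ∨ j + 1 = i)) ∧ (y i = y j → i = j) := by
  obtain ⟨k, f, hk, hf0, hfk, hfa, hfA⟩ := he
  have hf0' : f 0 = x := hf0
  have hno : ∀ m < t, ¬ SeqP G A x e m := by
    rintro m hm ⟨g, g0, gm, ga, gA⟩
    refine hu ⟨m + 1, fun i => if i ≤ m then g i else u, by omega, ?_, ?_, ?_, ?_⟩
    · show (if 0 ≤ m then g 0 else u) = x
      rw [if_pos (Nat.zero_le m), g0]
    · show (if m + 1 ≤ m then g (m + 1) else u) = u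
      rw [if_neg (by omega)]
    · intro i hi
      dsimp only
      rcases Nat.lt_or_ge i m with h | h
      · rw [if_pos h.le, if_pos (by omega)]
        exact ga i h
      · have : i = m := by omega
        subst this
        rw [if_pos le_rfl, if_neg (by omega), gm]
        exact hadj
    · intro i hi
      dsimp only
      split_ifs with h
      · exact gA i h
      · exact huA
  have hkt : k = t := by
    by_contra hne
    exact hno k (by omega) ⟨f, hf0', hfk, hfa, hfA⟩
  subst hkt
  have hne : ∀ i j, i < j → j ≤ k → f i ≠ f j := by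
    intro i j hij hjn hee
    rcases hjn.lt_or_eq with hj | hj
    · have := hfa j hj
      rw [← hee, show j + 1 = i + 1 + (j - i) by omega] at this
      exact hno (k - (j - i)) (by omega)
        (seqP_short hf0' hfk hfa hfA i (j - i) (by omega) this)
    · refine hno i (by omega) ⟨f, hf0', ?_, fun l hl => hfa l (by omega),
        fun l hl => hfA l (by omega)⟩
      rw [hee, hj, hfk]
  have hna : ∀ i j, i + 1 < j → j ≤ k → ¬ G.Adj (f i) (f j) := by
    intro i j hij hjn hadj
    rw [show j = i + 1 + (j - i - 1) by omega] at hadj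
    exact hno (k - (j - i - 1)) (by omega)
      (seqP_short hf0' hfk hfa hfA i (j - i - 1) (by omega) hadj)
  refine ⟨fun i => f (k - i), ?_, ?_, ?_⟩
  · exact hfk
  · intro i hi
    refine ⟨hfA _ (by omega), k - i, f, le_rfl, hf0, rfl, fun l hl => hfa l (by omega),
      fun l hl => hfA l (by omega)⟩
  · intro i hi j hj
    dsimp only
    constructor
    · constructor
      · intro hh
        by_contra hcon
        push Not at hcon
        rcases lt_trichotomy i j with hlt | heq | hlt
        · exact hna (k - j) (k - i) (by omega) (by omega) hh.symm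
        · rw [heq] at hh
          exact G.irrefl hh
        · exact hna (k - i) (k - j) (by omega) (by omega) hh
      · rintro (h | h)
        · have := hfa (k - j) (by omega)
          rw [show k - j + 1 = k - i by omega] at this
          exact this.symm
        · have := hfa (k - i) (by omega)
          rw [show k - i + 1 = k - j by omega] at this
          exact this
    · intro hh
      rcases lt_trichotomy i j with hlt | heq | hlt
      · exact absurd hh.symm (hne (k - j) (k - i) (by omega) (by omega))
      · exact heq
      · exact absurd hh (hne (k - i) (k - j) (by omega) (by omega))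

theorem three_near_mono {G : SimpleGraph V} {A X : Set V} {m n : ℕ} {v : V} (h : Near G A X m v)
    (hmn : m ≤ n) : Near G A X n v := by
  obtain ⟨k, f, hk, h1, h2, h3, h4⟩ := h
  exact ⟨k, f, hk.trans hmn, h1, h2, h3, h4⟩

/-- F18. Three points `x a`, a connected nonempty set `D` and connected sets `W a ⊇ {x a} ∪ D` missing
the balls of radius `2 t + 1` around the other two points: there is a tripod. `U` = component of
`A` minus the three balls of radius `t` containing `D`; geodesics from `U` to `x a` are legs;
`tripod_of_star`. -/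
theorem three_points (G : SimpleGraph V) (t : ℕ) (A : Set V) (x : Fin 3 → V) (W : Fin 3 → Set V)
    (D : Set V) (hW : ∀ a, W a ⊆ A) (hWc : ∀ a, Cn G (W a)) (hxW : ∀ a, x a ∈ W a)
    (hDW : ∀ a, D ⊆ W a) (hD : D.Nonempty) (hDc : Cn G D)
    (hWB : ∀ a b, a ≠ b → ∀ v ∈ W a, ¬ Near G A {x b} (2 * t + 1) v) : HasTripod G t := by
  obtain ⟨d, hd⟩ := hD
  have hself : ∀ b, Near G A {x b} t (x b) := fun b =>
    ⟨0, fun _ => x b, Nat.zero_le _, rfl, rfl, fun i hi => absurd hi (Nat.not_lt_zero i),
      fun i _ => hW b (hxW b)⟩
  have hother : ∀ b : Fin 3, ∃ a : Fin 3, a ≠ b := by decide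
  set A' : Set V := {v | v ∈ A ∧ ∀ b, ¬ Near G A {x b} t v} with hA'
  have hdA' : d ∈ A' := by
    refine ⟨hW 0 (hDW 0 hd), fun b hb => ?_⟩
    obtain ⟨a, ha⟩ := hother b
    exact hWB a b ha d (hDW a hd) (three_near_mono hb (by omega))
  set U : Set V := cc G A' d with hUdef
  have hUA' : U ⊆ A' := cc_subset d
  have hUc : Cn G U := fun u hu v hv => cc_conn hu hv
  -- the ends of the legs
  have hleg : ∀ b, ∃ y : ℕ → V, (∃ u ∈ U, G.Adj u (y 0)) ∧
      (∀ i ≤ t, y i ∈ A ∧ Near G A {x b} (t - i) (y i)) ∧
      ∀ i ≤ t, ∀ j ≤ t,
        (G.Adj (y i) (y j) ↔ (i + 1 = j ∨ j + 1 = i)) ∧ (y i = y j → i = j) := by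
    intro b
    have hxU : x b ∉ U := fun h => (hUA' h).2 b (hself b)
    obtain ⟨z, w, hz, hw, hzW, hwW, hzw⟩ := exists_exit (mem_cc_self hdA' : d ∈ U) hxU
      (hWc b d (hDW b hd) (x b) (hxW b))
    have hwA' : w ∉ A' := fun h => hw (cc_closed hz h hzw)
    have hwb : Near G A {x b} t w := by
      by_contra hcon
      apply hwA'
      refine ⟨hW b hwW, fun a ha => ?_⟩
      by_cases hab : b = a
      · subst hab
        exact hcon ha
      · exact hWB b a hab w hwW (three_near_mono ha (by omega))
    obtain ⟨y, hy0, hyA, hyI⟩ := three_leg G t A (x b) w z hwb (hW b hzW)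
      ((hUA' hz).2 b) hzw.symm
    exact ⟨y, ⟨z, hz, by rw [hy0]; exact hzw⟩, hyA, hyI⟩
  choose y hy0 hyA hyI using hleg
  refine tripod_of_star G t U hUc y ?_ hy0 ?_ hyI ?_
  · intro b i hi hu
    exact (hUA' hu).2 b (three_near_mono (hyA b i hi).2 (by omega))
  · intro b i hi hpos u hu hadj
    apply (hUA' hu).2 b
    obtain ⟨k, f, hk, hf0, hfk, hfa, hfA⟩ := (hyA b i hi).2
    refine ⟨k + 1, fun l => if l ≤ k then f l else u, by omega, ?_, ?_, ?_, ?_⟩
    · show (if 0 ≤ k then f 0 else u) ∈ ({x b} : Set V)
      rw [if_pos (Nat.zero_le k)]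
      exact hf0
    · show (if k + 1 ≤ k then f (k + 1) else u) = u
      rw [if_neg (by omega)]
    · intro l hl
      dsimp only
      rcases Nat.lt_or_ge l k with h | h
      · rw [if_pos h.le, if_pos (by omega)]
        exact hfa l h
      · have : l = k := by omega
        subst this
        rw [if_pos le_rfl, if_neg (by omega), hfk]
        exact hadj.symm
    · intro l hl
      dsimp only
      split_ifs with h
      · exact hfA l h
      · exact (hUA' hu).1
  · -- anticomplete
    intro b b' hbb i hi j hj
    -- a sequence from `x b'` to `x b`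
    obtain ⟨k, f, hk, hf0, hfk, hfa, hfA⟩ := (hyA b i hi).2
    obtain ⟨k', f', hk', hf0', hfk', hfa', hfA'⟩ := (hyA b' j hj).2
    have hf0 : f 0 = x b := hf0
    have hf0' : f' 0 = x b' := hf0'
    constructor
    · intro heq
      refine hWB b b' hbb (x b) (hxW b) ⟨k' + k, fun l => if l ≤ k' then f' l else f (k - (l - k')),
        by omega, ?_, ?_, ?_, ?_⟩
      · show (if 0 ≤ k' then f' 0 else f (k - (0 - k'))) = x b'
        rw [if_pos (Nat.zero_le _), hf0']
      · dsimp only
        by_cases hk0 : k = 0
        · subst hk0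
          rw [if_pos (by omega), Nat.add_zero, hfk', ← heq, ← hfk, hf0]
        · rw [if_neg (by omega), show k - (k' + k - k') = 0 by omega, hf0]
      · intro l hl
        dsimp only
        rcases lt_trichotomy l k' with h | h | h
        · rw [if_pos h.le, if_pos (by omega)]
          exact hfa' l h
        · subst h
          rw [if_pos le_rfl, if_neg (by omega), hfk', ← heq, ← hfk]
          have := hfa (k - (l + 1 - l)) (by omega)
          rw [show k - (l + 1 - l) + 1 = k by omega] at this
          exact this.symm
        · rw [if_neg (by omega), if_neg (by omega)]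
          have := hfa (k - (l + 1 - k')) (by omega)
          rw [show k - (l + 1 - k') + 1 = k - (l - k') by omega] at this
          exact this.symm
      · intro l hl
        dsimp only
        split_ifs with h
        · exact hfA' l h
        · exact hfA _ (by omega)
    · intro hadj
      refine hWB b b' hbb (x b) (hxW b) ⟨k' + 1 + k,
        fun l => if l ≤ k' then f' l else f (k - (l - k' - 1)), by omega, ?_, ?_, ?_, ?_⟩
      · show (if 0 ≤ k' then f' 0 else f (k - (0 - k' - 1))) = x b'
        rw [if_pos (Nat.zero_le _), hf0']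
      · dsimp only
        rw [if_neg (by omega), show k - (k' + 1 + k - k' - 1) = 0 by omega, hf0]
      · intro l hl
        dsimp only
        rcases lt_trichotomy l k' with h | h | h
        · rw [if_pos h.le, if_pos (by omega)]
          exact hfa' l h
        · subst h
          rw [if_pos le_rfl, if_neg (by omega), hfk',
            show k - (l + 1 - l - 1) = k by omega, hfk]
          exact hadj.symm
        · rw [if_neg (by omega), if_neg (by omega)]
          have := hfa (k - (l + 1 - k' - 1)) (by omega)
          rw [show k - (l + 1 - k' - 1) + 1 = k - (l - k' - 1) by omega] at this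
          exact this.symm
      · intro l hl
        dsimp only
        split_ifs with h
        · exact hfA' l h
        · exact hfA _ (by omega)

end Pool.Agent.MP_8b3902_co
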