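import Pool.Agent.Lib.MP_8b3902_co.F.Defs

set_option autoImplicit false

namespace Pool.Agent.MP_8b3902_co

open Classical

variable {V : Type}

/-- F17. Counting triples. -/
theorem exists_triple (I : Finset V) (hI : I.Nonempty) (P : V → V → V → Prop)
    (h : ∀ b c, 8 * (I.filter (fun a => ¬ P a b c)).card ≤ I.card) :
    ∃ a ∈ I, ∃ b ∈ I, ∃ c ∈ I, P a b c ∧ P b a c ∧ P c a b := by
  by_contra hcon
  push Not at hcon
  set K : ℕ := ∑ b ∈ I, ∑ c ∈ I, (I.filter (fun a => ¬ P a b c)).card with hK
  have hN : 0 < I.card := hI.card_pos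
  have hK8 : 8 * K ≤ I.card * (I.card * I.card) := by
    rw [hK, Finset.mul_sum]
    calc ∑ b ∈ I, 8 * ∑ c ∈ I, (I.filter (fun a => ¬ P a b c)).card
        ≤ ∑ b ∈ I, (I.card * I.card) := by
          apply Finset.sum_le_sum
          intro b _
          rw [Finset.mul_sum]
          calc ∑ c ∈ I, 8 * (I.filter (fun a => ¬ P a b c)).card ≤ ∑ c ∈ I, I.card :=
                Finset.sum_le_sum (fun c _ => h b c)
            _ = I.card * I.card := by rw [Finset.sum_const, smul_eq_mul]
      _ = I.card * (I.card * I.card) := by rw [Finset.sum_const, smul_eq_mul]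
  have h1 : ∑ a ∈ I, ∑ b ∈ I, ∑ c ∈ I, (if ¬ P a b c then 1 else 0) = K := by
    rw [hK, Finset.sum_comm]
    apply Finset.sum_congr rfl
    intro b _
    rw [Finset.sum_comm]
    apply Finset.sum_congr rfl
    intro c _
    rw [Finset.card_filter]
  have h2 : ∑ a ∈ I, ∑ b ∈ I, ∑ c ∈ I, (if ¬ P b a c then 1 else 0) = K := by
    rw [hK]
    apply Finset.sum_congr rfl
    intro a _
    rw [Finset.sum_comm]
    apply Finset.sum_congr rfl
    intro c _
    rw [Finset.card_filter]
  have h3 : ∑ a ∈ I, ∑ b ∈ I, ∑ c ∈ I, (if ¬ P c a b then 1 else 0) = K := by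
    rw [hK]
    apply Finset.sum_congr rfl
    intro a _
    apply Finset.sum_congr rfl
    intro b _
    rw [Finset.card_filter]
  have h4 : I.card * (I.card * I.card) ≤ K + K + K := by
    calc I.card * (I.card * I.card) = ∑ a ∈ I, ∑ b ∈ I, ∑ c ∈ I, 1 := by
          simp
      _ ≤ ∑ a ∈ I, ∑ b ∈ I, ∑ c ∈ I, ((if ¬ P a b c then 1 else 0) + (if ¬ P b a c then 1 else 0) +
            (if ¬ P c a b then 1 else 0)) := by
          apply Finset.sum_le_sum
          intro a ha
          apply Finset.sum_le_sum
          intro b hb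
          apply Finset.sum_le_sum
          intro c hc
          have := hcon a ha b hb c hc
          by_cases q1 : P a b c
          · by_cases q2 : P b a c
            · have q3 := this q1 q2
              simp [q1, q2, q3]
            · simp [q1, q2]
          · rw [if_pos q1]
            omega
      _ = K + K + K := by
          simp only [Finset.sum_add_distrib]
          rw [h1, h2, h3]
  have h5 : 0 < I.card * (I.card * I.card) := by positivity
  omega

end Pool.Agent.MP_8b3902_co
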