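import Pool.Agent.Lib.MP_8b3902_co.F.Defs
import Pool.Agent.Lib.MP_8b3902_co.Break
import Pool.Agent.Lib.MP_8b3902_co.Grow
import Pool.Agent.Lib.MP_8b3902_co.F.Hub
import Pool.Agent.Lib.MP_8b3902_co.F.Legs
import Pool.Agent.Lib.MP_8b3902_co.F.Iter
import Pool.Agent.Lib.MP_8b3902_co.F.Triple
import Pool.Agent.Lib.MP_8b3902_co.F.Three
import Pool.Agent.Lib.MP_8b3902_co.F.SepT2

set_option autoImplicit false

namespace Pool.Agent.MP_8b3902_co

open Classical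

variable {V : Type}

/-- F19. There is no concentrated pair. Constants `g` (legs_hit), `s = g + 1`, `R` (hub_elim with
`ρ = t`), `c = R + 3 g + 3`. -/
theorem no_conc (t : ℕ) (ht : 0 < t) : ∃ c : ℕ, ∀ (V : Type) [Fintype V] (G : SimpleGraph V),
    Kfree G t → ¬ HasTripod G t → ∀ (A : Set V) (I : Finset V), I.Nonempty →
    ¬ Conc G A I c 8 := by
  obtain ⟨g, hg⟩ := legs_hit t
  obtain ⟨R, hR⟩ := hub_elim t (g + 1) t ht
  refine ⟨R + 3 * (g + 1), fun V _ G hK hT A I hI hconc => hT ?_⟩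
  obtain ⟨Z, hZ, hZX⟩ := hR V G hK hT I hI
  obtain ⟨u₀, hu₀, hu₀I⟩ := hconc Z (small_mono le_rfl (by omega) hZ)
  obtain ⟨A₁, hA₁⟩ : ∃ A₁, A₁ = cc G (A \ Z) u₀ := ⟨_, rfl⟩
  have hA₁Z : A₁ ⊆ Zᶜ := fun x hx => by
    rw [hA₁] at hx
    exact (cc_subset u₀ hx).2
  have hconc1 : Conc G A₁ I (3 * (g + 1)) 8 :=
    conc_restrict (A₁ := A₁) (X₀ := Z) (r := u₀) (c₀ := R) hI (by omega) le_rfl hZ hconc hu₀I
      (by rw [hA₁])
  have hleg : ∀ Q : Set V, Q ⊆ A₁ → Cn G Q → ∃ Y : Set V, Small G Y (g + 1) ∧ (∀ y ∈ Y, y ∉ Q) ∧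
      ∀ q ∈ Q, ∀ y ∈ cc G (A₁ \ Y) q, Near G A₁ Q t y := fun Q hQ hQc => by
    obtain ⟨Y, h1, h2, h3⟩ := hg V G hK hT A₁ Q hQ hQc
    exact ⟨Y, small_mono le_rfl (Nat.le_succ g) h1, h2, h3⟩
  have hnear : ∀ X : Set V, X ⊆ A₁ → Small G X (g + 1) →
      4 * (I.filter (fun x => Near G A₁ X t x)).card < I.card := fun X hX hXs => by
    refine lt_of_le_of_lt (Nat.mul_le_mul_left 4 (Finset.card_le_card ?_))
      (hZX X (fun x hx => hA₁Z (hX hx)) hXs)
    intro x hx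
    rw [Finset.mem_filter] at hx ⊢
    obtain ⟨hxI, k, f, h1, h2, h3, h4, h5⟩ := hx
    exact ⟨hxI, k, f, h1, h2, h3, h4, fun i hi => hA₁Z (h5 i hi)⟩
  have hconcg : Conc G A₁ I (g + 1) 8 := fun X hX => hconc1 X (small_mono le_rfl (by omega) hX)
  have hY : ∀ x : V, ∃ Y : Set V, Small G Y (g + 1) ∧ (x ∈ A₁ → ∃ C : Set V, IsBig G A₁ I Y C ∧
      ∀ v, Near G A₁ {x} (2 * t + 1) v → v ∉ C) := by
    intro x
    by_cases hx : x ∈ A₁
    · obtain ⟨Y, C, h1, h2, h3⟩ := enclosures hI hconcg (Nat.succ_pos g) le_rfl hleg hnear x hx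
        (2 * t + 1)
      exact ⟨Y, h1, fun _ => ⟨C, h2, h3⟩⟩
    · exact ⟨∅, small_empty _, fun h => absurd h hx⟩
  choose Y hYs hYC using hY
  have hbig : ∀ b c : V, ∃ C, IsBig G A₁ I (Y b ∪ Y c) C := fun b c =>
    exists_isBig hconc1 (small_mono le_rfl (by omega) (small_union (hYs b) (hYs c)))
  choose C hC using hbig
  have hsub : ∀ {Y' C' : Set V}, IsBig G A₁ I Y' C' → C' ⊆ A₁ := fun h => by
    obtain ⟨u, _, rfl, _⟩ := h
    exact fun x hx => (cc_subset u hx).1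
  have hcn : ∀ {Y' C' : Set V}, IsBig G A₁ I Y' C' → Cn G C' := fun h => by
    obtain ⟨u, _, rfl, _⟩ := h
    exact fun x hx y hy => cc_conn hx hy
  have key : ∀ (x₀ : V), x₀ ∈ A₁ → ∀ (Y' C' : Set V), IsBig G A₁ I Y' C' → Y x₀ ⊆ Y' →
      ∀ v ∈ C', ¬ Near G A₁ {x₀} (2 * t + 1) v := by
    intro x₀ hx₀ Y' C' h' hYY v hv hnv
    obtain ⟨C₀, h1, h2⟩ := hYC x₀ hx₀
    exact h2 v hnv (isBig_mono hI h1 h' hYY hv)
  obtain ⟨a, haI, b, hbI, c, hcI, ha, hb, hc⟩ := exists_triple I hI (fun a b c => a ∈ C b c)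
    (fun b c => by
      obtain ⟨u, hu, hCu, hcard⟩ := hC b c
      exact hcard)
  obtain ⟨D, hD⟩ := exists_isBig hconc1 (Y := Y a ∪ Y b ∪ Y c)
    (small_mono le_rfl (by omega) (small_union (small_union (hYs a) (hYs b)) (hYs c)))
  have hDa : D ⊆ C b c := isBig_mono hI (hC b c) hD (by
    intro v hv
    rcases hv with hv | hv
    · exact Or.inl (Or.inr hv)
    · exact Or.inr hv)
  have hDb : D ⊆ C a c := isBig_mono hI (hC a c) hD (by
    intro v hv
    rcases hv with hv | hv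
    · exact Or.inl (Or.inl hv)
    · exact Or.inr hv)
  have hDc : D ⊆ C a b := isBig_mono hI (hC a b) hD (by
    intro v hv
    exact Or.inl hv)
  have haA : a ∈ A₁ := hsub (hC b c) ha
  have hbA : b ∈ A₁ := hsub (hC a c) hb
  have hcA : c ∈ A₁ := hsub (hC a b) hc
  refine three_points G t A₁ ![a, b, c] ![C b c, C a c, C a b] D ?_ ?_ ?_ ?_ ?_ (hcn hD) ?_
  · intro i
    fin_cases i
    · exact hsub (hC b c)
    · exact hsub (hC a c)
    · exact hsub (hC a b)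
  · intro i
    fin_cases i
    · exact hcn (hC b c)
    · exact hcn (hC a c)
    · exact hcn (hC a b)
  · intro i
    fin_cases i
    · exact ha
    · exact hb
    · exact hc
  · intro i
    fin_cases i
    · exact hDa
    · exact hDb
    · exact hDc
  · obtain ⟨u, hu, hDu, _⟩ := hD
    exact ⟨u, by rw [hDu]; exact mem_cc_self hu⟩
  · intro i j hij
    fin_cases i <;> fin_cases j <;> first | exact absurd rfl hij | skip
    · exact key b hbA _ _ (hC b c) (fun v hv => Or.inl hv)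
    · exact key c hcA _ _ (hC b c) (fun v hv => Or.inr hv)
    · exact key a haA _ _ (hC a c) (fun v hv => Or.inl hv)
    · exact key c hcA _ _ (hC a c) (fun v hv => Or.inr hv)
    · exact key a haA _ _ (hC a b) (fun v hv => Or.inl hv)
    · exact key b hbA _ _ (hC a b) (fun v hv => Or.inr hv)

/-- F20. Small balanced separators. -/
theorem sep_tripod (t : ℕ) (ht : 0 < t) : ∃ c : ℕ, ∀ (V : Type) [Fintype V] (G : SimpleGraph V),
    Kfree G t → ¬ HasTripod G t → ∀ W : Finset V, ∃ X : Set V, Small G X c ∧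
      ∀ u ∉ X, 2 * (W.filter (fun i => i ∈ cc G Xᶜ u)).card ≤ W.card := by
  obtain ⟨c, hc⟩ := no_conc t ht
  exact ⟨12 * c, fun V _ G hK hT => sep_of_no_conc (G := G) c (fun A I hI => hc V G hK hT A I hI)⟩

end Pool.Agent.MP_8b3902_co
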