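import Pool.Agent.Lib.MP_8b3902_co.F.Defs

set_option autoImplicit false

namespace Pool.Agent.MP_8b3902_co

open Classical

variable {V : Type}

theorem conn_induce_aux (G : SimpleGraph V) (S : Set V) (X : Set V) (X' : Set (↥S))
    (hX : ∀ v (hv : v ∈ S), v ∈ X → (⟨v, hv⟩ : ↥S) ∈ X') (hXS : X ⊆ S) :
    ∀ {u v : V} (p : G.Walk u v), (∀ x ∈ p.support, x ∈ X) → ∀ (hu : u ∈ S) (hv : v ∈ S),
      Conn (G.induce S) X' ⟨u, hu⟩ ⟨v, hv⟩ := by
  intro u v p
  induction p with
  | nil =>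
    intro h hu hv
    exact conn_refl (hX _ hu (h _ (by simp)))
  | @cons a b c hab q ih =>
    intro h hu hv
    have hbX : b ∈ X := h b (by simp)
    have haX : a ∈ X := h a (by simp)
    have h1 := ih (fun x hx => h x (by simp [hx])) (hXS hbX) hv
    refine conn_trans (conn_adj (hX _ hu haX) (hX _ (hXS hbX) hbX) ?_) h1
    simpa using hab

theorem small_image_induce (G : SimpleGraph V) (S : Set V) (X : Set (↥S)) (c : ℕ)
    (h : Small (G.induce S) X c) : Small G (Subtype.val '' X) c := by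
  intro T hT hT'
  have hTS : ∀ v ∈ T, v ∈ S := by
    intro v hv
    obtain ⟨y, -, rfl⟩ := hT v hv
    exact y.2
  have h1 := h (T.subtype (fun v => v ∈ S)) (by
    intro v hv
    rw [Finset.mem_subtype] at hv
    obtain ⟨y, hy, hyv⟩ := hT v.1 hv
    have : y = v := Subtype.ext hyv
    rw [← this]
    exact hy) (by
    intro u hu w hw hadj
    rw [Finset.mem_subtype] at hu hw
    exact hT' u.1 hu w.1 hw (by simpa using hadj))
  have h2 : (T.subtype (fun v => v ∈ S)).card = T.card := by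
    rw [Finset.card_subtype, Finset.filter_true_of_mem hTS]
  omega

/-- F21. Balanced separators of an induced subgraph and a small set outside. -/
theorem sep_of_induce [Fintype V] (G : SimpleGraph V) (Z : Set V) (a c : ℕ) (hZ : Small G Z a)
    (h : ∀ W : Finset (↥(Zᶜ)), ∃ X : Set (↥(Zᶜ)), Small (G.induce Zᶜ) X c ∧
      ∀ u ∉ X, 2 * (W.filter (fun i => i ∈ cc (G.induce Zᶜ) Xᶜ u)).card ≤ W.card) :
    ∀ W : Finset V, ∃ X : Set V, Small G X (a + c) ∧
      ∀ u ∉ X, 2 * (W.filter (fun i => i ∈ cc G Xᶜ u)).card ≤ W.card := by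
  intro W
  obtain ⟨X', hX', hbal⟩ := h (W.subtype (fun v => v ∈ Zᶜ))
  refine ⟨Z ∪ Subtype.val '' X', small_union hZ (small_image_induce G _ X' c hX'), ?_⟩
  intro u hu
  have huZ : u ∈ Zᶜ := fun h => hu (Or.inl h)
  have huX : (⟨u, huZ⟩ : ↥(Zᶜ)) ∉ X' := fun h => hu (Or.inr ⟨_, h, rfl⟩)
  have h1 := hbal ⟨u, huZ⟩ huX
  have h2 : (W.filter (fun i => i ∈ cc G (Z ∪ Subtype.val '' X')ᶜ u)) ⊆
      ((W.subtype (fun v => v ∈ Zᶜ)).filter
        (fun i => i ∈ cc (G.induce Zᶜ) X'ᶜ ⟨u, huZ⟩)).map (Function.Embedding.subtype _) := by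
    intro v hv
    rw [Finset.mem_filter] at hv
    obtain ⟨hvW, hvc⟩ := hv
    have hvS : v ∈ Zᶜ := fun h => (cc_subset u hvc) (Or.inl h)
    rw [Finset.mem_map]
    refine ⟨⟨v, hvS⟩, ?_, rfl⟩
    rw [Finset.mem_filter, Finset.mem_subtype]
    refine ⟨hvW, ?_⟩
    obtain ⟨p, hp⟩ := hvc
    refine conn_induce_aux G Zᶜ (Z ∪ Subtype.val '' X')ᶜ X'ᶜ ?_ ?_ p hp huZ hvS
    · intro w hw hwX hwX'
      exact hwX (Or.inr ⟨_, hwX', rfl⟩)
    · intro w hw hwZ
      exact hw (Or.inl hwZ)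
  have h3 := Finset.card_le_card h2
  rw [Finset.card_map] at h3
  have h4 : (W.subtype (fun v => v ∈ Zᶜ)).card ≤ W.card := by
    rw [Finset.card_subtype]
    exact Finset.card_filter_le _ _
  omega

/-- F21b. -/
theorem kfree_induce (G : SimpleGraph V) (S : Set V) {t : ℕ} (h : Kfree G t) :
    Kfree (G.induce S) t := by
  intro P Q hP hQ hPi hQi
  obtain ⟨p, hp, q, hq, hpq⟩ := h (P.map (Function.Embedding.subtype _))
    (Q.map (Function.Embedding.subtype _)) (by rw [Finset.card_map]; exact hP)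
    (by rw [Finset.card_map]; exact hQ) (by
      intro u hu w hw
      rw [Finset.mem_map] at hu hw
      obtain ⟨u', hu', rfl⟩ := hu
      obtain ⟨w', hw', rfl⟩ := hw
      intro hadj
      exact hPi u' hu' w' hw' (by simpa using hadj)) (by
      intro u hu w hw
      rw [Finset.mem_map] at hu hw
      obtain ⟨u', hu', rfl⟩ := hu
      obtain ⟨w', hw', rfl⟩ := hw
      intro hadj
      exact hQi u' hu' w' hw' (by simpa using hadj))
  rw [Finset.mem_map] at hp hq
  obtain ⟨p', hp', rfl⟩ := hp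
  obtain ⟨q', hq', rfl⟩ := hq
  exact ⟨p', hp', q', hq', fun hadj => hpq (by simpa using hadj)⟩

end Pool.Agent.MP_8b3902_co
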