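import Pool.Agent.Lib.MP_8b3902_co.F.Defs
import Pool.Agent.Lib.MP_8b3902_co.Main
import Pool.Agent.Lib.MP_8b3902_co.F.SepT
import Pool.Agent.Lib.MP_8b3902_co.F.Transfer
import Pool.Agent.Lib.MP_8b3902_co.F.Hit
import Pool.Agent.Lib.MP_8b3902_co.F.GadgetBag
import Pool.Agent.Lib.MP_8b3902_co.F.GadgetClique
import Pool.Agent.Lib.MP_8b3902_co.F.EmbedS
import Pool.Agent.Lib.MP_8b3902_co.F.EmbedL

set_option autoImplicit false

namespace Pool.Agent.MP_8b3902_co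

open Classical

variable {V : Type}

/-- F29. -/
theorem sep_copies (t m : ℕ) (ht : 0 < t) : ∃ c : ℕ, ∀ (V : Type) [Fintype V] (G : SimpleGraph V),
    Kfree G t → IsEmpty (copies m (spider t) ↪g G) → IsEmpty (copies m (lspider t) ↪g G) →
    ∀ W : Finset V, ∃ X : Set V, Small G X c ∧
      ∀ u ∉ X, 2 * (W.filter (fun i => i ∈ cc G Xᶜ u)).card ≤ W.card := by
  obtain ⟨c, hc⟩ := sep_tripod t ht
  obtain ⟨g₁, hg₁⟩ := hit_copies (spider t) t m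
  obtain ⟨g₂, hg₂⟩ := hit_copies (lspider t) t m
  refine ⟨(g₁ + g₂) + c, fun V _ G hK h1 h2 => ?_⟩
  obtain ⟨Z₁, hZ₁, hh₁⟩ := hg₁ V G hK h1
  obtain ⟨Z₂, hZ₂, hh₂⟩ := hg₂ V G hK h2
  refine sep_of_induce G (Z₁ ∪ Z₂) (g₁ + g₂) c (small_union hZ₁ hZ₂) ?_
  refine hc (↥((Z₁ ∪ Z₂)ᶜ)) (G.induce (Z₁ ∪ Z₂)ᶜ) (kfree_induce G _ hK) ?_
  rintro (⟨⟨f⟩⟩ | ⟨⟨f⟩⟩)
  · obtain ⟨w, hw⟩ := hh₁ (f.trans (SimpleGraph.Embedding.induce _))
    exact (f w).2 (Or.inl hw)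
  · obtain ⟨w, hw⟩ := hh₂ (f.trans (SimpleGraph.Embedding.induce _))
    exact (f w).2 (Or.inr hw)

/-- F30. The full answer. -/
theorem main_full :
    ∀ (k : ℕ) (n : Fin k → ℕ) (H : ∀ i, SimpleGraph (Fin (n i))),
      (∃ f : ℕ → ℕ, ∀ (V : Type) [Fintype V] (G : SimpleGraph V),
        (∀ i, IsEmpty (H i ↪g G)) → ∀ c : ℕ, G.CliqueFree (c + 1) →
        ∃ (m : ℕ) (T : SimpleGraph (Fin m)) (B : Fin m → Finset V),
          T.IsTree ∧ (∀ v : V, ∃ t, v ∈ B t) ∧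
          (∀ u v : V, G.Adj u v → ∃ t, u ∈ B t ∧ v ∈ B t) ∧
          (∀ v : V, (T.induce {t : Fin m | v ∈ B t}).Connected) ∧
          ∀ t, (B t).card ≤ f c + 1) →
      ∃ K : ℕ, ∀ (V : Type) [Fintype V] (G : SimpleGraph V),
        (∀ i, IsEmpty (H i ↪g G)) →
        ∃ (m : ℕ) (T : SimpleGraph (Fin m)) (B : Fin m → Finset V),
          T.IsTree ∧ (∀ v : V, ∃ t, v ∈ B t) ∧
          (∀ u v : V, G.Adj u v → ∃ t, u ∈ B t ∧ v ∈ B t) ∧
          (∀ v : V, (T.induce {t : Fin m | v ∈ B t}).Connected) ∧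
          ∀ t, ∀ S : Finset V, S ⊆ B t →
            (∀ u ∈ S, ∀ w ∈ S, ¬ G.Adj u w) → S.card ≤ K := by
  rintro k n H ⟨f, hf⟩
  -- some member of the family is an induced subgraph of `K_{N,N}`
  set N := f 2 + 2 with hN
  obtain ⟨j, ⟨ψ⟩⟩ : ∃ j, Nonempty (H j ↪g completeBipartiteGraph (Fin N) (Fin N)) := by
    by_contra hcon
    push Not at hcon
    obtain ⟨m, T, B, hT, _, hE, hC, hB⟩ := hf (Fin N ⊕ Fin N)
      (completeBipartiteGraph (Fin N) (Fin N))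
      (fun j => not_nonempty_iff.1 (by simpa using hcon j)) 2 (cliqueFree_knn N)
    obtain ⟨t, ht⟩ := knn_bag N m T B hT hE hC
    have := hB t
    omega
  obtain ⟨L, hL⟩ : ∃ L : ℕ, ∀ i, n i ≤ L :=
    ⟨∑ i, n i, fun i => Finset.single_le_sum (f := n) (fun _ _ => Nat.zero_le _)
      (Finset.mem_univ i)⟩
  -- some member is an induced subgraph of a spider net
  obtain ⟨a, ⟨φ⟩⟩ : ∃ j, Nonempty (H j ↪g spiderNet L (f 2 + 2)) := by
    by_contra hcon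
    push Not at hcon
    obtain ⟨m, T, B, hT, hV, hE, hC, hB⟩ := hf _ (spiderNet L (f 2 + 2))
      (fun j => not_nonempty_iff.1 (by simpa using hcon j)) 2 (spiderNet_cliqueFree L (f 2 + 2))
    obtain ⟨t, ht⟩ := gadget_bag (spider (L + 1)) (spider_conn L) (fun p => some (p, Fin.last L))
      (f 2 + 2) m T B hT hV hE hC
    have := hB t
    omega
  obtain ⟨b, ⟨χ⟩⟩ : ∃ j, Nonempty (H j ↪g lspiderNet L (f 3 + 2)) := by
    by_contra hcon
    push Not at hcon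
    obtain ⟨m, T, B, hT, hV, hE, hC, hB⟩ := hf _ (lspiderNet L (f 3 + 2))
      (fun j => not_nonempty_iff.1 (by simpa using hcon j)) 3 (lspiderNet_cliqueFree L (f 3 + 2))
    obtain ⟨t, ht⟩ := gadget_bag (lspider (L + 1)) (lspider_conn L) (fun p => (p, Fin.last L))
      (f 3 + 2) m T B hT hV hE hC
    have := hB t
    omega
  obtain ⟨m₁, L₁, ⟨φ'⟩⟩ := spiderNet_embed (H a) L (f 2 + 2)
    (by rw [Fintype.card_fin]; exact hL a) φ
  obtain ⟨m₂, L₂, ⟨χ'⟩⟩ := lspiderNet_embed (H b) L (f 3 + 2)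
    (by rw [Fintype.card_fin]; exact hL b) χ
  set t := max (max N L₁) (max L₂ 1) with ht
  have htN : N ≤ t := (le_max_left _ _).trans (le_max_left _ _)
  have htL₁ : L₁ ≤ t := (le_max_right _ _).trans (le_max_left _ _)
  have htL₂ : L₂ ≤ t := (le_max_left _ _).trans (le_max_right _ _)
  have ht0 : 0 < t := lt_of_lt_of_le one_pos ((le_max_right _ _).trans (le_max_right _ _))
  obtain ⟨α₁⟩ := spider_mono htL₁
  obtain ⟨α₂⟩ := lspider_mono htL₂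
  obtain ⟨β₁⟩ := copies_mono α₁ (le_max_left m₁ m₂)
  obtain ⟨β₂⟩ := copies_mono α₂ (le_max_right m₁ m₂)
  obtain ⟨c, hc⟩ := sep_copies t (max m₁ m₂) ht0
  refine ⟨5 * c + 3, fun V _ G hG => ?_⟩
  have hK : Kfree G t := by
    refine kfree_mono htN (kfree_of_isEmpty ⟨fun e => ?_⟩)
    exact (hG j).elim (e.comp ψ)
  obtain ⟨R, hR⟩ := hasDec_of_sep G c (hc V G hK ⟨fun e => (hG a).elim ((e.comp β₁).comp φ')⟩
    ⟨fun e => (hG b).elim ((e.comp β₂).comp χ')⟩)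
  exact treeDec_of_hasDec G R (5 * c + 3) hR

end Pool.Agent.MP_8b3902_co
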